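import Pool.Agent.H50.FW.Main

/-!
# Furtwängler's theorem over number fields: few irregular indices, and one prime of degree one
-/

set_option autoImplicit false

namespace Pool.Agent.H50.FW

open NumberField IsDedekindDomain Polynomial
open Pool.Agent.Y546.WQ Pool.Agent.W71.FS

/-- the derivative of the reflection at one -/
theorem der_reflect {F : Type} [Field F] (m : ℕ) (f : F[X]) (hf : f.natDegree ≤ m) :
    (derivative (f.reflect m)).eval 1 = m * f.eval 1 - (derivative f).eval 1 := by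
  have key : ∀ (s : Finset ℕ) (c : ℕ → F), (∀ i ∈ s, i ≤ m) →
      (derivative ((∑ i ∈ s, C (c i) * X ^ i : F[X]).reflect m)).eval 1 =
      m * (∑ i ∈ s, C (c i) * X ^ i : F[X]).eval 1 -
        (derivative (∑ i ∈ s, C (c i) * X ^ i : F[X])).eval 1 := by
    classical
    intro s c
    induction s using Finset.induction_on with
    | empty => simp
    | insert j s hj ih =>
      intro hs
      have ih' := ih fun i hi => hs i (Finset.mem_insert_of_mem hi)
      have hjm := hs j (Finset.mem_insert_self j s)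
      rw [Finset.sum_insert hj, reflect_add, derivative_add, eval_add, ih',
        reflect_C_mul_X_pow, revAt_le hjm, eval_add, derivative_add, eval_add]
      simp only [derivative_C_mul, derivative_X_pow, eval_mul, eval_C, eval_pow, eval_X, one_pow,
        mul_one, map_natCast, eval_natCast]
      rw [Nat.cast_sub hjm]
      ring
  have h1 := key (Finset.range (m + 1)) f.coeff (fun i hi => by
    rw [Finset.mem_range] at hi
    omega)
  rw [← f.as_sum_range_C_mul_X_pow' (Nat.lt_succ_of_le hf)] at h1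
  exact h1

/-- `f` is palindromic if the logarithmic derivative at one is known -/
theorem palAQ (p : ℕ) [Fact p.Prime] (m k : ℕ)
    (f : Polynomial (ZMod p)) (hp : 2 * m + 3 ≤ p) (hk : k ≤ 2 * m)
    (hf : f.natDegree ≤ m) (h0 : f.coeff 0 ≠ 0) (hm : f.coeff m ≠ 0) (h1 : f.eval 1 ≠ 0)
    (hder : 2 * (derivative f).eval 1 = k * f.eval 1) (hrel : Rel p f)
    (hreg : ∀ j, Odd j → 3 ≤ j → j < 2 * m → Reg p j) : k = m ∧ f.reflect m = f := by
  refine Y824.WQ.pal hf h0 hm hk ?_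
  by_cases hz : X ^ m * f - X ^ k * f.reflect m = 0
  · rw [hz]
    exact dvd_zero _
  obtain ⟨W, hW, hW1⟩ := exists_eq_pow_rootMultiplicity_mul_and_not_dvd _ hz 1
  set l := (X ^ m * f - X ^ k * f.reflect m).rootMultiplicity 1 with hl
  rw [C_1] at hW hW1
  have hW2 : W.eval 1 ≠ 0 := by
    intro h
    apply hW1
    rw [← C_1, dvd_iff_isRoot]
    exact h
  have hl1 : 1 ≤ l := by
    rw [hl, Nat.one_le_iff_ne_zero, ← Nat.pos_iff_ne_zero, rootMultiplicity_pos hz, IsRoot.def]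
    simp [Y824.WQ.eval_reflect hf]
  have hlne : l ≠ 1 := by
    intro hl1'
    rw [hl1', pow_one] at hW
    have h2 := congrArg (fun g => eval 1 (derivative g)) hW
    simp only [derivative_sub, derivative_mul, derivative_X_pow, eval_sub, eval_add, eval_mul,
      eval_pow, eval_X, one_pow, one_mul, mul_one, derivative_X, derivative_one, sub_zero,
      eval_one, sub_self, zero_mul, add_zero, map_natCast, eval_natCast] at h2
    rw [der_reflect m f hf, Y824.WQ.eval_reflect hf] at h2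
    apply hW2
    linear_combination -h2 + hder
  by_cases hl2 : l ≤ 2 * m
  · exfalso
    have hl22 : 2 ≤ l := by omega
    have hm1 : 0 < m := by omega
    obtain ⟨i', r', hr', hdv'⟩ := hrel 1 one_pos (by omega)
    obtain ⟨h2, -⟩ := Y275.WQ.mainCOREA p (by omega) 1 one_pos (by omega) m k i' l f W r' hf h1
      hr' hdv' hW hW2 hl22 (by omega)
    have hl4 : 3 ≤ l := by
      rcases h2 with ⟨u, hu⟩
      omega
    obtain ⟨a, ha, hap, hne⟩ := hreg l h2 hl4 (by
      rcases h2 with ⟨u, hu⟩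
      omega)
    obtain ⟨i', r', hr', hdv'⟩ := hrel a ha hap
    obtain ⟨-, h5⟩ := Y275.WQ.mainCOREA p (by omega) a ha hap m k i' l f W r' hf h1 hr' hdv' hW
      hW2 (by omega) (by omega)
    exact hne h5
  · rw [hW]
    exact Dvd.dvd.mul_right (pow_dvd_pow _ (by omega)) _

section

variable {p : ℕ} [Fact p.Prime] {E : Type} [Field E] [NumberField E]
  {K N : Type} [Field K] [NumberField K] [Field N] [NumberField N]

/-- **Few irregular indices**: the numbers of conjugates of `X` and `Y` in a prime above `q` are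
equal -/
theorem eq_countq (c : Cyc p E)
    (i : E →+* N) (hD : Dn p E N i) (hcard : Nat.card (K →+* N) = Module.finrank ℚ K)
    (hm : 2 * Module.finrank ℚ K + 3 ≤ p) (q : ℕ) [Fact q.Prime] (hqp : q ≠ p)
    (hW : ¬ p ^ 2 ∣ q ^ (p - 1) - 1)
    (hreg : (∀ j, Odd j → 3 ≤ j → j < 2 * Module.finrank ℚ K → Reg p j) ∨ PalK p K)
    (Q : Ideal (𝓞 N)) (hQ : Q.IsPrime) (hqQ : ((q : ℕ) : 𝓞 N) ∈ Q)
    {X Y Z : 𝓞 K} (hs : Sol p K X Y Z) (hl : LocQ q X Y Z) :
    Nat.card {τ : K →+* N // RingOfIntegers.mapRingHom τ X ∈ Q} =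
      Nat.card {τ : K →+* N // RingOfIntegers.mapRingHom τ Y ∈ Q} := by
  have hpp : p.Prime := Fact.out
  have hmpos := Module.finrank_pos (R := ℚ) (M := K)
  have hp2 : p ≠ 2 := by omega
  obtain ⟨f, hdeg, hc0, hcm, hev, hf'⟩ := Y290.WQ.mainNORM K X Y
  have hf := hf' N hcard
  obtain ⟨b1, b2, b3, b4, b5⟩ := base Y290.WQ.mainNORM hcard hs f hdeg hc0 hcm hev
  have k1 := logder c i hD hcard hp2 q hqp hW Q hQ hqQ hs hl f hdeg hc0 hcm hev hf
  have la : Nat.card {τ : K →+* N // RingOfIntegers.mapRingHom τ X ∈ Q} ≤ Module.finrank ℚ K :=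
    card_le hcard _
  have lb : Nat.card {τ : K →+* N // RingOfIntegers.mapRingHom τ Y ∈ Q} ≤ Module.finrank ℚ K :=
    card_le hcard _
  set a := Nat.card {τ : K →+* N // RingOfIntegers.mapRingHom τ X ∈ Q}
  set b := Nat.card {τ : K →+* N // RingOfIntegers.mapRingHom τ Y ∈ Q}
  rcases hreg with hreg | hpal
  · have hrel := rel_of_sol aUNITA Y261.WQ.main Y919.WQ.mainLAMA Y290.WQ.mainNORM c i hD hcard hp2
      hs f hdeg hc0 hcm hev hf
    have hab : b ≤ Module.finrank ℚ K + a := by omega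
    obtain ⟨q6, -⟩ := palAQ p (Module.finrank ℚ K) (Module.finrank ℚ K + a - b) _ hm
      (by omega) b1 b2 b3 b4 (by
        rw [k1, Nat.cast_sub hab]
        push_cast
        ring) hrel hreg
    omega
  · have hpal1 := hpal X Y Z hs f hdeg hc0 hcm hev hf'
    have q6 := der_reflect (Module.finrank ℚ K) _ b1
    rw [hpal1] at q6
    have q7 : ((a : ZMod p) - b) * (f.map (Int.castRingHom (ZMod p))).eval 1 = 0 := by
      linear_combination q6 - k1
    have q8 : (a : ZMod p) = b := sub_eq_zero.1 ((mul_eq_zero.1 q7).resolve_right b4)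
    have h := (ZMod.natCast_eq_natCast_iff a b p).1 q8
    exact Nat.ModEq.eq_of_lt_of_lt h (by omega) (by omega)

/-- an integer congruent to an algebraic integer modulo a prime of norm `p` -/
theorem exists_int (P : Ideal (𝓞 K)) (hP : P.IsPrime) (hpP : ((p : ℕ) : 𝓞 K) ∈ P)
    (hc : Nat.card (𝓞 K ⧸ P) = p) (w : 𝓞 K) : ∃ a : ℤ, w - ((a : ℤ) : 𝓞 K) ∈ P := by
  have hpp : p.Prime := Fact.out
  have hch : CharP (𝓞 K ⧸ P) p := charP_quot P hP p hpp hpP
  have hfin : Finite (𝓞 K ⧸ P) := Nat.finite_of_card_ne_zero (by rw [hc]; exact hpp.ne_zero)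
  have hft : Fintype (𝓞 K ⧸ P) := Fintype.ofFinite _
  have hbij : Function.Bijective (ZMod.castHom (dvd_refl p) (𝓞 K ⧸ P)) := by
    rw [Fintype.bijective_iff_injective_and_card]
    refine ⟨ZMod.castHom_injective _, ?_⟩
    rw [ZMod.card, ← Nat.card_eq_fintype_card, hc]
  obtain ⟨u, hu⟩ := hbij.2 (Ideal.Quotient.mk P w)
  refine ⟨(u.val : ℤ), ?_⟩
  rw [← Ideal.Quotient.eq_zero_iff_mem, map_sub, ← hu, map_intCast]
  have h1 : u = ((u.val : ℕ) : ZMod p) := (ZMod.natCast_zmod_val u).symm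
  nth_rewrite 1 [h1]
  rw [map_natCast]
  push_cast
  exact sub_self _

/-- **One prime of degree one above `p`**: the relation between the residues -/
theorem uniq_rel (c : Cyc p E) (i : E →+* N) (hD : Dn p E N i)
    (hcard : Nat.card (K →+* N) = Module.finrank ℚ K) (hp2 : p ≠ 2) (q : ℕ) [Fact q.Prime]
    (hqp : q ≠ p) (hW : ¬ p ^ 2 ∣ q ^ (p - 1) - 1) (Q : Ideal (𝓞 N)) (hQ : Q.IsPrime)
    (hqQ : ((q : ℕ) : 𝓞 N) ∈ Q) (P : Ideal (𝓞 K))
    (hP : ∀ P' : Ideal (𝓞 K), P'.IsPrime → ((p : ℕ) : 𝓞 K) ∈ P' → P' = P)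
    {X Y Z : 𝓞 K} (hs : Sol p K X Y Z) (hl : LocQ q X Y Z) (a b : ℤ)
    (ha : X - ((a : ℤ) : 𝓞 K) ∈ P) (hb : Y - ((b : ℤ) : 𝓞 K) ∈ P) :
    2 * (Module.finrank ℚ K : ZMod p) * b = ((Module.finrank ℚ K : ZMod p) +
        (Nat.card {τ : K →+* N // RingOfIntegers.mapRingHom τ X ∈ Q} : ℕ) -
        (Nat.card {τ : K →+* N // RingOfIntegers.mapRingHom τ Y ∈ Q} : ℕ)) * (a + b) := by
  classical
  have hpp : p.Prime := Fact.out
  obtain ⟨f, hdeg, hc0, hcm, hev, hf'⟩ := Y290.WQ.mainNORM K X Y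
  have hf := hf' N hcard
  obtain ⟨b1, b2, b3, b4, b5⟩ := base Y290.WQ.mainNORM hcard hs f hdeg hc0 hcm hev
  have k1 := logder c i hD hcard hp2 q hqp hW Q hQ hqQ hs hl f hdeg hc0 hcm hev hf
  obtain ⟨R, hR, hpR⟩ := exists_above (K := N) p hpp
  have hR0 : R ≠ ⊥ := by
    rintro rfl
    rw [Ideal.mem_bot, Nat.cast_eq_zero] at hpR
    exact hpp.ne_zero hpR
  have hRm : R.IsMaximal := hR.isMaximal hR0
  let _ : Field (𝓞 N ⧸ R) := Ideal.Quotient.field R
  have hch : CharP (𝓞 N ⧸ R) p := charP_quot R hR p hpp hpR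
  have hres : ∀ (τ : K →+* N) (w : 𝓞 K) (a : ℤ), w - ((a : ℤ) : 𝓞 K) ∈ P →
      Ideal.Quotient.mk R (RingOfIntegers.mapRingHom τ w) = ((a : ℤ) : 𝓞 N ⧸ R) := by
    intro τ w a hw
    have h1 : R.comap (RingOfIntegers.mapRingHom τ) = P := hP _ (hR.comap _) (by
      rw [Ideal.mem_comap, map_natCast]
      exact hpR)
    rw [← h1, Ideal.mem_comap, map_sub, map_intCast, ← Ideal.Quotient.eq_zero_iff_mem, map_sub,
      map_intCast, sub_eq_zero] at hw
    exact hw
  have hfL : f.map (Int.castRingHom (𝓞 N ⧸ R)) =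
      (C ((a : ℤ) : 𝓞 N ⧸ R) + Polynomial.X * C ((b : ℤ) : 𝓞 N ⧸ R)) ^
        (Module.finrank ℚ K) := by
    have e1 : f.map (Int.castRingHom (𝓞 N ⧸ R)) =
        (f.map (Int.castRingHom (𝓞 N))).map (Ideal.Quotient.mk R) := by
      rw [Polynomial.map_map]
      congr 1
    rw [e1, hf, nrmP, Polynomial.map_prod, ← hcard, Nat.card_eq_fintype_card, ← Finset.card_univ,
      ← Finset.prod_const]
    refine Finset.prod_congr rfl fun τ _ => ?_
    rw [Polynomial.map_add, Polynomial.map_mul, Polynomial.map_C, Polynomial.map_C,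
      Polynomial.map_X, hres τ _ a ha, hres τ _ b hb]
  set ι : ZMod p →+* (𝓞 N ⧸ R) := ZMod.castHom (dvd_refl p) (𝓞 N ⧸ R) with hι
  have e3 : f.map (Int.castRingHom (𝓞 N ⧸ R)) = (f.map (Int.castRingHom (ZMod p))).map ι := by
    rw [Polynomial.map_map]
    congr 1
    exact RingHom.ext_int _ _
  have e4 : ∀ g : (ZMod p)[X], ι (g.eval 1) = (g.map ι).eval 1 := by
    intro g
    rw [eval_map, ← map_one ι, eval₂_hom]
  have hm := Module.finrank_pos (R := ℚ) (M := K)
  obtain ⟨m', hm'⟩ := Nat.exists_eq_succ_of_ne_zero hm.ne'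
  have v1 : ι ((f.map (Int.castRingHom (ZMod p))).eval 1) =
      (((a : ℤ) : 𝓞 N ⧸ R) + ((b : ℤ) : 𝓞 N ⧸ R)) ^ (Module.finrank ℚ K) := by
    rw [e4, ← e3, hfL, eval_pow, eval_add, eval_mul, eval_X, eval_C, eval_C, one_mul]
  have v2 : ι ((derivative (f.map (Int.castRingHom (ZMod p)))).eval 1) =
      (Module.finrank ℚ K : 𝓞 N ⧸ R) * (((a : ℤ) : 𝓞 N ⧸ R) + ((b : ℤ) : 𝓞 N ⧸ R)) ^ m' *
        ((b : ℤ) : 𝓞 N ⧸ R) := by
    rw [e4, ← derivative_map, ← e3, hfL, derivative_pow, hm']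
    simp
  have hne : ((a : ℤ) : 𝓞 N ⧸ R) + ((b : ℤ) : 𝓞 N ⧸ R) ≠ 0 := by
    intro h0
    apply b4
    apply ι.injective
    rw [v1, h0, map_zero, zero_pow hm.ne']
  have k2 := congrArg ι k1
  rw [map_mul, map_mul, v1, v2, map_ofNat, map_sub, map_add, map_natCast, map_natCast,
    map_natCast] at k2
  apply ι.injective
  rw [map_mul, map_mul, map_mul, map_ofNat, map_sub, map_add, map_add, map_natCast, map_natCast,
    map_natCast, map_intCast, map_intCast]
  have hs' : (((a : ℤ) : 𝓞 N ⧸ R) + ((b : ℤ) : 𝓞 N ⧸ R)) ^ (Module.finrank ℚ K) =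
      (((a : ℤ) : 𝓞 N ⧸ R) + ((b : ℤ) : 𝓞 N ⧸ R)) ^ m' *
        (((a : ℤ) : 𝓞 N ⧸ R) + ((b : ℤ) : 𝓞 N ⧸ R)) := by
    rw [hm', pow_succ]
  rw [hs'] at k2
  apply mul_left_cancel₀ (pow_ne_zero m' hne)
  linear_combination k2

end

end Pool.Agent.H50.FW
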