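import Pool.Agent.Y546.WQ.Stm3

/-!
# Furtwängler's theorem over number fields: the exponent

One of the sums of inverses `hsa p a 1` is not zero, and the exponent of the Stickelberger relation
of index `a` is `hsa p a 1` times the logarithmic derivative at one.
-/

set_option autoImplicit false

namespace Pool.Agent.H50.FW

open NumberField IsDedekindDomain Polynomial
open Pool.Agent.Y546.WQ

/-- the units `w` with `p < t + w` -/
theorem card_gt {p : ℕ} [Fact p.Prime] (t : (ZMod p)ˣ) :
    (Finset.univ.filter fun w : (ZMod p)ˣ => p < (t : ZMod p).val + (w : ZMod p).val).card + 1 =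
      (t : ZMod p).val := by
  classical
  have hpp : p.Prime := Fact.out
  have ht : (t : ZMod p).val < p := ZMod.val_lt _
  have ht0 : 0 < (t : ZMod p).val := by
    rw [Nat.pos_iff_ne_zero, Ne, ZMod.val_eq_zero]
    exact t.ne_zero
  have h1 : (Finset.univ.filter fun w : (ZMod p)ˣ => p < (t : ZMod p).val + (w : ZMod p).val).card =
      (Finset.Ioo (p - (t : ZMod p).val) p).card := by
    refine Finset.card_bij (fun w _ => (w : ZMod p).val) ?_ ?_ ?_
    · intro w hw
      rw [Finset.mem_filter] at hw
      rw [Finset.mem_Ioo]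
      refine ⟨by omega, ZMod.val_lt _⟩
    · intro w _ w' _ h
      exact Units.ext (ZMod.val_injective p h)
    · intro k hk
      rw [Finset.mem_Ioo] at hk
      have hk0 : ((k : ℕ) : ZMod p) ≠ 0 := by
        rw [Ne, ZMod.natCast_eq_zero_iff]
        intro hd
        have := Nat.le_of_dvd (by omega) hd
        omega
      refine ⟨Units.mk0 _ hk0, ?_, ?_⟩
      · rw [Finset.mem_filter]
        refine ⟨Finset.mem_univ _, ?_⟩
        rw [Units.val_mk0, ZMod.val_natCast_of_lt hk.2]
        omega
      · rw [Units.val_mk0, ZMod.val_natCast_of_lt hk.2]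
  rw [h1, Nat.card_Ioo]
  omega

/-- one of the sums of inverses is not zero -/
theorem exists_hsa (p : ℕ) [Fact p.Prime] (hp2 : p ≠ 2) :
    ∃ a : ℕ, 0 < a ∧ a + 2 ≤ p ∧ hsa p a 1 ≠ 0 := by
  classical
  have hpp : p.Prime := Fact.out
  have hp3 : 3 ≤ p := by
    have := hpp.two_le
    omega
  by_contra hcon
  push Not at hcon
  -- the index of a unit
  have hval : ∀ u : (ZMod p)ˣ, hsa p (u : ZMod p).val 1 = 0 := by
    intro u
    have hu0 : 0 < (u : ZMod p).val := by
      rw [Nat.pos_iff_ne_zero, Ne, ZMod.val_eq_zero]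
      exact u.ne_zero
    have hu1 : (u : ZMod p).val < p := ZMod.val_lt _
    by_cases hu : (u : ZMod p).val + 2 ≤ p
    · exact hcon _ hu0 hu
    · have hu2 : (u : ZMod p).val = p - 1 := by omega
      have hu3 : (u : ZMod p) = -1 := by
        rw [← ZMod.natCast_zmod_val (u : ZMod p), hu2, Nat.cast_sub hpp.one_lt.le]
        simp
      unfold hsa
      apply Finset.sum_eq_zero
      intro t ht
      exfalso
      unfold hf at ht
      rw [Finset.mem_filter, ZMod.natCast_zmod_val, hu3, neg_one_mul, ZMod.neg_val,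
        if_neg t.ne_zero] at ht
      have := ZMod.val_lt (t : ZMod p)
      omega
  have hsum : ∑ u : (ZMod p)ˣ, hsa p (u : ZMod p).val 1 = 0 :=
    Finset.sum_eq_zero fun u _ => hval u
  -- exchange of the sums
  have h1 : ∑ u : (ZMod p)ˣ, hsa p (u : ZMod p).val 1 =
      ∑ t : (ZMod p)ˣ, ((t⁻¹ : (ZMod p)ˣ) : ZMod p) * (((t : ZMod p).val : ZMod p) - 1) := by
    unfold hsa hf
    simp only [Finset.sum_filter, pow_one, ZMod.natCast_zmod_val]
    rw [Finset.sum_comm]
    refine Finset.sum_congr rfl fun t _ => ?_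
    rw [← Finset.sum_filter, Finset.sum_const, nsmul_eq_mul, mul_comm]
    congr 1
    have h2 : (Finset.univ.filter fun u : (ZMod p)ˣ =>
        p < (t : ZMod p).val + ((u : ZMod p) * (t : ZMod p)).val).card =
        (Finset.univ.filter fun w : (ZMod p)ˣ =>
          p < (t : ZMod p).val + (w : ZMod p).val).card := by
      refine Finset.card_bij (fun u _ => u * t) ?_ ?_ ?_
      · intro u hu
        rw [Finset.mem_filter] at hu ⊢
        exact ⟨Finset.mem_univ _, by rw [Units.val_mul]; exact hu.2⟩
      · intro u _ u' _ h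
        exact mul_right_cancel h
      · intro w hw
        rw [Finset.mem_filter] at hw
        refine ⟨w * t⁻¹, ?_, by rw [inv_mul_cancel_right]⟩
        rw [Finset.mem_filter]
        refine ⟨Finset.mem_univ _, ?_⟩
        rw [← Units.val_mul, inv_mul_cancel_right]
        exact hw.2
    rw [h2]
    have h3 := congrArg (fun k : ℕ => (k : ZMod p)) (card_gt t)
    simp only [Nat.cast_add, Nat.cast_one, ZMod.natCast_zmod_val] at h3
    linear_combination h3
  have h4 : ∀ t : (ZMod p)ˣ, ((t⁻¹ : (ZMod p)ˣ) : ZMod p) * (((t : ZMod p).val : ZMod p) - 1) =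
      1 - ((t⁻¹ : (ZMod p)ˣ) : ZMod p) := by
    intro t
    rw [ZMod.natCast_zmod_val, mul_sub, mul_one, ← Units.val_mul, inv_mul_cancel, Units.val_one]
  have h5 : ∑ t : (ZMod p)ˣ, ((t⁻¹ : (ZMod p)ˣ) : ZMod p) = 0 := by
    refine (Equiv.sum_comp (Equiv.inv (ZMod p)ˣ) (fun t : (ZMod p)ˣ => (t : ZMod p))).trans ?_
    have h6 := FiniteField.sum_pow_units (ZMod p) 1
    simp only [pow_one] at h6
    rw [h6, if_neg]
    rw [ZMod.card]
    intro hd
    have := Nat.le_of_dvd one_pos hd
    omega
  rw [h1, Finset.sum_congr rfl fun t _ => h4 t, Finset.sum_sub_distrib, h5, sub_zero,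
    Finset.sum_const, Finset.card_univ, ZMod.card_units, nsmul_one,
    Nat.cast_sub hpp.one_lt.le] at hsum
  simp at hsum

/-- the exponent of the relation is given by the logarithmic derivative at one -/
theorem der_one {p : ℕ} [Fact p.Prime] (hp2 : p ≠ 2) (a i : ℕ) (f : Polynomial (ZMod p))
    (r : ZMod p) (hr : r ≠ 0)
    (hdvd : (X - 1) ^ (p - 1) ∣ thPa p a f - Polynomial.C r * X ^ i) :
    (i : ZMod p) * f.eval 1 = hsa p a 1 * (derivative f).eval 1 := by
  classical
  have hpp : p.Prime := Fact.out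
  have hp3 : 3 ≤ p := by
    have := hpp.two_le
    omega
  obtain ⟨W, hW⟩ := (pow_dvd_pow (X - 1 : (ZMod p)[X]) (show 2 ≤ p - 1 by omega)).trans hdvd
  have e0 := congrArg (Polynomial.eval 1) hW
  have e1 := congrArg (fun g => Polynomial.eval 1 (derivative g)) hW
  simp only [eval_sub, eval_mul, eval_C, eval_pow, eval_X, one_pow, mul_one, eval_one, sub_self,
    ne_eq, OfNat.ofNat_ne_zero, not_false_eq_true, zero_pow, zero_mul, sub_eq_zero] at e0
  simp only [derivative_sub, derivative_mul, derivative_C, zero_mul, zero_add,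
    eval_sub, eval_mul, eval_C, eval_pow, eval_X, one_pow, mul_one, derivative_pow, eval_add,
    derivative_X, derivative_one, sub_zero, eval_one, sub_self, map_natCast, eval_natCast,
    Nat.cast_ofNat, Nat.add_one_sub_one, pow_one, mul_zero, ne_eq, OfNat.ofNat_ne_zero,
    not_false_eq_true, zero_pow, add_zero, sub_eq_zero] at e1
  have h1 : Polynomial.eval 1 (thPa p a f) = ∏ _t ∈ hf p a, f.eval 1 := by
    unfold thPa
    rw [eval_prod]
    refine Finset.prod_congr rfl fun t _ => ?_
    rw [eval_comp, eval_pow, eval_X, one_pow]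
  have h2 : f.eval 1 * Polynomial.eval 1 (derivative (thPa p a f)) =
      (∏ _t ∈ hf p a, f.eval 1) * (hsa p a 1 * (derivative f).eval 1) := by
    unfold thPa hsa
    rw [derivative_prod_finset, eval_finsetSum, Finset.mul_sum, Finset.sum_mul, Finset.mul_sum]
    refine Finset.sum_congr rfl fun t ht => ?_
    rw [eval_mul, eval_prod, derivative_comp, eval_mul, eval_comp, eval_pow, eval_X, one_pow,
      derivative_X_pow, eval_mul, eval_pow, eval_X, one_pow, mul_one, map_natCast, eval_natCast,
      ZMod.natCast_zmod_val, pow_one]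
    have h3 : ∏ b ∈ (hf p a).erase t,
        eval 1 (f.comp (X ^ ((b⁻¹ : (ZMod p)ˣ) : ZMod p).val)) =
        ∏ _b ∈ (hf p a).erase t, f.eval 1 := by
      refine Finset.prod_congr rfl fun b _ => ?_
      rw [eval_comp, eval_pow, eval_X, one_pow]
    rw [h3, ← Finset.mul_prod_erase (hf p a) (fun _ => f.eval 1) ht]
    ring
  rw [e1] at h2
  rw [← h1, e0] at h2
  apply mul_left_cancel₀ hr
  linear_combination h2

end Pool.Agent.H50.FW
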