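import Pool.Agent.H50.FW.Fin

/-!
# Furtwängler's theorem over number fields: solutions
-/

set_option autoImplicit false

namespace Pool.Agent.H50.FW

open NumberField IsDedekindDomain Polynomial
open Pool.Agent.Y546.WQ Pool.Agent.W71.FS

/-- scaling a solution in the first case, at the primes above `p` and `q` -/
theorem prepq {K : Type} [Field K] [NumberField K] {p : ℕ} (hp : p.Prime) (q : ℕ) (hq0 : q ≠ 0)
    {x : Fin 3 → K} (hx : ∀ i, x i ≠ 0) (h : x 0 ^ p + x 1 ^ p + x 2 ^ p = 0)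
    (hv : ∀ v : HeightOneSpectrum (𝓞 K), ((p : ℕ) : 𝓞 K) ∈ v.asIdeal →
      ∀ i j, v.valuation K (x i) = v.valuation K (x j)) :
    ∃ (s : K) (Y : Fin 3 → 𝓞 K), s ≠ 0 ∧ (∀ i, algebraMap (𝓞 K) K (Y i) = s * x i) ∧
      SolF p K Y ∧
      (∀ P : Ideal (𝓞 K), P.IsPrime → ((q : ℕ) : 𝓞 K) ∈ P → ¬ ∀ i, Y i ∈ P) := by
  have hp0 : p ≠ 0 := hp.ne_zero
  obtain ⟨T, hT⟩ := finite_primes (K := K) (q * p) (Nat.mul_ne_zero hq0 hp0)
  obtain ⟨a, X, Y, Z, hXa, hYa, hZa, hn⟩ := scaleT (y := x 1) (z := x 2) (hx 0) T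
  have hne : ∀ (P : Ideal (𝓞 K)), P.IsPrime → ((q * p : ℕ) : 𝓞 K) ∈ P →
      ∃ h0 : P ≠ ⊥, ∀ hP : P.IsPrime, (⟨P, hP, h0⟩ : HeightOneSpectrum (𝓞 K)) ∈ T := by
    intro P hP hm
    have h0 : P ≠ ⊥ := by
      rintro rfl
      rw [Ideal.mem_bot] at hm
      have : (q * p : ℕ) = 0 := by exact_mod_cast hm
      exact Nat.mul_ne_zero hq0 hp0 this
    exact ⟨h0, fun hP' => hT _ hm⟩
  obtain ⟨M, hM, hMp⟩ := exists_above (K := K) p hp
  have hmem2p : ∀ P : Ideal (𝓞 K), ((p : ℕ) : 𝓞 K) ∈ P → ((q * p : ℕ) : 𝓞 K) ∈ P := by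
    intro P hP
    rw [Nat.cast_mul]
    exact P.mul_mem_left _ hP
  have ha : a ≠ 0 := by
    rintro rfl
    rw [zero_mul] at hXa hYa hZa
    have h1 : X = 0 := RingOfIntegers.coe_injective (by rw [map_zero]; exact hXa)
    have h2 : Y = 0 := RingOfIntegers.coe_injective (by rw [map_zero]; exact hYa)
    have h3 : Z = 0 := RingOfIntegers.coe_injective (by rw [map_zero]; exact hZa)
    obtain ⟨h0, h4⟩ := hne M hM (hmem2p M hMp)
    apply hn _ (h4 hM)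
    rw [h1, h2, h3]
    exact ⟨zero_mem _, zero_mem _, zero_mem _⟩
  have hX0 : X ≠ 0 := by
    rintro rfl
    rw [map_zero] at hXa
    exact mul_ne_zero ha (hx 0) hXa.symm
  have hY0 : Y ≠ 0 := by
    rintro rfl
    rw [map_zero] at hYa
    exact mul_ne_zero ha (hx 1) hYa.symm
  have hZ0 : Z ≠ 0 := by
    rintro rfl
    rw [map_zero] at hZa
    exact mul_ne_zero ha (hx 2) hZa.symm
  have hXYZ : X ^ p + Y ^ p + Z ^ p = 0 := by
    apply RingOfIntegers.coe_injective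
    rw [map_zero, map_add, map_add, map_pow, map_pow, map_pow]
    have e : a ^ p * (x 0 ^ p + x 1 ^ p + x 2 ^ p) = 0 := by rw [h, mul_zero]
    rw [hXa, hYa, hZa, mul_pow, mul_pow, mul_pow]
    linear_combination e
  refine ⟨a, ![X, Y, Z], ha, ?_, ⟨hX0, hY0, hZ0, hXYZ, ?_⟩, ?_⟩
  · intro i
    fin_cases i
    · exact hXa
    · exact hYa
    · exact hZa
  · intro P hP hpP
    obtain ⟨h0, h4⟩ := hne P hP (hmem2p P hpP)
    have h5 := hn _ (h4 hP)
    have h1 := hv ⟨P, hP, h0⟩ hpP 0 1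
    have h2 := hv ⟨P, hP, h0⟩ hpP 1 2
    have e : ∀ (w : K) (W : 𝓞 K), algebraMap (𝓞 K) K W = a * w →
        (W ∈ P ↔ (⟨P, hP, h0⟩ : HeightOneSpectrum (𝓞 K)).valuation K a *
          (⟨P, hP, h0⟩ : HeightOneSpectrum (𝓞 K)).valuation K w < 1) := by
      intro w W hW
      rw [← map_mul, ← hW]
      exact ((⟨P, hP, h0⟩ : HeightOneSpectrum (𝓞 K)).valuation_lt_one_iff_mem (K := K) W).symm
    have e1 : X ∈ P ↔ Y ∈ P := by rw [e _ X hXa, e _ Y hYa, h1]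
    have e2 : Y ∈ P ↔ Z ∈ P := by rw [e _ Y hYa, e _ Z hZa, h2]
    change ¬ (X ∈ P ∧ Y ∈ P ∧ Z ∈ P) at h5
    show X ∉ P ∧ Y ∉ P ∧ Z ∉ P
    tauto
  · intro P hP h2P hall
    have h3 : ((q * p : ℕ) : 𝓞 K) ∈ P := by
      rw [Nat.cast_mul]
      exact P.mul_mem_right _ h2P
    obtain ⟨h0, h4⟩ := hne P hP h3
    exact hn _ (h4 hP) ⟨hall 0, hall 1, hall 2⟩

/-- in a finite field with `p` prime to the order of the multiplicative group, `p`-th powers are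
injective -/
theorem eq_of_pow_eq {F : Type} [Field F] [Finite F] {p : ℕ} (hp : p.Prime)
    (hc : ¬ p ∣ Nat.card F - 1) {a b : F} (h : a ^ p = b ^ p) : a = b := by
  have hft : Fintype F := Fintype.ofFinite F
  by_cases hb : b = 0
  · rw [hb, zero_pow hp.ne_zero] at h
    rw [hb, (pow_eq_zero_iff hp.ne_zero).1 h]
  · have h1 : (a / b) ^ p = 1 := by rw [div_pow, h, div_self (pow_ne_zero _ hb)]
    have h0 : a / b ≠ 0 := by
      intro h0
      rw [h0, zero_pow hp.ne_zero] at h1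
      exact zero_ne_one h1
    have h2 : (a / b) ^ (Nat.card F - 1) = 1 := by
      rw [Nat.card_eq_fintype_card]
      exact FiniteField.pow_card_sub_one_eq_one _ h0
    have h3 := orderOf_dvd_of_pow_eq_one h1
    rcases (Nat.dvd_prime hp).1 h3 with h4 | h4
    · rw [orderOf_eq_one_iff] at h4
      exact (div_eq_one_iff_eq hb).1 h4
    · exfalso
      apply hc
      rw [← h4]
      exact orderOf_dvd_of_pow_eq_one h2

section

variable {K : Type} [Field K] [NumberField K]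

/-- `v` divides `x i`, if the coordinates are scaled to be integral and not all divisible -/
def Dv (x : Fin 3 → K) (i : Fin 3) (v : HeightOneSpectrum (𝓞 K)) : Prop :=
  ∃ l, v.valuation K (x i) < v.valuation K (x l)

/-- the residue of `x i / x j` is zero, infinity, or a conjugate of its inverse -/
def GoodV (p q : ℕ) (x : Fin 3 → K) (i j k : Fin 3) : Prop :=
  ∀ v ∈ Ab q K, Dv x i v ∨ Dv x j v ∨ v.valuation K (x i / x j + 1) < 1 ∨
    (Dv x k v ∧ ¬ p ∣ Nat.card (𝓞 K ⧸ v.asIdeal) - 1) ∨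
    (¬ Dv x k v ∧ ∃ s : ℕ, v.valuation K ((x i / x j) ^ (q ^ s + 1) - 1) < 1)

/-- the degree of the set of primes above `q` which divide `x i` -/
noncomputable def DD' (q : ℕ) (x : Fin 3 → K) (i : Fin 3) : ℕ :=
  ∑ᶠ v ∈ {v | v ∈ Ab q K ∧ Dv x i v}, ldeg v.asIdeal

theorem cases3 {i j k : Fin 3} (hij : i ≠ j) (hik : i ≠ k) (hjk : j ≠ k) (l : Fin 3) :
    l = i ∨ l = j ∨ l = k := by
  revert i j k l
  decide

theorem exists_third {i j : Fin 3} (hij : i ≠ j) : ∃ k : Fin 3, i ≠ k ∧ j ≠ k := by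
  revert i j
  decide

theorem exists_perm {i j k : Fin 3} (hij : i ≠ j) (hik : i ≠ k) (hjk : j ≠ k) :
    ∃ σ : G3, σ 0 = i ∧ σ 1 = j ∧ σ 2 = k := by
  revert i j k
  decide

theorem sol_ijk {p : ℕ} {Y : Fin 3 → 𝓞 K} (hF : SolF p K Y) {i j k : Fin 3} (hij : i ≠ j)
    (hik : i ≠ k) (hjk : j ≠ k) : Sol p K (Y i) (Y j) (Y k) := by
  obtain ⟨σ, rfl, rfl, rfl⟩ := exists_perm hij hik hjk
  exact hF.perm σ

/-- not two coordinates are in a prime above `q` -/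
theorem not_both {p : ℕ} (hp : p.Prime) {Y : Fin 3 → 𝓞 K} (hF : SolF p K Y)
    (P : Ideal (𝓞 K)) (hP : P.IsPrime) (hn : ¬ ∀ i, Y i ∈ P) {i j : Fin 3} (hij : i ≠ j) :
    ¬ (Y i ∈ P ∧ Y j ∈ P) := by
  rintro ⟨h1, h2⟩
  obtain ⟨k, hik, hjk⟩ := exists_third hij
  have hs := (sol_ijk hF hij hik hjk).eq
  have h3 : Y k ∈ P := by
    apply hP.mem_of_pow_mem p
    have e : Y k ^ p = 0 - Y i ^ p - Y j ^ p := by linear_combination hs
    rw [e]
    exact P.sub_mem (P.sub_mem (zero_mem _) (P.pow_mem_of_mem h1 p hp.pos))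
      (P.pow_mem_of_mem h2 p hp.pos)
  apply hn
  intro l
  rcases cases3 hij hik hjk l with rfl | rfl | rfl
  · exact h1
  · exact h2
  · exact h3

/-- if `v` divides `x k` and `p` is prime to `N v - 1`, then `x i + x j` is divisible by `v` -/
theorem add_mem_of {p : ℕ} (hp : p.Prime) (hp2 : p ≠ 2) {Y : Fin 3 → 𝓞 K} (hF : SolF p K Y)
    (P : Ideal (𝓞 K)) (hP : P.IsPrime) (hP0 : P ≠ ⊥) {i j k : Fin 3} (hij : i ≠ j)
    (hik : i ≠ k) (hjk : j ≠ k) (hk : Y k ∈ P) (hc : ¬ p ∣ Nat.card (𝓞 K ⧸ P) - 1) :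
    Y i + Y j ∈ P := by
  have hPm : P.IsMaximal := hP.isMaximal hP0
  let _ : Field (𝓞 K ⧸ P) := Ideal.Quotient.field P
  have hfin : Finite (𝓞 K ⧸ P) := Ideal.finiteQuotientOfFreeOfNeBot P hP0
  have hs := congrArg (Ideal.Quotient.mk P) (sol_ijk hF hij hik hjk).eq
  have hk0 : Ideal.Quotient.mk P (Y k) = 0 := Ideal.Quotient.eq_zero_iff_mem.2 hk
  rw [map_add, map_add, map_pow, map_pow, map_pow, hk0, zero_pow hp.ne_zero, add_zero,
    map_zero] at hs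
  have h1 : (Ideal.Quotient.mk P (Y i)) ^ p = (-Ideal.Quotient.mk P (Y j)) ^ p := by
    rw [(hp.odd_of_ne_two hp2).neg_pow]
    linear_combination hs
  have h2 := eq_of_pow_eq hp hc h1
  rw [← Ideal.Quotient.eq_zero_iff_mem, map_add, h2, neg_add_cancel]

/-- the local condition for the scaled coordinates -/
theorem locQ_of_good {p q : ℕ} (hp : p.Prime) (hp2 : p ≠ 2) (hq : q.Prime) {x : Fin 3 → K}
    (hx : ∀ i, x i ≠ 0) {s : K}
    {Y : Fin 3 → 𝓞 K} (hs0 : s ≠ 0) (hY : ∀ i, algebraMap (𝓞 K) K (Y i) = s * x i)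
    (hF : SolF p K Y)
    (hn : ∀ P : Ideal (𝓞 K), P.IsPrime → ((q : ℕ) : 𝓞 K) ∈ P → ¬ ∀ i, Y i ∈ P)
    {i j k : Fin 3} (hij : i ≠ j) (hik : i ≠ k) (hjk : j ≠ k) (hg : GoodV p q x i j k) :
    LocQ q (Y i) (Y j) (Y k) := by
  intro P hP hqP
  have hP0 : P ≠ ⊥ := by
    rintro rfl
    rw [Ideal.mem_bot, Nat.cast_eq_zero] at hqP
    exact hq.ne_zero hqP
  have hmem := mem_iff_lt hs0 hY (⟨P, hP, hP0⟩ : HeightOneSpectrum (𝓞 K)) (hn P hP hqP)
  refine ⟨not_both hp hF P hP (hn P hP hqP) hij, ?_⟩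
  by_cases hj : Y j ∈ P
  · exact Or.inr (Or.inl hj)
  have hvj : (⟨P, hP, hP0⟩ : HeightOneSpectrum (𝓞 K)).valuation K
      (algebraMap (𝓞 K) K (Y j)) = 1 := val_one _ _ hj
  have hYj0 : algebraMap (𝓞 K) K (Y j) ≠ 0 := by
    rw [hY]
    exact mul_ne_zero hs0 (hx j)
  have hratio : x i / x j = algebraMap (𝓞 K) K (Y i) / algebraMap (𝓞 K) K (Y j) := by
    rw [hY, hY, mul_div_mul_left _ _ hs0]
  rcases hg ⟨P, hP, hP0⟩ hqP with h | h | h | ⟨h, h'⟩ | ⟨h, t, h'⟩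
  · exact Or.inl ((hmem i).2 h)
  · exact Or.inr (Or.inl ((hmem j).2 h))
  · refine Or.inr (Or.inr (Or.inl ?_))
    have e : algebraMap (𝓞 K) K (Y i + Y j) = algebraMap (𝓞 K) K (Y j) * (x i / x j + 1) := by
      rw [hratio, map_add]
      field_simp
    have h3 : (⟨P, hP, hP0⟩ : HeightOneSpectrum (𝓞 K)).valuation K
        (algebraMap (𝓞 K) K (Y i + Y j)) < 1 := by
      rw [e, map_mul, hvj, one_mul]
      exact h
    exact (HeightOneSpectrum.valuation_lt_one_iff_mem (K := K) _ (Y i + Y j)).1 h3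
  · exact Or.inr (Or.inr (Or.inl (add_mem_of hp hp2 hF P hP hP0 hij hik hjk
      ((hmem k).2 h) h')))
  · refine Or.inr (Or.inr (Or.inr ⟨fun hk => h ((hmem k).1 hk), t, ?_⟩))
    have e : algebraMap (𝓞 K) K (Y i ^ (q ^ t + 1) - Y j ^ (q ^ t + 1)) =
        algebraMap (𝓞 K) K (Y j) ^ (q ^ t + 1) * ((x i / x j) ^ (q ^ t + 1) - 1) := by
      rw [hratio, map_sub, map_pow, map_pow, div_pow, mul_sub, mul_one, mul_div_cancel₀]
      exact pow_ne_zero _ hYj0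
    have h3 : (⟨P, hP, hP0⟩ : HeightOneSpectrum (𝓞 K)).valuation K
        (algebraMap (𝓞 K) K (Y i ^ (q ^ t + 1) - Y j ^ (q ^ t + 1))) < 1 := by
      rw [e, map_mul, map_pow, hvj, one_pow, one_mul]
      exact h'
    exact (HeightOneSpectrum.valuation_lt_one_iff_mem (K := K) _ _).1 h3

/-- the degree as a number of embeddings -/
theorem dd_eq {N : Type} [Field N] [NumberField N]
    (hcard : Nat.card (K →+* N) = Module.finrank ℚ K) {q : ℕ} (hq : q.Prime)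
    (Q : Ideal (𝓞 N)) (hQ : Q.IsPrime) (hqQ : (q : 𝓞 N) ∈ Q) {x : Fin 3 → K} {s : K}
    {Y : Fin 3 → 𝓞 K} (hs0 : s ≠ 0) (hY : ∀ i, algebraMap (𝓞 K) K (Y i) = s * x i)
    (hn : ∀ P : Ideal (𝓞 K), P.IsPrime → ((q : ℕ) : 𝓞 K) ∈ P → ¬ ∀ i, Y i ∈ P) (i : Fin 3) :
    DD' q x i = Nat.card {τ : K →+* N // RingOfIntegers.mapRingHom τ (Y i) ∈ Q} := by
  classical
  have : Fact q.Prime := ⟨hq⟩
  have e1 : {v | v ∈ Ab q K ∧ Dv x i v} = {v | v ∈ Ab q K ∧ Y i ∈ v.asIdeal} := by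
    ext v
    exact and_congr_right fun hv => (mem_iff_lt hs0 hY v (hn v.asIdeal v.isPrime hv) i).symm
  unfold DD'
  rw [e1, ← finsum_conv hq (fun P => Y i ∈ P), finsum_eq hq,
    sum_ldeg_filter hcard hq Q hQ hqQ, Nat.card_eq_fintype_card, Fintype.card_subtype]
  rfl

end

/-- few irregular indices -/
def Few (p m : ℕ) : Prop :=
  (2 * m + 3 ≤ p ∧ ∀ k ∈ irr p, k + 2 * m < p) ∨
    m * (((irr p).card + 1) * ((irr p).card + 2)) + 3 ≤ p

/-- **The main theorem** -/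
theorem mainF {p q : ℕ} (hp : p.Prime) (hp2 : p ≠ 2) {K : Type} [Field K] [NumberField K]
    (hmp : Module.finrank ℚ K < p) (hq : q.Prime) (hqp : q ≠ p)
    (hW : ¬ p ^ 2 ∣ q ^ (p - 1) - 1) {x : Fin 3 → K} (hx : ∀ i, x i ≠ 0)
    (h : x 0 ^ p + x 1 ^ p + x 2 ^ p = 0)
    (hv : ∀ v : HeightOneSpectrum (𝓞 K), ((p : ℕ) : 𝓞 K) ∈ v.asIdeal →
      ∀ i j, v.valuation K (x i) = v.valuation K (x j)) :
    (∀ i j k : Fin 3, i ≠ j → i ≠ k → j ≠ k → GoodV p q x i j k →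
      padicNorm p (2 * Algebra.trace ℚ K (x j / x k) + (Module.finrank ℚ K : ℕ) +
        (DD' q x i : ℕ) - (DD' q x j : ℕ)) < 1) ∧
    (Few p (Module.finrank ℚ K) → ∀ i j k : Fin 3, i ≠ j → i ≠ k → j ≠ k →
      GoodV p q x i j k → DD' q x i = DD' q x j) ∧
    ((∀ v ∈ Ab p K, ∀ w ∈ Ab p K, v = w) → (∀ v ∈ Ab p K, Nat.card (𝓞 K ⧸ v.asIdeal) = p) →
      ∃ b : Fin 3 → ZMod p, (∀ i, b i ≠ 0) ∧ b 0 + b 1 + b 2 = 0 ∧
        ∀ i j k : Fin 3, i ≠ j → i ≠ k → j ≠ k → GoodV p q x i j k →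
          2 * (Module.finrank ℚ K : ZMod p) * b j = ((Module.finrank ℚ K : ZMod p) +
            (DD' q x i : ℕ) - (DD' q x j : ℕ)) * (b i + b j)) ∧
    (∀ i, DD' q x i ≤ Module.finrank ℚ K) ∧
    (∀ i, (∀ v ∈ Ab q K, Dv x i v) → DD' q x i = Module.finrank ℚ K ∧
      ∀ j, j ≠ i → DD' q x j = 0) ∧
    ((∀ v ∈ Ab q K, ∃ i, Dv x i v) → DD' q x 0 + DD' q x 1 + DD' q x 2 =
      Module.finrank ℚ K) := by
  classical
  have hfact : Fact p.Prime := ⟨hp⟩
  have hfq : Fact q.Prime := ⟨hq⟩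
  have hm := Module.finrank_pos (R := ℚ) (M := K)
  obtain ⟨E, _, _, ⟨c⟩⟩ := Y978.WQ.main p hp2
  obtain ⟨N, _, _, ι, hcard, hD⟩ := Y258.WQ.mainDOWNG p E c K hmp
  have hD' : Dn p E N ι := hD
  obtain ⟨Q, hQ, hqQ⟩ := exists_above (K := N) q hq
  obtain ⟨s, Y, hs0, hY, hF, hn⟩ := prepq hp q hq.ne_zero hx h hv
  have hdd := dd_eq hcard hq Q hQ hqQ hs0 hY hn
  have hPτ : ∀ τ : K →+* N, (Q.comap (RingOfIntegers.mapRingHom τ)).IsPrime := fun τ => hQ.comap _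
  have hqτ : ∀ τ : K →+* N, ((q : ℕ) : 𝓞 K) ∈ Q.comap (RingOfIntegers.mapRingHom τ) := by
    intro τ
    rw [Ideal.mem_comap, map_natCast]
    exact hqQ
  have hdiv : ∀ (τ : K →+* N) (i : Fin 3), (∃ v ∈ Ab q K,
      v.asIdeal = Q.comap (RingOfIntegers.mapRingHom τ) ∧
      (Dv x i v ↔ RingOfIntegers.mapRingHom τ (Y i) ∈ Q)) := by
    intro τ i
    have h0 : Q.comap (RingOfIntegers.mapRingHom τ) ≠ ⊥ := by
      intro h0
      have h1 := hqτ τ
      rw [h0, Ideal.mem_bot, Nat.cast_eq_zero] at h1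
      exact hq.ne_zero h1
    refine ⟨⟨_, hPτ τ, h0⟩, hqτ τ, rfl, ?_⟩
    exact (mem_iff_lt hs0 hY _ (hn _ (hPτ τ) (hqτ τ)) i).symm
  refine ⟨?_, ?_, ?_, ?_, ?_, ?_⟩
  · intro i j k hij hik hjk hg
    have h1 := trace_cong c ι hD' hcard hp2 q hqp hW Q hQ hqQ (sol_ijk hF hij hik hjk)
      (locQ_of_good hp hp2 hq hx hs0 hY hF hn hij hik hjk hg)
    rw [← hdd, ← hdd] at h1
    have e : ((Y j : 𝓞 K) : K) / ((Y k : 𝓞 K) : K) = x j / x k := by
      have e1 : ((Y j : 𝓞 K) : K) = s * x j := hY j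
      have e2 : ((Y k : 𝓞 K) : K) = s * x k := hY k
      rw [e1, e2, mul_div_mul_left _ _ hs0]
    rw [e] at h1
    exact h1
  · intro hreg i j k hij hik hjk hg
    have h5 : 2 * Module.finrank ℚ K + 3 ≤ p := by
      rcases hreg with h | h
      · exact h.1
      · have e : 2 ≤ ((irr p).card + 1) * ((irr p).card + 2) := by
          nlinarith [(irr p).card.zero_le]
        have := Nat.mul_le_mul_left (Module.finrank ℚ K) e
        omega
    have hreg' : (∀ j, Odd j → 3 ≤ j → j < 2 * Module.finrank ℚ K → Reg p j) ∨ PalK p K := by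
      rcases hreg with h | h
      · refine Or.inl fun j hj h3j hjm => ?_
        apply reg_of Y61.WQ.mainBER j hj h3j (by omega)
        intro hk
        have := h.2 _ hk
        omega
      · exact Or.inr (palK aUNITA Y261.WQ.main Y919.WQ.mainLAMA Y290.WQ.mainNORM
          (Y510.WQ.mainPOLBA Y275.WQ.mainCOREA)
          (Y590.WQ.mainPOLE Y780.WQ.mainPOLE1 Y286.WQ.mainPOLE2) Y61.WQ.mainBER c ι hD' hcard
          (Or.inr h))
    have h1 := eq_countq c ι hD' hcard h5 q hqp hW hreg' Q hQ hqQ (sol_ijk hF hij hik hjk)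
      (locQ_of_good hp hp2 hq hx hs0 hY hF hn hij hik hjk hg)
    rw [hdd, hdd]
    exact h1
  · intro hu hc
    obtain ⟨P, hP, hpP⟩ := exists_above (K := K) p hp
    have hP0 : P ≠ ⊥ := by
      rintro rfl
      rw [Ideal.mem_bot, Nat.cast_eq_zero] at hpP
      exact hp.ne_zero hpP
    have hcP : Nat.card (𝓞 K ⧸ P) = p := hc ⟨P, hP, hP0⟩ hpP
    have huP : ∀ P' : Ideal (𝓞 K), P'.IsPrime → ((p : ℕ) : 𝓞 K) ∈ P' → P' = P := by
      intro P' hP' hpP'
      have hP'0 : P' ≠ ⊥ := by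
        rintro rfl
        rw [Ideal.mem_bot, Nat.cast_eq_zero] at hpP'
        exact hp.ne_zero hpP'
      exact congrArg HeightOneSpectrum.asIdeal (hu ⟨P', hP', hP'0⟩ hpP' ⟨P, hP, hP0⟩ hpP)
    choose b hb using fun i => exists_int (p := p) P hP hpP hcP (Y i)
    have hmemP : ∀ u : ℤ, ((u : ℤ) : 𝓞 K) ∈ P ↔ ((u : ℤ) : ZMod p) = 0 := by
      intro u
      rw [ZMod.intCast_zmod_eq_zero_iff_dvd]
      constructor
      · intro h1
        by_contra h2
        exact int_notMem P hP p hp hpP u h2 h1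
      · rintro ⟨t, rfl⟩
        push_cast
        exact P.mul_mem_right _ hpP
    refine ⟨fun i => ((b i : ℤ) : ZMod p), ?_, ?_, ?_⟩
    · intro i hi
      have h1 := (hmemP (b i)).2 hi
      have h2 : Y i ∈ P := by
        have := P.add_mem (hb i) h1
        rwa [sub_add_cancel] at this
      exact (solF_iff.1 hF).2.2 P hP hpP i h2
    · have h1 := lin_p hp P hP hpP hF.eq
      have h2 := (hmemP (b 0 + b 1 + b 2)).1 (by
        have e : ((b 0 + b 1 + b 2 : ℤ) : 𝓞 K) = (Y 0 + Y 1 + Y 2) - (Y 0 - ((b 0 : ℤ) : 𝓞 K)) -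
            (Y 1 - ((b 1 : ℤ) : 𝓞 K)) - (Y 2 - ((b 2 : ℤ) : 𝓞 K)) := by
          push_cast
          ring
        rw [e]
        exact P.sub_mem (P.sub_mem (P.sub_mem h1 (hb 0)) (hb 1)) (hb 2))
      push_cast at h2
      exact h2
    · intro i j k hij hik hjk hg
      have h1 := uniq_rel c ι hD' hcard hp2 q hqp hW Q hQ hqQ P huP (sol_ijk hF hij hik hjk)
        (locQ_of_good hp hp2 hq hx hs0 hY hF hn hij hik hjk hg) (b i) (b j) (hb i) (hb j)
      rw [← hdd, ← hdd] at h1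
      exact h1
  · intro i
    rw [hdd]
    exact card_le hcard _
  · intro i hall
    constructor
    · rw [hdd, ← hcard]
      have e : ∀ τ : K →+* N, RingOfIntegers.mapRingHom τ (Y i) ∈ Q := by
        intro τ
        obtain ⟨v, hv1, -, hv3⟩ := hdiv τ i
        exact hv3.1 (hall v hv1)
      exact Nat.card_congr (Equiv.subtypeUnivEquiv e)
    · intro j hji
      rw [hdd]
      have e : ∀ τ : K →+* N, ¬ RingOfIntegers.mapRingHom τ (Y j) ∈ Q := by
        intro τ hj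
        obtain ⟨v, hv1, -, hv3⟩ := hdiv τ i
        have hi := hv3.1 (hall v hv1)
        exact not_both hp hF _ (hPτ τ) (hn _ (hPτ τ) (hqτ τ)) hji ⟨hj, hi⟩
      have : IsEmpty {τ : K →+* N // RingOfIntegers.mapRingHom τ (Y j) ∈ Q} :=
        ⟨fun τ => e τ.1 τ.2⟩
      exact Nat.card_of_isEmpty
  · intro hall
    have e : ∀ i, DD' q x i = (Finset.univ.filter fun τ : K →+* N =>
        RingOfIntegers.mapRingHom τ (Y i) ∈ Q).card := by
      intro i
      rw [hdd, Nat.card_eq_fintype_card, Fintype.card_subtype]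
    have e2 : ∑ i : Fin 3, DD' q x i = Module.finrank ℚ K := by
      simp_rw [e, Finset.card_filter]
      rw [Finset.sum_comm, ← hcard, Nat.card_eq_fintype_card, ← Finset.card_univ,
        Finset.card_eq_sum_ones]
      refine Finset.sum_congr rfl fun τ _ => ?_
      obtain ⟨v, hv1, hv2, -⟩ := hdiv τ 0
      obtain ⟨i, hi⟩ := hall v hv1
      have hi' : RingOfIntegers.mapRingHom τ (Y i) ∈ Q := by
        have h1 := (mem_iff_lt hs0 hY v (hn _ v.isPrime hv1) i).2 hi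
        rw [hv2] at h1
        exact h1
      rw [Finset.sum_eq_single i]
      · rw [if_pos hi']
      · intro j _ hji
        rw [if_neg]
        intro hj
        exact not_both hp hF _ (hPτ τ) (hn _ (hPτ τ) (hqτ τ)) hji ⟨hj, hi'⟩
      · intro h1
        exact absurd (Finset.mem_univ i) h1
    rw [Fin.sum_univ_three] at e2
    exact e2

end Pool.Agent.H50.FW
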