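import Pool.Agent.H50.FW.Rad2

/-!
# Furtwängler's theorem over number fields: quadratic fields
-/

set_option autoImplicit false

namespace Pool.Agent.H50.FW

open NumberField IsDedekindDomain Polynomial
open Pool.Agent.Y546.WQ Pool.Agent.W71.FS

/-- two primes above `p` in a quadratic field have norm `p` -/
theorem card_of_split {p : ℕ} (hp : p.Prime) {K : Type} [Field K] [NumberField K]
    (hm : Module.finrank ℚ K = 2) {P P' : Ideal (𝓞 K)} (hP : P ∈ above p K)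
    (hP' : P' ∈ above p K) (hne : P ≠ P') : ldeg P = 1 ∧ Nat.card (𝓞 K ⧸ P) = p := by
  classical
  have hn0 : ∀ P ∈ above p K, P ≠ ⊥ := by
    rintro P hP rfl
    have := hP.2
    rw [Ideal.mem_bot, Nat.cast_eq_zero] at this
    exact hp.ne_zero this
  have hpos : ∀ (P : Ideal (𝓞 K)) (hP : P ∈ above p K), 0 < ldeg P := fun P hP =>
    ldeg_pos hp (v := ⟨P, hP.1, hn0 P hP⟩) hP.2
  have h1 := sum_ldeg hp K
  have h2 : ({P, P'} : Finset (Ideal (𝓞 K))) ⊆ aboveF hp K := by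
    intro W hW
    rw [Finset.mem_insert, Finset.mem_singleton] at hW
    rw [mem_aboveF]
    rcases hW with rfl | rfl
    · exact hP
    · exact hP'
  have h3 : ∑ W ∈ ({P, P'} : Finset (Ideal (𝓞 K))), ldeg W ≤ ∑ W ∈ aboveF hp K, ldeg W :=
    Finset.sum_le_sum_of_subset h2
  rw [Finset.sum_pair hne, h1, hm] at h3
  have h4 := hpos P hP
  have h5 := hpos P' hP'
  have h6 : ldeg P = 1 := by omega
  refine ⟨h6, ?_⟩
  have h7 : P.inertiaDeg ℤ = 1 := by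
    unfold ldeg at h6
    exact Nat.eq_one_of_mul_eq_one_left h6
  have hPp := hP.1
  have hov := liesOver_of_mem hp P hP.1 hP.2
  have h8 := Ideal.pow_inertiaDeg p P
  rw [h7, pow_one] at h8
  exact h8.symm

section

variable {p : ℕ} [Fact p.Prime] {E : Type} [Field E] [NumberField E]
  {K N : Type} [Field K] [NumberField K] [Field N] [NumberField N]

/-- **Quadratic fields**: the ratio of `X` and `Y` satisfies a quadratic equation modulo `p`, and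
the discriminant of this equation decides if `p` splits -/
theorem mainQuad (c : Cyc p E) (i : E →+* N) (hD : Dn p E N i)
    (hcard : Nat.card (K →+* N) = Module.finrank ℚ K) (hm : Module.finrank ℚ K = 2)
    (hp2 : p ≠ 2) (q : ℕ) [Fact q.Prime]
    (hqp : q ≠ p) (hW : ¬ p ^ 2 ∣ q ^ (p - 1) - 1) (Q : Ideal (𝓞 N)) (hQ : Q.IsPrime)
    (hqQ : ((q : ℕ) : 𝓞 N) ∈ Q) {X Y Z : 𝓞 K} (hs : Sol p K X Y Z) (hs' : Sol p K X Z Y)
    (hl : LocQ q X Y Z) (hl' : LocQ q X Z Y) (a b : ℤ)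
    (ha : a = 2 + (Nat.card {τ : K →+* N // RingOfIntegers.mapRingHom τ X ∈ Q} : ℕ) -
      (Nat.card {τ : K →+* N // RingOfIntegers.mapRingHom τ Y ∈ Q} : ℕ))
    (hb : b = 2 + (Nat.card {τ : K →+* N // RingOfIntegers.mapRingHom τ X ∈ Q} : ℕ) -
      (Nat.card {τ : K →+* N // RingOfIntegers.mapRingHom τ Z ∈ Q} : ℕ)) :
    (∀ P ∈ above p K, ((2 * a : ℤ) : 𝓞 K) * X ^ 2 + ((a * (4 - b) : ℤ) : 𝓞 K) * (X * Y) +
      ((2 * (a + b) - a * b : ℤ) : 𝓞 K) * Y ^ 2 ∈ P) ∧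
    (¬ (p : ℤ) ∣ a → ¬ (p : ℤ) ∣ (a * (4 - b)) ^ 2 - 8 * a * (2 * (a + b) - a * b) →
      (IsSquare (((a * (4 - b)) ^ 2 - 8 * a * (2 * (a + b) - a * b) : ℤ) : ZMod p) →
        ∃ P ∈ above p K, ∃ P' ∈ above p K, P ≠ P') ∧
      (¬ IsSquare (((a * (4 - b)) ^ 2 - 8 * a * (2 * (a + b) - a * b) : ℤ) : ZMod p) →
        ∀ P ∈ above p K, Nat.card (𝓞 K ⧸ P) ≠ p)) := by
  classical
  have hpp : p.Prime := Fact.out
  obtain ⟨R, hRp, hpR⟩ := exists_above (K := N) p hpp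
  have hR0 : R ≠ ⊥ := by
    rintro rfl
    rw [Ideal.mem_bot, Nat.cast_eq_zero] at hpR
    exact hpp.ne_zero hpR
  have hRm : R.IsMaximal := hRp.isMaximal hR0
  let _ : Field (𝓞 N ⧸ R) := Ideal.Quotient.field R
  have hch : CharP (𝓞 N ⧸ R) p := charP_quot R hRp p hpp hpR
  set ψ : 𝓞 N →+* (𝓞 N ⧸ R) := Ideal.Quotient.mk R with hψ
  have h0 : ∀ w : 𝓞 N, ψ w = 0 ↔ w ∈ R := fun w => Ideal.Quotient.eq_zero_iff_mem
  have hPτ : ∀ τ : K →+* N, (R.comap (RingOfIntegers.mapRingHom τ)).IsPrime :=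
    fun τ => hRp.comap _
  have hpτ : ∀ τ : K →+* N, ((p : ℕ) : 𝓞 K) ∈ R.comap (RingOfIntegers.mapRingHom τ) := by
    intro τ
    rw [Ideal.mem_comap, map_natCast]
    exact hpR
  have hlin : ∀ τ : K →+* N, ψ (RingOfIntegers.mapRingHom τ X) +
      ψ (RingOfIntegers.mapRingHom τ Y) + ψ (RingOfIntegers.mapRingHom τ Z) = 0 := by
    intro τ
    rw [← map_add, ← map_add, ← map_add, ← map_add, h0]
    exact lin_p hpp _ (hPτ τ) (hpτ τ) hs.eq
  have hYn : ∀ τ : K →+* N, ψ (RingOfIntegers.mapRingHom τ Y) ≠ 0 := fun τ h =>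
    (hs.cp _ (hPτ τ) (hpτ τ)).2.1 ((h0 _).1 h)
  have hZn : ∀ τ : K →+* N, ψ (RingOfIntegers.mapRingHom τ Z) ≠ 0 := fun τ h =>
    (hs.cp _ (hPτ τ) (hpτ τ)).2.2 ((h0 _).1 h)
  have hXY : ∀ τ : K →+* N, ψ (RingOfIntegers.mapRingHom τ X) +
      ψ (RingOfIntegers.mapRingHom τ Y) ≠ 0 := by
    intro τ h
    apply hZn τ
    linear_combination hlin τ - h
  have hXZ : ∀ τ : K →+* N, ψ (RingOfIntegers.mapRingHom τ X) +
      ψ (RingOfIntegers.mapRingHom τ Z) ≠ 0 := by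
    intro τ h
    apply hYn τ
    linear_combination hlin τ - h
  have s1 := sum_res c i hD hcard hp2 q hqp hW Q hQ hqQ hs hl ψ hXY
  have s2 := sum_res c i hD hcard hp2 q hqp hW Q hQ hqQ hs' hl' ψ hXZ
  have ha' : ((a : ℤ) : 𝓞 N ⧸ R) = (Module.finrank ℚ K : 𝓞 N ⧸ R) +
      (Nat.card {τ : K →+* N // RingOfIntegers.mapRingHom τ X ∈ Q} : ℕ) -
      (Nat.card {τ : K →+* N // RingOfIntegers.mapRingHom τ Y ∈ Q} : ℕ) := by
    rw [ha, hm]
    push_cast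
    rfl
  have hb' : ((b : ℤ) : 𝓞 N ⧸ R) = (Module.finrank ℚ K : 𝓞 N ⧸ R) +
      (Nat.card {τ : K →+* N // RingOfIntegers.mapRingHom τ X ∈ Q} : ℕ) -
      (Nat.card {τ : K →+* N // RingOfIntegers.mapRingHom τ Z ∈ Q} : ℕ) := by
    rw [hb, hm]
    push_cast
    rfl
  rw [← ha'] at s1
  rw [← hb'] at s2
  have hn2 : (2 : 𝓞 N ⧸ R) ≠ 0 := by
    intro h
    have h3 : ((2 : ℕ) : 𝓞 N ⧸ R) = 0 := by exact_mod_cast h
    have h4 := (CharP.cast_eq_zero_iff (𝓞 N ⧸ R) p 2).1 h3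
    exact hp2 ((Nat.prime_dvd_prime_iff_eq hpp Nat.prime_two).1 h4)
  -- the two embeddings
  have hcard' : (Finset.univ : Finset (K →+* N)).card = 2 := by
    rw [← hm, ← hcard, Nat.card_eq_fintype_card, Finset.card_univ]
  obtain ⟨τ1, τ2, hτ12, hτ⟩ := Finset.card_eq_two.1 hcard'
  set t : (K →+* N) → 𝓞 N ⧸ R := fun τ => ψ (RingOfIntegers.mapRingHom τ X) /
    ψ (RingOfIntegers.mapRingHom τ Y) with ht
  have htv : ∀ τ, t τ = ψ (RingOfIntegers.mapRingHom τ X) /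
    ψ (RingOfIntegers.mapRingHom τ Y) := fun τ => rfl
  have ht1 : ∀ τ, 1 + t τ ≠ 0 := fun τ h => by
    apply hXY τ
    have := hYn τ
    rw [htv] at h
    field_simp at h
    linear_combination h
  have e1 : ∀ τ : K →+* N, ψ (RingOfIntegers.mapRingHom τ Y) /
      (ψ (RingOfIntegers.mapRingHom τ X) + ψ (RingOfIntegers.mapRingHom τ Y)) =
      1 / (1 + t τ) := by
    intro τ
    have h5 := hYn τ
    have h6 := hXY τ
    have h7 : 1 + t τ =
        (ψ (RingOfIntegers.mapRingHom τ X) + ψ (RingOfIntegers.mapRingHom τ Y)) /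
          ψ (RingOfIntegers.mapRingHom τ Y) := by
      rw [htv]
      field_simp
      ring
    rw [h7, one_div_div]
  have e2 : ∀ τ : K →+* N, ψ (RingOfIntegers.mapRingHom τ Z) /
      (ψ (RingOfIntegers.mapRingHom τ X) + ψ (RingOfIntegers.mapRingHom τ Z)) =
      1 + t τ := by
    intro τ
    have e1 : ψ (RingOfIntegers.mapRingHom τ X) + ψ (RingOfIntegers.mapRingHom τ Z) =
        -ψ (RingOfIntegers.mapRingHom τ Y) := by linear_combination hlin τ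
    have e2 : ψ (RingOfIntegers.mapRingHom τ Z) = -ψ (RingOfIntegers.mapRingHom τ X) -
        ψ (RingOfIntegers.mapRingHom τ Y) := by linear_combination hlin τ
    rw [e1, e2, htv]
    have := hYn τ
    field_simp
    ring
  have hsum2 : ∀ g : (K →+* N) → 𝓞 N ⧸ R, ∑ τ : K →+* N, g τ = g τ1 + g τ2 := by
    intro g
    rw [hτ, Finset.sum_pair hτ12]
  rw [Finset.sum_congr rfl fun τ _ => e1 τ, hsum2] at s1
  rw [Finset.sum_congr rfl fun τ _ => e2 τ, hsum2] at s2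
  have hA1 := ht1 τ1
  have hA2 := ht1 τ2
  field_simp at s1
  -- the quadratic equation
  have hq1 : 2 * (a : 𝓞 N ⧸ R) * t τ1 ^ 2 + a * (4 - b) * t τ1 + (2 * (a + b) - a * b) = 0 := by
    linear_combination 2 * s1 + (a * t τ1 + a - 2) * s2
  have hq2 : 2 * (a : 𝓞 N ⧸ R) * t τ2 ^ 2 + a * (4 - b) * t τ2 + (2 * (a + b) - a * b) = 0 := by
    linear_combination 2 * s1 + (a * t τ2 + a - 2) * s2
  have hq : ∀ τ : K →+* N,
      2 * (a : 𝓞 N ⧸ R) * t τ ^ 2 + a * (4 - b) * t τ + (2 * (a + b) - a * b) = 0 := by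
    intro τ
    have h5 := Finset.mem_univ τ
    rw [hτ, Finset.mem_insert, Finset.mem_singleton] at h5
    rcases h5 with rfl | rfl
    · exact hq1
    · exact hq2
  have hex : ∀ P ∈ above p K, ∃ τ : K →+* N, R.comap (RingOfIntegers.mapRingHom τ) = P := by
    intro P hP
    have h5 := card_emb hcard hpp R hRp hpR P hP.1 hP.2
    have h6 : 0 < ldeg P := by
      have hP0 : P ≠ ⊥ := by
        rintro rfl
        have := hP.2
        rw [Ideal.mem_bot, Nat.cast_eq_zero] at this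
        exact hpp.ne_zero this
      exact ldeg_pos hpp (v := ⟨P, hP.1, hP0⟩) hP.2
    rw [← h5] at h6
    obtain ⟨⟨τ, hτ⟩⟩ := (Nat.card_pos_iff.1 h6).1
    exact ⟨τ, hτ⟩
  have hmemP : ∀ P ∈ above p K, ((2 * a : ℤ) : 𝓞 K) * X ^ 2 +
      ((a * (4 - b) : ℤ) : 𝓞 K) * (X * Y) +
      ((2 * (a + b) - a * b : ℤ) : 𝓞 K) * Y ^ 2 ∈ P := by
    intro P hP
    obtain ⟨τ, hτP⟩ := hex P hP
    rw [← hτP, Ideal.mem_comap, ← h0]
    simp only [map_add, map_mul, map_pow, map_intCast]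
    have h5 := hq τ
    have h6 := hYn τ
    rw [htv] at h5
    push_cast
    field_simp at h5
    linear_combination h5
  refine ⟨hmemP, fun hpa hpD => ⟨?_, ?_⟩⟩
  rotate_left
  · intro hnsq P hP hcP
    apply hnsq
    have hPp := hP.1
    obtain ⟨u, hu⟩ := exists_int (p := p) P hPp hP.2 hcP X
    obtain ⟨w, hw⟩ := exists_int (p := p) P hPp hP.2 hcP Y
    have hwp : ((w : ℤ) : ZMod p) ≠ 0 := by
      intro h
      obtain ⟨k, hk⟩ := (ZMod.intCast_zmod_eq_zero_iff_dvd _ p).1 h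
      apply (hs.cp P hPp hP.2).2.1
      have h5 : ((w : ℤ) : 𝓞 K) ∈ P := by
        rw [hk]
        push_cast
        exact P.mul_mem_right _ hP.2
      have := P.add_mem hw h5
      rwa [sub_add_cancel] at this
    have h5 : (((2 * a) * u ^ 2 + (a * (4 - b)) * (u * w) + (2 * (a + b) - a * b) * w ^ 2 : ℤ) :
        𝓞 K) ∈ P := by
      have e : (((2 * a) * u ^ 2 + (a * (4 - b)) * (u * w) + (2 * (a + b) - a * b) * w ^ 2 : ℤ) :
          𝓞 K) = (((2 * a : ℤ) : 𝓞 K) * X ^ 2 + ((a * (4 - b) : ℤ) : 𝓞 K) * (X * Y) +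
            ((2 * (a + b) - a * b : ℤ) : 𝓞 K) * Y ^ 2) -
          (X - ((u : ℤ) : 𝓞 K)) * (((2 * a : ℤ) : 𝓞 K) * (X + ((u : ℤ) : 𝓞 K)) +
            ((a * (4 - b) : ℤ) : 𝓞 K) * Y) -
          (Y - ((w : ℤ) : 𝓞 K)) * (((2 * (a + b) - a * b : ℤ) : 𝓞 K) * (Y + ((w : ℤ) : 𝓞 K)) +
            ((a * (4 - b) : ℤ) : 𝓞 K) * ((u : ℤ) : 𝓞 K)) := by
        push_cast
        ring
      rw [e]
      exact P.sub_mem (P.sub_mem (hmemP P hP) (P.mul_mem_right _ hu)) (P.mul_mem_right _ hw)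
    have h6 : (((2 * a) * u ^ 2 + (a * (4 - b)) * (u * w) + (2 * (a + b) - a * b) * w ^ 2 : ℤ) :
        ZMod p) = 0 := by
      rw [ZMod.intCast_zmod_eq_zero_iff_dvd]
      by_contra h7
      exact int_notMem P hPp p hpp hP.2 _ h7 h5
    push_cast at h6
    refine ⟨(4 * a * u + a * (4 - b) * w) / w, ?_⟩
    push_cast
    field_simp
    linear_combination -8 * (a : ZMod p) * h6
  · rintro ⟨d, hd⟩
    by_contra hcon
    push Not at hcon
    have hP1 : R.comap (RingOfIntegers.mapRingHom τ1) ∈ above p K := ⟨hPτ τ1, hpτ τ1⟩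
    have hP2 : R.comap (RingOfIntegers.mapRingHom τ2) ∈ above p K := ⟨hPτ τ2, hpτ τ2⟩
    have heq := hcon _ hP1 _ hP2
    have hdz : ((d.val : ℤ) : ZMod p) = d := by
      rw [Int.cast_natCast, ZMod.natCast_zmod_val]
    have hgp : ∀ u : ℤ, ((u : ℤ) : ZMod p) = 0 →
        ((u : ℤ) : 𝓞 K) ∈ R.comap (RingOfIntegers.mapRingHom τ1) := by
      intro u hu
      obtain ⟨w, rfl⟩ := (ZMod.intCast_zmod_eq_zero_iff_dvd _ p).1 hu
      push_cast
      exact Ideal.mul_mem_right _ _ (hpτ τ1)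
    have h5 : (((4 * a : ℤ) : 𝓞 K) * X + ((a * (4 - b) - d.val : ℤ) : 𝓞 K) * Y) *
        (((4 * a : ℤ) : 𝓞 K) * X + ((a * (4 - b) + d.val : ℤ) : 𝓞 K) * Y) ∈
        R.comap (RingOfIntegers.mapRingHom τ1) := by
      have e : (((4 * a : ℤ) : 𝓞 K) * X + ((a * (4 - b) - d.val : ℤ) : 𝓞 K) * Y) *
        (((4 * a : ℤ) : 𝓞 K) * X + ((a * (4 - b) + d.val : ℤ) : 𝓞 K) * Y) =
          ((8 * a : ℤ) : 𝓞 K) * (((2 * a : ℤ) : 𝓞 K) * X ^ 2 +
            ((a * (4 - b) : ℤ) : 𝓞 K) * (X * Y) +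
            ((2 * (a + b) - a * b : ℤ) : 𝓞 K) * Y ^ 2) +
          ((((a * (4 - b)) ^ 2 - 8 * a * (2 * (a + b) - a * b) : ℤ) - (d.val : ℤ) * d.val : ℤ) :
            𝓞 K) * Y ^ 2 := by
        push_cast
        ring
      rw [e]
      refine Ideal.add_mem _ (Ideal.mul_mem_left _ _ (hmemP _ hP1))
        (Ideal.mul_mem_right _ _ (hgp _ ?_))
      rw [Int.cast_sub, hd, Int.cast_mul, hdz, sub_self]
    have hval : ∃ u : ℤ, ((4 * a : ℤ) : 𝓞 K) * X + ((u : ℤ) : 𝓞 K) * Y ∈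
        R.comap (RingOfIntegers.mapRingHom τ1) := by
      rcases (hPτ τ1).mem_or_mem h5 with h6 | h6
      · exact ⟨_, h6⟩
      · exact ⟨_, h6⟩
    obtain ⟨u, hu⟩ := hval
    have hu2 : ((4 * a : ℤ) : 𝓞 K) * X + ((u : ℤ) : 𝓞 K) * Y ∈
        R.comap (RingOfIntegers.mapRingHom τ2) := by
      rw [← heq]
      exact hu
    have hcalc : ∀ τ : K →+* N, ((4 * a : ℤ) : 𝓞 K) * X + ((u : ℤ) : 𝓞 K) * Y ∈
        R.comap (RingOfIntegers.mapRingHom τ) → 4 * (a : 𝓞 N ⧸ R) * t τ =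
          -((u : ℤ) : 𝓞 N ⧸ R) := by
      intro τ hτ
      rw [Ideal.mem_comap, ← h0] at hτ
      simp only [map_add, map_mul, map_intCast] at hτ
      push_cast at hτ
      have h6 := hYn τ
      rw [htv]
      field_simp
      linear_combination hτ
    have haL : ((a : ℤ) : 𝓞 N ⧸ R) ≠ 0 := fun h =>
      hpa ((CharP.intCast_eq_zero_iff (𝓞 N ⧸ R) p a).1 h)
    have ht12 : t τ1 = t τ2 := by
      apply mul_left_cancel₀ (mul_ne_zero (mul_ne_zero hn2 hn2) haL)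
      linear_combination hcalc τ1 hu - hcalc τ2 hu2
    apply hpD
    rw [← CharP.intCast_eq_zero_iff (𝓞 N ⧸ R) p]
    push_cast
    rw [← ht12] at s2
    have hb4 : (4 : 𝓞 N ⧸ R) - b = -4 * t τ1 := by linear_combination s2
    rw [hb4] at hq1 ⊢
    linear_combination -8 * (a : 𝓞 N ⧸ R) * hq1

end

end Pool.Agent.H50.FW
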