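import Pool.Agent.H50.FW.Last
import Pool.Agent.H50.FW.Quad

/-!
# Furtwängler's theorem over number fields: solutions, without conditions on Bernoulli numbers
-/

set_option autoImplicit false

namespace Pool.Agent.H50.FW

open NumberField IsDedekindDomain Polynomial
open Pool.Agent.Y546.WQ Pool.Agent.W71.FS

section

variable {K : Type} [Field K] [NumberField K]

/-- the third index -/
theorem exists_two (i : Fin 3) : ∃ j k : Fin 3, i ≠ j ∧ i ≠ k ∧ j ≠ k := by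
  revert i
  decide

/-- **The second main theorem** -/
theorem mainG {p q : ℕ} (hp : p.Prime) (hp2 : p ≠ 2)
    (hmp : Module.finrank ℚ K < p) (hq : q.Prime) (hqp : q ≠ p)
    (hW : ¬ p ^ 2 ∣ q ^ (p - 1) - 1) {x : Fin 3 → K} (hx : ∀ i, x i ≠ 0)
    (h : x 0 ^ p + x 1 ^ p + x 2 ^ p = 0)
    (hv : ∀ v : HeightOneSpectrum (𝓞 K), ((p : ℕ) : 𝓞 K) ∈ v.asIdeal →
      ∀ i j, v.valuation K (x i) = v.valuation K (x j)) :
    (Nat.card (𝓞 K ⧸ (Ideal.span {((p : ℕ) : 𝓞 K)}).radical) ≤ p ^ 2 →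
      ∀ i, ¬ ∀ v ∈ Ab q K, Dv x i v) ∧
    (Nat.card (𝓞 K ⧸ (Ideal.span {((p : ℕ) : 𝓞 K)}).radical) ≤ p ^ 2 → p ≠ 3 →
      (∀ i j, DD' q x i = DD' q x j) →
      (∀ i j k : Fin 3, i ≠ j → i ≠ k → j ≠ k → GoodV p q x i j k) →
      Even (Module.finrank ℚ K) ∧
      (∀ v ∈ Ab p K, v.valuation K ((x 0 / x 1) ^ 2 + x 0 / x 1 + 1) < 1) ∧
      (p % 3 = 1 → ∃ v ∈ Ab p K, ∃ w ∈ Ab p K, v ≠ w) ∧
      (p % 3 = 2 → ∀ v ∈ Ab p K, Nat.card (𝓞 K ⧸ v.asIdeal) ≠ p)) ∧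
    (Module.finrank ℚ K = 2 → ∀ i j k : Fin 3, i ≠ j → i ≠ k → j ≠ k →
      GoodV p q x i j k → GoodV p q x i k j → ∀ a b : ℤ, a = 2 + DD' q x i - DD' q x j →
      b = 2 + DD' q x i - DD' q x k →
      (∀ v ∈ Ab p K, v.valuation K (2 * (a : K) * (x i / x j) ^ 2 +
        (a : K) * (4 - b) * (x i / x j) + (2 * (a + b) - a * b)) < 1) ∧
      (¬ (p : ℤ) ∣ a → ¬ (p : ℤ) ∣ (a * (4 - b)) ^ 2 - 8 * a * (2 * (a + b) - a * b) →
        (IsSquare (((a * (4 - b)) ^ 2 - 8 * a * (2 * (a + b) - a * b) : ℤ) : ZMod p) →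
          ∃ v ∈ Ab p K, ∃ w ∈ Ab p K, v ≠ w) ∧
        (¬ IsSquare (((a * (4 - b)) ^ 2 - 8 * a * (2 * (a + b) - a * b) : ℤ) : ZMod p) →
          ∀ v ∈ Ab p K, Nat.card (𝓞 K ⧸ v.asIdeal) ≠ p))) := by
  classical
  have hfact : Fact p.Prime := ⟨hp⟩
  have hfq : Fact q.Prime := ⟨hq⟩
  have hm := Module.finrank_pos (R := ℚ) (M := K)
  obtain ⟨E, _, _, ⟨c⟩⟩ := Y978.WQ.main p hp2
  obtain ⟨N, _, _, ι, hcard, hD⟩ := Y258.WQ.mainDOWNG p E c K hmp
  have hD' : Dn p E N ι := hD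
  obtain ⟨Q, hQ, hqQ⟩ := exists_above (K := N) q hq
  obtain ⟨s, Y, hs0, hY, hF, hn⟩ := prepq hp q hq.ne_zero hx h hv
  have hdd := dd_eq hcard hq Q hQ hqQ hs0 hY hn
  have hab : ∀ P ∈ above p K, ∃ h0 : P ≠ ⊥, ∃ h1 : P.IsPrime,
      (⟨P, h1, h0⟩ : HeightOneSpectrum (𝓞 K)) ∈ Ab p K := by
    intro P hP
    have hP0 : P ≠ ⊥ := by
      rintro rfl
      have := hP.2
      rw [Ideal.mem_bot, Nat.cast_eq_zero] at this
      exact hp.ne_zero this
    exact ⟨hP0, hP.1, hP.2⟩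
  have hsplit : (∃ v ∈ Ab p K, ∃ w ∈ Ab p K, v ≠ w) ↔
      (∃ P ∈ above p K, ∃ P' ∈ above p K, P ≠ P') := by
    constructor
    · rintro ⟨v, hv1, w, hw1, hne⟩
      exact ⟨v.asIdeal, ⟨v.isPrime, hv1⟩, w.asIdeal, ⟨w.isPrime, hw1⟩,
        fun h => hne (HeightOneSpectrum.ext h)⟩
    · rintro ⟨P, hP, P', hP', hne⟩
      obtain ⟨h0, h1, h2⟩ := hab P hP
      obtain ⟨h0', h1', h2'⟩ := hab P' hP'
      exact ⟨_, h2, _, h2', fun h => hne (congrArg HeightOneSpectrum.asIdeal h)⟩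
  -- valuations
  have hval : ∀ (i j : Fin 3) (v : HeightOneSpectrum (𝓞 K)), v ∈ Ab p K →
      ∀ a b c : ℤ, ((a : ℤ) : 𝓞 K) * Y i ^ 2 + ((b : ℤ) : 𝓞 K) * (Y i * Y j) +
        ((c : ℤ) : 𝓞 K) * Y j ^ 2 ∈ v.asIdeal →
      v.valuation K ((a : K) * (x i / x j) ^ 2 + (b : K) * (x i / x j) + (c : K)) < 1 := by
    intro i j v hv' a b c hmem
    have hj : Y j ∉ v.asIdeal := (solF_iff.1 hF).2.2 _ v.isPrime hv' j
    have h1 : v.valuation K (algebraMap (𝓞 K) K (Y j)) = 1 := val_one v (Y j) hj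
    have hYj0 : algebraMap (𝓞 K) K (Y j) ≠ 0 := by
      rw [hY]
      exact mul_ne_zero hs0 (hx j)
    have hratio : x i / x j = algebraMap (𝓞 K) K (Y i) / algebraMap (𝓞 K) K (Y j) := by
      rw [hY, hY, mul_div_mul_left _ _ hs0]
    have h2 := (v.valuation_lt_one_iff_mem (K := K) _).2 hmem
    have e : algebraMap (𝓞 K) K (((a : ℤ) : 𝓞 K) * Y i ^ 2 + ((b : ℤ) : 𝓞 K) * (Y i * Y j) +
        ((c : ℤ) : 𝓞 K) * Y j ^ 2) = algebraMap (𝓞 K) K (Y j) ^ 2 *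
        ((a : K) * (x i / x j) ^ 2 + (b : K) * (x i / x j) + (c : K)) := by
      rw [hratio]
      simp only [map_add, map_mul, map_pow, map_intCast]
      field_simp
    have h3 : v.valuation K (algebraMap (𝓞 K) K (((a : ℤ) : 𝓞 K) * Y i ^ 2 +
        ((b : ℤ) : 𝓞 K) * (Y i * Y j) + ((c : ℤ) : 𝓞 K) * Y j ^ 2)) < 1 := h2
    rw [e, map_mul, map_pow, h1, one_pow, one_mul] at h3
    exact h3
  refine ⟨?_, ?_, ?_⟩
  · intro hR i hall
    obtain ⟨j, k, hij, hik, hjk⟩ := exists_two i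
    have hF' := (mainF hp hp2 hmp hq hqp hW hx h hv).2.2.2.2.1 i hall
    have g1 : GoodV p q x i j k := fun v hv' => Or.inl (hall v hv')
    have g2 : GoodV p q x i k j := fun v hv' => Or.inl (hall v hv')
    refine mainRad c ι hD' hcard hmp hp2 q hqp hW Q hQ hqQ (sol_ijk hF hij hik hjk)
      (sol_ijk hF hik hij hjk.symm)
      (locQ_of_good hp hp2 hq hx hs0 hY hF hn hij hik hjk g1)
      (locQ_of_good hp hp2 hq hx hs0 hY hF hn hik hij hjk.symm g2) ?_ ?_ ?_ hR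
    · rw [← hdd]
      exact hF'.1
    · rw [← hdd]
      exact hF'.2 j hij.symm
    · rw [← hdd]
      exact hF'.2 k hik.symm
  · intro hR hp3 hDD hg
    have h01 : (0 : Fin 3) ≠ 1 := by decide
    have h02 : (0 : Fin 3) ≠ 2 := by decide
    have h12 : (1 : Fin 3) ≠ 2 := by decide
    obtain ⟨k1, k2, k3, k4⟩ := mainRad2 c ι hD' hcard hmp hp2 hp3 q hqp hW Q hQ hqQ
      (sol_ijk hF h01 h02 h12) (sol_ijk hF h02 h01 h12.symm) (sol_ijk hF h12 h01.symm h02.symm)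
      (locQ_of_good hp hp2 hq hx hs0 hY hF hn h01 h02 h12 (hg _ _ _ h01 h02 h12))
      (locQ_of_good hp hp2 hq hx hs0 hY hF hn h02 h01 h12.symm (hg _ _ _ h02 h01 h12.symm))
      (locQ_of_good hp hp2 hq hx hs0 hY hF hn h12 h01.symm h02.symm
        (hg _ _ _ h12 h01.symm h02.symm))
      (by rw [← hdd, ← hdd]; exact hDD 0 1) (by rw [← hdd, ← hdd]; exact hDD 0 2) hR
    refine ⟨k1, fun v hv' => ?_, fun h1 => hsplit.2 ?_, fun h1 v hv' => k4 h1 _ ⟨v.isPrime, hv'⟩⟩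
    · have h3 := hval 0 1 v hv' 1 1 1 (by
        have := k2 _ ⟨v.isPrime, hv'⟩
        simpa using this)
      simpa using h3
    · exact k3 h1
  · intro hm2 i j k hij hik hjk g1 g2 a b ha hb
    obtain ⟨k1, k2⟩ := mainQuad c ι hD' hcard hm2 hp2 q hqp hW Q hQ hqQ (sol_ijk hF hij hik hjk)
      (sol_ijk hF hik hij hjk.symm)
      (locQ_of_good hp hp2 hq hx hs0 hY hF hn hij hik hjk g1)
      (locQ_of_good hp hp2 hq hx hs0 hY hF hn hik hij hjk.symm g2) a b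
      (by rw [← hdd, ← hdd]; exact ha) (by rw [← hdd, ← hdd]; exact hb)
    refine ⟨fun v hv' => ?_, fun h1 h2 => ⟨fun h3 => hsplit.2 ((k2 h1 h2).1 h3),
      fun h3 v hv' => (k2 h1 h2).2 h3 _ ⟨v.isPrime, hv'⟩⟩⟩
    have h3 := hval i j v hv' _ _ _ (k1 _ ⟨v.isPrime, hv'⟩)
    push_cast at h3
    exact h3

/-- all primes above `q` are good if the order of the multiplicative group of the residue field
divides some `q ^ s + 1` -/
theorem good_of {p q : ℕ} (h2 : ∀ v ∈ Ab q K, ¬ p ∣ Nat.card (𝓞 K ⧸ v.asIdeal) - 1 ∧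
      ∃ s : ℕ, Nat.card (𝓞 K ⧸ v.asIdeal) - 1 ∣ q ^ s + 1)
    {x : Fin 3 → K} (hx : ∀ i, x i ≠ 0) (i j k : Fin 3) : GoodV p q x i j k := by
  intro v hv
  obtain ⟨hcp, s, hs⟩ := h2 v hv
  by_cases hk : Dv x k v
  · exact Or.inr (Or.inr (Or.inr (Or.inl ⟨hk, hcp⟩)))
  by_cases hi : Dv x i v
  · exact Or.inl hi
  by_cases hj : Dv x j v
  · exact Or.inr (Or.inl hj)
  -- the ratio is a unit
  refine Or.inr (Or.inr (Or.inr (Or.inr ⟨hk, s, ?_⟩)))
  have heq : v.valuation K (x i) = v.valuation K (x j) := by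
    unfold Dv at hi hj
    push Not at hi hj
    exact le_antisymm (hj i) (hi j)
  have hxj : v.valuation K (x j) ≠ 0 := (Valuation.ne_zero_iff _).2 (hx j)
  have h1 : v.valuation K (x i / x j) = 1 := by
    rw [map_div₀, heq, div_self hxj]
  -- an integral representative
  obtain ⟨u, w, hw, huw⟩ : ∃ u w : 𝓞 K, w ∉ v.asIdeal ∧
      x i / x j * algebraMap (𝓞 K) K w = algebraMap (𝓞 K) K u := by
    obtain ⟨u, w, h2 | h2⟩ := v.exists_primeCompl_mul_eq_or_mul_eq (x i / x j)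
    · exact ⟨u, w, w.2, h2⟩
    · refine ⟨w, u, ?_, h2⟩
      intro hu
      have h3 := congrArg (v.valuation K) h2
      have h4 : v.valuation K (algebraMap (𝓞 K) K (w : 𝓞 K)) = 1 := val_one v _ w.2
      rw [map_mul, h1, one_mul] at h3
      have h5 : v.valuation K (algebraMap (𝓞 K) K u) < 1 :=
        (v.valuation_lt_one_iff_mem (K := K) u).2 hu
      rw [h3] at h5
      exact absurd h5 (by
        rw [not_lt]
        exact h4.ge)
  have hu : u ∉ v.asIdeal := by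
    intro hu
    have h3 := congrArg (v.valuation K) huw
    have h4 : v.valuation K (algebraMap (𝓞 K) K w) = 1 := val_one v _ hw
    have h5 : v.valuation K (algebraMap (𝓞 K) K u) < 1 :=
      (v.valuation_lt_one_iff_mem (K := K) u).2 hu
    rw [map_mul, h1, one_mul] at h3
    rw [← h3, h4] at h5
    exact lt_irrefl _ h5
  have hPm : v.asIdeal.IsMaximal := v.isMaximal
  let _ : Field (𝓞 K ⧸ v.asIdeal) := Ideal.Quotient.field v.asIdeal
  have hfin : Finite (𝓞 K ⧸ v.asIdeal) := Ideal.finiteQuotientOfFreeOfNeBot _ v.ne_bot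
  have hft : Fintype (𝓞 K ⧸ v.asIdeal) := Fintype.ofFinite _
  have hcube : ∀ w : 𝓞 K, w ∉ v.asIdeal →
      (Ideal.Quotient.mk v.asIdeal w) ^ (q ^ s + 1) = 1 := by
    intro w hw
    have hw0 : Ideal.Quotient.mk v.asIdeal w ≠ 0 := fun h =>
      hw (Ideal.Quotient.eq_zero_iff_mem.1 h)
    have h3 := FiniteField.pow_card_sub_one_eq_one _ hw0
    rw [← Nat.card_eq_fintype_card] at h3
    obtain ⟨n, hn⟩ := hs
    rw [hn, pow_mul, h3, one_pow]
  have hmem : u ^ (q ^ s + 1) - w ^ (q ^ s + 1) ∈ v.asIdeal := by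
    rw [← Ideal.Quotient.eq_zero_iff_mem, map_sub, map_pow, map_pow, hcube u hu, hcube w hw,
      sub_self]
  have hw1 : v.valuation K (algebraMap (𝓞 K) K w) = 1 := val_one v _ hw
  have hw0 : algebraMap (𝓞 K) K w ≠ 0 := by
    intro h
    rw [h, map_zero] at hw1
    exact zero_ne_one hw1
  have e : algebraMap (𝓞 K) K (u ^ (q ^ s + 1) - w ^ (q ^ s + 1)) =
      algebraMap (𝓞 K) K w ^ (q ^ s + 1) * ((x i / x j) ^ (q ^ s + 1) - 1) := by
    rw [map_sub, map_pow, map_pow, ← huw]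
    ring
  have h3 : v.valuation K (algebraMap (𝓞 K) K (u ^ (q ^ s + 1) - w ^ (q ^ s + 1))) < 1 :=
    (v.valuation_lt_one_iff_mem (K := K) _).2 hmem
  rw [e, map_mul, map_pow, hw1, one_pow, one_mul] at h3
  exact h3

/-- the primes above two of norm two or four are good -/
theorem good_two {p : ℕ} (h5 : 5 ≤ p)
    (h2 : ∀ v ∈ Ab 2 K, Nat.card (𝓞 K ⧸ v.asIdeal) = 2 ∨ Nat.card (𝓞 K ⧸ v.asIdeal) = 4)
    {x : Fin 3 → K} (hx : ∀ i, x i ≠ 0) (i j k : Fin 3) : GoodV p 2 x i j k := by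
  refine good_of (fun v hv => ?_) hx i j k
  rcases h2 v hv with h | h
  · rw [h]
    refine ⟨fun hd => ?_, 0, by norm_num⟩
    have := Nat.le_of_dvd (by norm_num) hd
    omega
  · rw [h]
    refine ⟨fun hd => ?_, 1, by norm_num⟩
    have := Nat.le_of_dvd (by norm_num) hd
    omega

/-- the primes above three of norm three are good -/
theorem good_three {p : ℕ} (h5 : 3 ≤ p)
    (h2 : ∀ v ∈ Ab 3 K, Nat.card (𝓞 K ⧸ v.asIdeal) = 3)
    {x : Fin 3 → K} (hx : ∀ i, x i ≠ 0) (i j k : Fin 3) : GoodV p 3 x i j k := by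
  refine good_of (fun v hv => ?_) hx i j k
  rw [h2 v hv]
  refine ⟨fun hd => ?_, 0, by norm_num⟩
  have := Nat.le_of_dvd (by norm_num) hd
  omega

end

end Pool.Agent.H50.FW
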