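import Pool.Agent.H50.FW.Last2

/-!
# Furtwängler's theorem over number fields: the prime two
-/

set_option autoImplicit false

namespace Pool.Agent.H50.FW

open NumberField IsDedekindDomain Polynomial
open Pool.Agent.Y546.WQ Pool.Agent.W71.FS

theorem isSquare_mul_sq {F : Type} [Field F] (d s : F) (hs : s ≠ 0) :
    IsSquare (d * s ^ 2) ↔ IsSquare d := by
  constructor
  · rintro ⟨r, hr⟩
    refine ⟨r / s, ?_⟩
    field_simp
    linear_combination hr
  · rintro ⟨r, hr⟩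
    exact ⟨r * s, by rw [hr]; ring⟩

section

variable {K : Type} [Field K] [NumberField K]

/-- a prime above two of norm two divides a coordinate -/
theorem div_two {p : ℕ} (hp : p.Prime) {x : Fin 3 → K} (hx : ∀ i, x i ≠ 0)
    (h : x 0 ^ p + x 1 ^ p + x 2 ^ p = 0)
    (hv : ∀ v : HeightOneSpectrum (𝓞 K), ((p : ℕ) : 𝓞 K) ∈ v.asIdeal →
      ∀ i j, v.valuation K (x i) = v.valuation K (x j)) (v : HeightOneSpectrum (𝓞 K))
    (hv2 : v ∈ Ab 2 K) (hc : Nat.card (𝓞 K ⧸ v.asIdeal) = 2) : ∃ i, Dv x i v := by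
  obtain ⟨s, Y, hs0, hY, hF, hn⟩ := prepq hp 2 two_ne_zero hx h hv
  have hmem := mem_iff_lt hs0 hY v (hn v.asIdeal v.isPrime hv2)
  by_contra hcon
  push Not at hcon
  have h1 : ∀ i, Y i - 1 ∈ v.asIdeal := fun i =>
    (Y67.WQ.two_el v.asIdeal hc (Y i)).resolve_left fun hi => hcon i ((hmem i).1 hi)
  have h2 : ∀ i, Y i ^ p - 1 ∈ v.asIdeal := by
    intro i
    have h3 : Y i - 1 ∣ Y i ^ p - 1 ^ p := sub_dvd_pow_sub_pow _ _ _
    rw [one_pow] at h3
    obtain ⟨d, hd⟩ := h3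
    rw [hd]
    exact v.asIdeal.mul_mem_right _ (h1 i)
  have h4 : (2 : 𝓞 K) ∈ v.asIdeal := by
    have : ((2 : ℕ) : 𝓞 K) ∈ v.asIdeal := hv2
    exact_mod_cast this
  apply one_notMem v.asIdeal v.isPrime
  have e : (1 : 𝓞 K) = (Y 0 ^ p + Y 1 ^ p + Y 2 ^ p) - (Y 0 ^ p - 1) - (Y 1 ^ p - 1) -
      (Y 2 ^ p - 1) - 2 := by ring
  rw [e, hF.eq]
  exact v.asIdeal.sub_mem (v.asIdeal.sub_mem (v.asIdeal.sub_mem (v.asIdeal.sub_mem
    (zero_mem _) (h2 0)) (h2 1)) (h2 2)) h4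

/-- the degree of a nonempty set is positive -/
theorem dd_pos {q : ℕ} (hq : q.Prime) {x : Fin 3 → K} {i : Fin 3}
    {v : HeightOneSpectrum (𝓞 K)} (hv : v ∈ Ab q K) (hi : Dv x i v) : 0 < DD' q x i := by
  have hfin : {v | v ∈ Ab q K ∧ Dv x i v}.Finite :=
    (ab_finite hq K).subset fun v hv => hv.1
  unfold DD'
  rw [finsum_mem_eq_finite_toFinset_sum _ hfin]
  refine Finset.sum_pos (fun w hw => ?_) ⟨v, ?_⟩
  · rw [Set.Finite.mem_toFinset] at hw
    exact ldeg_pos hq hw.1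
  · rw [Set.Finite.mem_toFinset]
    exact ⟨hv, hi⟩

theorem dd_zero {q : ℕ} {x : Fin 3 → K} {i : Fin 3}
    (h : ∀ v ∈ Ab q K, ¬ Dv x i v) : DD' q x i = 0 := by
  have e : {v | v ∈ Ab q K ∧ Dv x i v} = ∅ := by
    rw [Set.eq_empty_iff_forall_notMem]
    rintro v ⟨h1, h2⟩
    exact h v h1 h2
  unfold DD'
  rw [e, finsum_mem_empty]

theorem sum_ijk (f : Fin 3 → ℕ) {i j k : Fin 3} (hij : i ≠ j) (hik : i ≠ k) (hjk : j ≠ k) :
    f i + f j + f k = f 0 + f 1 + f 2 := by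
  obtain ⟨σ, rfl, rfl, rfl⟩ := exists_perm hij hik hjk
  have h := Equiv.sum_comp σ f
  rw [Fin.sum_univ_three, Fin.sum_univ_three] at h
  exact h

/-- the local degree in a quadratic field -/
theorem card_quad {q : ℕ} (hq : q.Prime) (hm : Module.finrank ℚ K = 2)
    (v : HeightOneSpectrum (𝓞 K)) (hv : v ∈ Ab q K) :
    Nat.card (𝓞 K ⧸ v.asIdeal) = q ∨ Nat.card (𝓞 K ⧸ v.asIdeal) = q ^ 2 := by
  classical
  have h1 := sum_ldeg hq K
  have h2 : v.asIdeal ∈ aboveF hq K := by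
    rw [mem_aboveF]
    exact ⟨v.isPrime, hv⟩
  have h3 : ldeg v.asIdeal ≤ 2 := by
    rw [← hm, ← h1]
    exact Finset.single_le_sum (f := ldeg) (fun _ _ => Nat.zero_le _) h2
  have hPp := v.isPrime
  have hov := liesOver_of_mem hq v.asIdeal v.isPrime hv
  have hr := v.asIdeal.ramificationIdx_pos ℤ
  have hf := v.asIdeal.inertiaDeg_pos ℤ
  have h8 := Ideal.pow_inertiaDeg q v.asIdeal
  have h4 : v.asIdeal.inertiaDeg ℤ ≤ 2 := by
    unfold ldeg at h3
    calc v.asIdeal.inertiaDeg ℤ = 1 * v.asIdeal.inertiaDeg ℤ := (one_mul _).symm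
      _ ≤ v.asIdeal.ramificationIdx ℤ * v.asIdeal.inertiaDeg ℤ := Nat.mul_le_mul_right _ hr
      _ ≤ 2 := h3
  have h9 : Nat.card (𝓞 K ⧸ v.asIdeal) = q ^ v.asIdeal.inertiaDeg ℤ := h8.symm
  have h5 : v.asIdeal.inertiaDeg ℤ = 1 ∨ v.asIdeal.inertiaDeg ℤ = 2 := by omega
  rcases h5 with h5 | h5
  · left
    rw [h9, h5, pow_one]
  · right
    rw [h9, h5]

/-- at most two primes above `q` in a quadratic field -/
theorem split_two {q : ℕ} (hq : q.Prime) (hm : Module.finrank ℚ K = 2)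
    {v w : HeightOneSpectrum (𝓞 K)} (hv : v ∈ Ab q K) (hw : w ∈ Ab q K) (hne : v ≠ w)
    (u : HeightOneSpectrum (𝓞 K)) (hu : u ∈ Ab q K) : u = v ∨ u = w := by
  classical
  by_contra hcon
  push Not at hcon
  have h1 := sum_ldeg hq K
  have hne' : v.asIdeal ≠ w.asIdeal := fun h => hne (HeightOneSpectrum.ext h)
  have huv : u.asIdeal ≠ v.asIdeal := fun h => hcon.1 (HeightOneSpectrum.ext h)
  have huw : u.asIdeal ≠ w.asIdeal := fun h => hcon.2 (HeightOneSpectrum.ext h)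
  have h2 : ({u.asIdeal, v.asIdeal, w.asIdeal} : Finset (Ideal (𝓞 K))) ⊆ aboveF hq K := by
    intro W hW
    rw [Finset.mem_insert, Finset.mem_insert, Finset.mem_singleton] at hW
    rw [mem_aboveF]
    rcases hW with rfl | rfl | rfl
    · exact ⟨u.isPrime, hu⟩
    · exact ⟨v.isPrime, hv⟩
    · exact ⟨w.isPrime, hw⟩
  have h3 : ∑ W ∈ ({u.asIdeal, v.asIdeal, w.asIdeal} : Finset (Ideal (𝓞 K))), ldeg W ≤
      ∑ W ∈ aboveF hq K, ldeg W := Finset.sum_le_sum_of_subset h2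
  rw [Finset.sum_insert (by
    rw [Finset.mem_insert, Finset.mem_singleton]
    push Not
    exact ⟨huv, huw⟩), Finset.sum_pair hne', h1, hm] at h3
  have h4 := ldeg_pos hq hv
  have h5 := ldeg_pos hq hw
  have h6 := ldeg_pos hq hu
  omega

/-- **Quadratic fields, the prime two** -/
theorem quadTwo {p : ℕ} (hp : p.Prime) (h7 : 7 ≤ p) (hm : Module.finrank ℚ K = 2)
    (hW : ¬ p ^ 2 ∣ 2 ^ (p - 1) - 1) {x : Fin 3 → K} (hx : ∀ i, x i ≠ 0)
    (h : x 0 ^ p + x 1 ^ p + x 2 ^ p = 0)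
    (hv : ∀ v : HeightOneSpectrum (𝓞 K), ((p : ℕ) : 𝓞 K) ∈ v.asIdeal →
      ∀ i j, v.valuation K (x i) = v.valuation K (x j)) :
    ((∀ v ∈ Ab 2 K, ∀ w ∈ Ab 2 K, v = w) ∧ (∀ v ∈ Ab 2 K, Nat.card (𝓞 K ⧸ v.asIdeal) = 4) ∧
      (IsSquare (-3 : ZMod p) → ∃ v ∈ Ab p K, ∃ w ∈ Ab p K, v ≠ w) ∧
      (¬ IsSquare (-3 : ZMod p) → ∀ v ∈ Ab p K, Nat.card (𝓞 K ⧸ v.asIdeal) ≠ p)) ∨
    ((∃ v ∈ Ab 2 K, ∃ w ∈ Ab 2 K, v ≠ w) ∧
      (IsSquare (-15 : ZMod p) → ∃ v ∈ Ab p K, ∃ w ∈ Ab p K, v ≠ w) ∧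
      (¬ IsSquare (-15 : ZMod p) → ∀ v ∈ Ab p K, Nat.card (𝓞 K ⧸ v.asIdeal) ≠ p)) := by
  classical
  have hfact : Fact p.Prime := ⟨hp⟩
  have hp2 : p ≠ 2 := by omega
  have hR := card_rad (K := K) hp hm.le
  obtain ⟨m1, m2, m3⟩ := mainG hp hp2 (by omega) Nat.prime_two (Ne.symm hp2) hW hx h hv
  have h24 : ∀ v ∈ Ab 2 K, Nat.card (𝓞 K ⧸ v.asIdeal) = 2 ∨ Nat.card (𝓞 K ⧸ v.asIdeal) = 4 := by
    intro v hv2
    rcases card_quad Nat.prime_two hm v hv2 with h | h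
    · exact Or.inl h
    · exact Or.inr h
  have hg : ∀ i j k : Fin 3, GoodV p 2 x i j k := fun i j k =>
    good_two (by omega) h24 hx i j k
  have hdvd : ∀ u : ℕ, 0 < u → u < 7 → ¬ (p : ℤ) ∣ (u : ℤ) := by
    intro u hu0 hu7 hd
    have h1 : p ∣ u := by exact_mod_cast hd
    have := Nat.le_of_dvd hu0 h1
    omega
  have hpi : Prime (p : ℤ) := Nat.prime_iff_prime_int.1 hp
  have hz : ∀ u : ℕ, 0 < u → u < 7 → ((u : ℕ) : ZMod p) ≠ 0 := by
    intro u hu0 hu7 h0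
    have := Nat.le_of_dvd hu0 ((ZMod.natCast_eq_zero_iff u p).1 h0)
    omega
  by_cases hone : ∀ v ∈ Ab 2 K, ∀ w ∈ Ab 2 K, v = w
  · left
    have hno : ∀ v ∈ Ab 2 K, ∀ i, ¬ Dv x i v := by
      intro v hv2 i hi
      apply m1 hR i
      intro w hw
      rw [hone w hw v hv2]
      exact hi
    have hDD : ∀ i, DD' 2 x i = 0 := fun i => dd_zero fun v hv2 => hno v hv2 i
    refine ⟨hone, fun v hv2 => (h24 v hv2).resolve_left fun hc => ?_, ?_⟩
    · obtain ⟨i, hi⟩ := div_two hp hx h hv v hv2 hc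
      exact hno v hv2 i hi
    · have k := (m3 hm 0 1 2 (by decide) (by decide) (by decide) (hg _ _ _) (hg _ _ _) 2 2
        (by rw [hDD, hDD]; norm_num) (by rw [hDD, hDD]; norm_num)).2
        (hdvd 2 (by norm_num) (by norm_num)) (by
          intro hd
          have e : (2 * (4 - 2) : ℤ) ^ 2 - 8 * 2 * (2 * (2 + 2) - 2 * 2) = -(2 ^ 4 * 3) := by
            norm_num
          rw [e, dvd_neg] at hd
          rcases hpi.dvd_or_dvd hd with h1 | h1
          · exact hdvd 2 (by norm_num) (by norm_num) (hpi.dvd_of_dvd_pow h1)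
          · exact hdvd 3 (by norm_num) (by norm_num) h1)
      have e : (((2 * (4 - 2)) ^ 2 - 8 * 2 * (2 * (2 + 2) - 2 * 2) : ℤ) : ZMod p) =
          (-3) * 4 ^ 2 := by
        push_cast
        ring
      rw [e, isSquare_mul_sq _ _ (by
        have := hz 4 (by norm_num) (by norm_num)
        exact_mod_cast this)] at k
      exact k
  · right
    push Not at hone
    obtain ⟨v, hv2, w, hw2, hvw⟩ := hone
    refine ⟨⟨v, hv2, w, hw2, hvw⟩, ?_⟩
    have hvw' : v.asIdeal ≠ w.asIdeal := fun h => hvw (HeightOneSpectrum.ext h)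
    obtain ⟨-, hcv⟩ := card_of_split Nat.prime_two hm (P := v.asIdeal) (P' := w.asIdeal)
      ⟨v.isPrime, hv2⟩ ⟨w.isPrime, hw2⟩ hvw'
    obtain ⟨-, hcw⟩ := card_of_split Nat.prime_two hm (P := w.asIdeal) (P' := v.asIdeal)
      ⟨w.isPrime, hw2⟩ ⟨v.isPrime, hv2⟩ hvw'.symm
    obtain ⟨i, hi⟩ := div_two hp hx h hv v hv2 hcv
    obtain ⟨j, hj⟩ := div_two hp hx h hv w hw2 hcw
    have hcov := split_two Nat.prime_two hm hv2 hw2 hvw
    have hall : ∀ u ∈ Ab 2 K, ∃ i, Dv x i u := by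
      intro u hu
      rcases hcov u hu with rfl | rfl
      · exact ⟨i, hi⟩
      · exact ⟨j, hj⟩
    have hij : i ≠ j := by
      rintro rfl
      apply m1 hR i
      intro u hu
      rcases hcov u hu with rfl | rfl
      · exact hi
      · exact hj
    obtain ⟨k, hik, hjk⟩ := exists_third hij
    have hsum := (mainF hp hp2 (by omega) Nat.prime_two (Ne.symm hp2) hW hx h hv).2.2.2.2.2 hall
    rw [← sum_ijk (DD' 2 x) hij hik hjk, hm] at hsum
    have d1 := dd_pos Nat.prime_two hv2 hi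
    have d2 := dd_pos Nat.prime_two hw2 hj
    have e1 : DD' 2 x i = 1 := by omega
    have e2 : DD' 2 x j = 1 := by omega
    have e3 : DD' 2 x k = 0 := by omega
    have k' := (m3 hm i j k hij hik hjk (hg _ _ _) (hg _ _ _) 2 3
      (by rw [e1, e2]; norm_num) (by rw [e1, e3]; norm_num)).2
      (hdvd 2 (by norm_num) (by norm_num)) (by
        intro hd
        have e : (2 * (4 - 3) : ℤ) ^ 2 - 8 * 2 * (2 * (2 + 3) - 2 * 3) = -(2 ^ 2 * (3 * 5)) := by
          norm_num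
        rw [e, dvd_neg] at hd
        rcases hpi.dvd_or_dvd hd with h1 | h1
        · exact hdvd 2 (by norm_num) (by norm_num) (hpi.dvd_of_dvd_pow h1)
        · rcases hpi.dvd_or_dvd h1 with h1 | h1
          · exact hdvd 3 (by norm_num) (by norm_num) h1
          · exact hdvd 5 (by norm_num) (by norm_num) h1)
    have e : (((2 * (4 - 3)) ^ 2 - 8 * 2 * (2 * (2 + 3) - 2 * 3) : ℤ) : ZMod p) =
        (-15) * 2 ^ 2 := by
      push_cast
      ring
    rw [e, isSquare_mul_sq _ _ (by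
      have := hz 2 (by norm_num) (by norm_num)
      exact_mod_cast this)] at k'
    exact k'

/-- **One prime of degree one above `p`**: no prime `q` is good for all pairs -/
theorem uniqAll {p q : ℕ} (hp : p.Prime) (hp2 : p ≠ 2) (hq : q.Prime) (hqp : q ≠ p)
    (hW : ¬ p ^ 2 ∣ q ^ (p - 1) - 1) {x : Fin 3 → K} (hx : ∀ i, x i ≠ 0)
    (h : x 0 ^ p + x 1 ^ p + x 2 ^ p = 0)
    (hv : ∀ v : HeightOneSpectrum (𝓞 K), ((p : ℕ) : 𝓞 K) ∈ v.asIdeal →
      ∀ i j, v.valuation K (x i) = v.valuation K (x j))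
    (hu : ∀ v ∈ Ab p K, ∀ w ∈ Ab p K, v = w)
    (hc : ∀ v ∈ Ab p K, Nat.card (𝓞 K ⧸ v.asIdeal) = p)
    (h4 : 4 * Module.finrank ℚ K ^ 2 < p) :
    ¬ ∀ i j k : Fin 3, i ≠ j → i ≠ k → j ≠ k → GoodV p q x i j k := by
  intro hg
  have hfact : Fact p.Prime := ⟨hp⟩
  have hm := Module.finrank_pos (R := ℚ) (M := K)
  set m := Module.finrank ℚ K with hmdef
  have hmp : m < p := by nlinarith
  obtain ⟨-, -, m3, m4, -, -⟩ := mainF hp hp2 hmp hq hqp hW hx h hv
  obtain ⟨b, hb0, hbs, hb⟩ := m3 hu hc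
  have hsum : ∀ i j k : Fin 3, i ≠ j → i ≠ k → j ≠ k → b i + b j = -b k := by
    intro i j k hij hik hjk
    obtain ⟨σ, rfl, rfl, rfl⟩ := exists_perm hij hik hjk
    have h1 := Equiv.sum_comp σ b
    rw [Fin.sum_univ_three, Fin.sum_univ_three, hbs] at h1
    linear_combination h1
  -- each degree is `m`
  have key : ∀ i j k : Fin 3, i ≠ j → i ≠ k → j ≠ k → DD' q x i = m ∧ DD' q x j = 0 := by
    intro i j k hij hik hjk
    have r1 := hb i j k hij hik hjk (hg i j k hij hik hjk)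
    have r2 := hb i k j hik hij hjk.symm (hg i k j hik hij hjk.symm)
    rw [hsum i j k hij hik hjk] at r1
    rw [hsum i k j hik hij hjk.symm] at r2
    have l1 := m4 i
    have l2 := m4 j
    have l3 := m4 k
    set A : ℕ := m + DD' q x i - DD' q x j with hA
    set B : ℕ := m + DD' q x i - DD' q x k with hB
    have hA' : (A : ZMod p) = (m : ZMod p) + (DD' q x i : ℕ) - (DD' q x j : ℕ) := by
      rw [hA, Nat.cast_sub (by omega)]
      push_cast
      rfl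
    have hB' : (B : ZMod p) = (m : ZMod p) + (DD' q x i : ℕ) - (DD' q x k : ℕ) := by
      rw [hB, Nat.cast_sub (by omega)]
      push_cast
      rfl
    rw [← hA'] at r1
    rw [← hB'] at r2
    have h5 : ((4 * m ^ 2 : ℕ) : ZMod p) = ((A * B : ℕ) : ZMod p) := by
      apply mul_right_cancel₀ (mul_ne_zero (hb0 j) (hb0 k))
      push_cast
      linear_combination (2 * (m : ZMod p) * b k) * r1 - (A : ZMod p) * b k * r2
    have hA2 : A ≤ 2 * m := by omega
    have hB2 : B ≤ 2 * m := by omega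
    have hAB : A * B ≤ 4 * m ^ 2 := by
      calc A * B ≤ (2 * m) * (2 * m) := Nat.mul_le_mul hA2 hB2
        _ = 4 * m ^ 2 := by ring
    have h6 : 4 * m ^ 2 = A * B := by
      have h7 := (ZMod.natCast_eq_natCast_iff _ _ _).1 h5
      exact Nat.ModEq.eq_of_lt_of_lt h7 h4 (lt_of_le_of_lt hAB h4)
    have h8 : A = 2 * m := by
      by_contra hne
      have h9 : A < 2 * m := lt_of_le_of_ne hA2 hne
      have h10 : A * B ≤ A * (2 * m) := Nat.mul_le_mul_left _ hB2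
      have h11 : A * (2 * m) < (2 * m) * (2 * m) := Nat.mul_lt_mul_of_pos_right h9 (by omega)
      have h12 : (2 * m) * (2 * m) = 4 * m ^ 2 := by ring
      omega
    constructor
    · omega
    · omega
  have k1 := key 0 1 2 (by decide) (by decide) (by decide)
  have k2 := key 1 0 2 (by decide) (by decide) (by decide)
  omega

end

end Pool.Agent.H50.FW
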