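import Pool.Agent.W71.FS.Last

/-!
# Furtwängler's theorem over number fields: the norm polynomial modulo `q`
-/

set_option autoImplicit false

namespace Pool.Agent.H50.FW

open NumberField IsDedekindDomain Polynomial
open Pool.Agent.Y546.WQ Pool.Agent.W71.FS

/-- the congruence modulo `q` of the norm polynomial and its reciprocal, if the nonzero ratios
are conjugate to their inverses -/
theorem pal_q {ι L : Type} [Fintype ι] [Field L] {q : ℕ} [Fact q.Prime] [CharP L q] (x y : ι → L)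
    (hxy : ∀ i, ¬ (x i = 0 ∧ y i = 0))
    (hloc : ∀ i, x i ≠ 0 → y i ≠ 0 → ∃ s : ℕ, x i ^ (q ^ s + 1) = y i ^ (q ^ s + 1)) (f : ℤ[X])
    (hf : f.map (Int.castRingHom L) = ∏ i, (C (x i) + X * C (y i))) :
    ∃ e : L, e ^ 2 = 1 ∧ X ^ (Nat.card {i // y i = 0}) * f.map (Int.castRingHom L) =
      C e * X ^ (Nat.card {i // x i = 0}) *
        (f.reflect (Fintype.card ι)).map (Int.castRingHom L) := by
  classical
  have hqq : q.Prime := Fact.out
  set s : Finset ι := Finset.univ.filter fun i => x i ≠ 0 ∧ y i ≠ 0 with hs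
  have hmem : ∀ i ∈ s, x i ≠ 0 ∧ y i ≠ 0 := by
    intro i hi
    rw [hs, Finset.mem_filter] at hi
    exact hi.2
  -- Frobenius
  have hfrob : (f.map (Int.castRingHom L)).map (frobenius L q) = f.map (Int.castRingHom L) := by
    rw [Polynomial.map_map]
    congr 1
    exact RingHom.ext_int _ _
  have hU : (Finset.univ.filter fun i => y i ≠ 0).val.map (fun i => x i / y i) =
      (Finset.univ.filter fun i => y i ≠ 0).val.map fun i => (x i / y i) ^ q := by
    have h1 := roots_lin' x y hxy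
    have h2 := roots_lin' (fun i => x i ^ q) (fun i => y i ^ q) (by
      rintro i ⟨h3, h4⟩
      exact hxy i ⟨(pow_eq_zero_iff hqq.ne_zero).1 h3, (pow_eq_zero_iff hqq.ne_zero).1 h4⟩)
    have h3 : ∏ i, (C (x i ^ q) + X * C (y i ^ q)) = ∏ i, (C (x i) + X * C (y i)) := by
      rw [← hf, ← hfrob, hf, Polynomial.map_prod]
      refine Finset.prod_congr rfl fun i _ => ?_
      rw [Polynomial.map_add, Polynomial.map_mul, Polynomial.map_C, Polynomial.map_C,
        Polynomial.map_X, frobenius_def, frobenius_def]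
    rw [h3, h1] at h2
    have h4 : (Finset.univ.filter fun i => y i ^ q ≠ 0) =
        Finset.univ.filter fun i => y i ≠ 0 := by
      ext i
      simp [hqq.ne_zero]
    rw [h4] at h2
    have h5 := congrArg (Multiset.map fun w : L => -w) h2
    rw [Multiset.map_map, Multiset.map_map] at h5
    simp only [Function.comp_def, neg_neg] at h5
    rw [h5]
    refine Multiset.map_congr rfl fun i _ => ?_
    rw [div_pow]
  set M : Multiset L := s.val.map (fun i => x i / y i) with hM
  have hMq : M.map (frobenius L q) = M := by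
    have h1 := congrArg (Multiset.filter fun u : L => u ≠ 0) hU
    rw [Multiset.filter_map, Multiset.filter_map] at h1
    have h2 : s.val = Multiset.filter ((fun u : L => u ≠ 0) ∘ fun i => x i / y i)
        (Finset.univ.filter fun i => y i ≠ 0).val := by
      rw [hs, Finset.filter_val, Finset.filter_val, Multiset.filter_filter]
      refine Multiset.filter_congr fun i _ => ?_
      simp only [Function.comp, ne_eq, div_eq_zero_iff]
      tauto
    have h3 : s.val = Multiset.filter ((fun u : L => u ≠ 0) ∘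
        fun i => (x i / y i) ^ q) (Finset.univ.filter fun i => y i ≠ 0).val := by
      rw [h2]
      refine Multiset.filter_congr fun i _ => ?_
      simp only [Function.comp, ne_eq, pow_eq_zero_iff hqq.ne_zero]
    rw [← h2, ← h3] at h1
    rw [hM, Multiset.map_map, h1]
    refine Multiset.map_congr rfl fun i _ => ?_
    rfl
  have hcount : ∀ u : L, M.count (u ^ q) = M.count u := by
    intro u
    have h1 := Multiset.count_map_eq_count' (frobenius L q) M (frobenius_inj L q) u
    rw [hMq] at h1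
    exact h1
  have hcountk : ∀ (k : ℕ) (u : L), M.count (u ^ q ^ k) = M.count u := by
    intro k
    induction k with
    | zero =>
      intro u
      rw [pow_zero, pow_one]
    | succ k ih =>
      intro u
      rw [pow_succ, pow_mul, hcount, ih]
  have hcinv : ∀ u ∈ M, M.count u⁻¹ = M.count u := by
    intro u hu
    rw [hM, Multiset.mem_map] at hu
    obtain ⟨i, hi, rfl⟩ := hu
    obtain ⟨h1, h2⟩ := hmem i hi
    obtain ⟨k, hk⟩ := hloc i h1 h2
    have h3 : (x i / y i) ^ q ^ k * (x i / y i) = 1 := by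
      rw [← pow_succ, div_pow, hk, div_self (pow_ne_zero _ h2)]
    have h4 : (x i / y i)⁻¹ = (x i / y i) ^ q ^ k := (eq_inv_of_mul_eq_one_left h3).symm
    rw [h4, hcountk]
  have hinv : M.map (fun u => u⁻¹) = M := by
    ext u
    have h1 := Multiset.count_map_eq_count' (fun u : L => u⁻¹) M inv_injective u⁻¹
    simp only [inv_inv] at h1
    rw [h1]
    by_cases hu : u ∈ M
    · exact hcinv u hu
    · by_cases hu' : u⁻¹ ∈ M
      · have h2 := hcinv _ hu'
        rw [inv_inv] at h2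
        exact h2.symm
      · rw [Multiset.count_eq_zero_of_notMem hu, Multiset.count_eq_zero_of_notMem hu']
  set e : L := ∏ i ∈ s, x i / y i with he
  have heM : e = M.prod := rfl
  have he0 : e ≠ 0 := Finset.prod_ne_zero_iff.2 fun i hi =>
    div_ne_zero (hmem i hi).1 (hmem i hi).2
  have he2 : e ^ 2 = 1 := by
    have h1 : e = e⁻¹ := by
      have h2 : (M.map (fun u => u⁻¹)).prod = M.prod⁻¹ := by
        rw [hM, Multiset.map_map]
        show ∏ i ∈ s, (x i / y i)⁻¹ = (∏ i ∈ s, x i / y i)⁻¹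
        rw [Finset.prod_inv_distrib]
      rw [hinv] at h2
      rw [heM]
      exact h2
    rw [pow_two]
    nth_rewrite 2 [h1]
    exact mul_inv_cancel₀ he0
  -- the two products
  have hB : (f.reflect (Fintype.card ι)).map (Int.castRingHom L) =
      ∏ i, (C (y i) + X * C (x i)) := by
    rw [← reflect_map, hf, ← Finset.card_univ]
    exact reflect_prod_lin x y Finset.univ
  have hcard : ∀ z : ι → L, (X : L[X]) ^ (Nat.card {i // z i = 0}) =
      ∏ i, (if z i = 0 then X else 1) := by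
    intro z
    rw [Finset.prod_ite, Finset.prod_const_one, mul_one, Finset.prod_const,
      Nat.card_eq_fintype_card, Fintype.card_subtype]
  refine ⟨e, he2, ?_⟩
  rw [hB, hf, hcard, hcard, mul_assoc, ← Finset.prod_mul_distrib, ← Finset.prod_mul_distrib,
    ← Finset.prod_filter_mul_prod_filter_not Finset.univ (fun i => x i ≠ 0 ∧ y i ≠ 0),
    ← Finset.prod_filter_mul_prod_filter_not Finset.univ (fun i => x i ≠ 0 ∧ y i ≠ 0)
      (fun i => (if x i = 0 then X else 1) * (C (y i) + X * C (x i))), ← mul_assoc]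
  congr 1
  · rw [← hs]
    have e1 : ∀ i ∈ s, (if y i = 0 then X else 1) * (C (x i) + X * C (y i)) =
        C (y i) * (C (x i / y i) + X) := by
      intro i hi
      obtain ⟨h1, h2⟩ := hmem i hi
      rw [if_neg h2, one_mul, mul_add, ← C_mul, mul_div_cancel₀ _ h2]
      ring
    have e2 : ∀ i ∈ s, (if x i = 0 then X else 1) * (C (y i) + X * C (x i)) =
        C (y i) * (C (x i / y i) * (C (x i / y i)⁻¹ + X)) := by
      intro i hi
      obtain ⟨h1, h2⟩ := hmem i hi
      have h3 : x i / y i ≠ 0 := div_ne_zero h1 h2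
      rw [if_neg h1, one_mul, mul_add (C (x i / y i)), ← C_mul, mul_inv_cancel₀ h3, C_1,
        mul_add (C (y i)), mul_one, ← mul_assoc, ← C_mul, mul_div_cancel₀ _ h2]
      ring
    rw [Finset.prod_congr rfl e1, Finset.prod_congr rfl e2, Finset.prod_mul_distrib,
      Finset.prod_mul_distrib, Finset.prod_mul_distrib]
    have h4 : ∏ i ∈ s, C (x i / y i) = C e := (map_prod C _ _).symm
    have h5 : ∏ i ∈ s, (C (x i / y i)⁻¹ + X) = ∏ i ∈ s, (C (x i / y i) + X) := by
      have h6 := congrArg (fun M : Multiset L => (M.map fun u => C u + X).prod) hinv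
      simp only [hM, Multiset.map_map] at h6
      exact h6
    rw [h4, h5]
    have h7 : (C e : L[X]) * C e = 1 := by
      rw [← C_mul, ← pow_two, he2, C_1]
    linear_combination -(∏ i ∈ s, C (y i)) * (∏ i ∈ s, (C (x i / y i) + X)) * h7
  · refine Finset.prod_congr rfl fun i hi => ?_
    rw [Finset.mem_filter] at hi
    by_cases hx : x i = 0
    · have hy : y i ≠ 0 := fun hy => hxy i ⟨hx, hy⟩
      rw [if_neg hy, if_pos hx, hx, C_0]
      ring
    · have hy : y i = 0 := by
        by_contra hy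
        exact hi.2 ⟨hx, hy⟩
      rw [if_pos hy, if_neg hx, hy, C_0]
      ring

/-- the condition on the residues of a pair at the primes above `q` -/
def LocQ (q : ℕ) {K : Type} [Field K] [NumberField K] (X Y Z : 𝓞 K) : Prop :=
  ∀ P : Ideal (𝓞 K), P.IsPrime → ((q : ℕ) : 𝓞 K) ∈ P →
    ¬ (X ∈ P ∧ Y ∈ P) ∧ (X ∈ P ∨ Y ∈ P ∨ X + Y ∈ P ∨
      (Z ∉ P ∧ ∃ s : ℕ, X ^ (q ^ s + 1) - Y ^ (q ^ s + 1) ∈ P))

section

variable {K N : Type} [Field K] [NumberField K] [Field N] [NumberField N]

/-- the norm polynomial modulo `q` -/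
theorem locq (hcard : Nat.card (K →+* N) = Module.finrank ℚ K) (q : ℕ) [Fact q.Prime]
    (Q : Ideal (𝓞 N)) (hQ : Q.IsPrime) (hqQ : ((q : ℕ) : 𝓞 N) ∈ Q) {x y z : 𝓞 K}
    (h : LocQ q x y z) (f : ℤ[X])
    (hf : f.map (Int.castRingHom (𝓞 N)) = nrmP K N x y) :
    ∃ e : ZMod q, e ^ 2 = 1 ∧
    X ^ (Nat.card {τ : K →+* N // RingOfIntegers.mapRingHom τ y ∈ Q}) *
        f.map (Int.castRingHom (ZMod q)) =
      C e * X ^ (Nat.card {τ : K →+* N // RingOfIntegers.mapRingHom τ x ∈ Q}) *
        (f.reflect (Module.finrank ℚ K)).map (Int.castRingHom (ZMod q)) := by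
  classical
  have hqq : q.Prime := Fact.out
  have hQ0 : Q ≠ ⊥ := by
    rintro rfl
    rw [Ideal.mem_bot, Nat.cast_eq_zero] at hqQ
    exact hqq.ne_zero hqQ
  have hQm : Q.IsMaximal := hQ.isMaximal hQ0
  let _ : Field (𝓞 N ⧸ Q) := Ideal.Quotient.field Q
  have hch : CharP (𝓞 N ⧸ Q) q := charP_quot Q hQ q hqq hqQ
  have hP : ∀ τ : K →+* N, (Q.comap (RingOfIntegers.mapRingHom τ)).IsPrime := fun τ => hQ.comap _
  have hP2 : ∀ τ : K →+* N, ((q : ℕ) : 𝓞 K) ∈ Q.comap (RingOfIntegers.mapRingHom τ) := by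
    intro τ
    rw [Ideal.mem_comap, map_natCast]
    exact hqQ
  have h0 : ∀ w : 𝓞 N, Ideal.Quotient.mk Q w = 0 ↔ w ∈ Q := fun w =>
    Ideal.Quotient.eq_zero_iff_mem
  have hxy : ∀ τ : K →+* N, ¬ (Ideal.Quotient.mk Q (RingOfIntegers.mapRingHom τ x) = 0 ∧
      Ideal.Quotient.mk Q (RingOfIntegers.mapRingHom τ y) = 0) := by
    rintro τ ⟨h1, h2⟩
    rw [h0] at h1 h2
    exact (h _ (hP τ) (hP2 τ)).1 ⟨h1, h2⟩
  have hloc : ∀ τ : K →+* N, Ideal.Quotient.mk Q (RingOfIntegers.mapRingHom τ x) ≠ 0 →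
      Ideal.Quotient.mk Q (RingOfIntegers.mapRingHom τ y) ≠ 0 →
      ∃ s : ℕ, Ideal.Quotient.mk Q (RingOfIntegers.mapRingHom τ x) ^ (q ^ s + 1) =
        Ideal.Quotient.mk Q (RingOfIntegers.mapRingHom τ y) ^ (q ^ s + 1) := by
    intro τ h1 h2
    rw [Ne, h0] at h1 h2
    obtain ⟨-, h3 | h3 | h3 | ⟨-, s, h3⟩⟩ := h _ (hP τ) (hP2 τ)
    · exact absurd h3 h1
    · exact absurd h3 h2
    · refine ⟨0, ?_⟩
      rw [Ideal.mem_comap, ← h0, map_add, map_add] at h3
      rw [eq_neg_of_add_eq_zero_left h3, pow_zero]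
      exact neg_sq _
    · refine ⟨s, ?_⟩
      rw [Ideal.mem_comap, ← h0, map_sub, map_sub, map_pow, map_pow, map_pow, map_pow,
        sub_eq_zero] at h3
      exact h3
  have hf' : f.map (Int.castRingHom (𝓞 N ⧸ Q)) =
      ∏ τ : K →+* N, (C (Ideal.Quotient.mk Q (RingOfIntegers.mapRingHom τ x)) +
        X * C (Ideal.Quotient.mk Q (RingOfIntegers.mapRingHom τ y))) := by
    have e1 : f.map (Int.castRingHom (𝓞 N ⧸ Q)) =
        (f.map (Int.castRingHom (𝓞 N))).map (Ideal.Quotient.mk Q) := by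
      rw [Polynomial.map_map]
      congr 1
    rw [e1, hf, nrmP, Polynomial.map_prod]
    refine Finset.prod_congr rfl fun τ _ => ?_
    rw [Polynomial.map_add, Polynomial.map_mul, Polynomial.map_C, Polynomial.map_C,
      Polynomial.map_X]
  obtain ⟨k, hk, key⟩ := pal_q (q := q) _ _ hxy hloc f hf'
  have hm : Fintype.card (K →+* N) = Module.finrank ℚ K := by
    rw [← hcard, Nat.card_eq_fintype_card]
  rw [hm] at key
  have e : ∀ w : 𝓞 K, Nat.card {τ : K →+* N //
      Ideal.Quotient.mk Q (RingOfIntegers.mapRingHom τ w) = 0} =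
      Nat.card {τ : K →+* N // RingOfIntegers.mapRingHom τ w ∈ Q} := by
    intro w
    exact Nat.card_congr (Equiv.subtypeEquivRight fun τ => h0 _)
  rw [e, e] at key
  obtain ⟨k', hk', hkk⟩ : ∃ k' : ZMod q, k' ^ 2 = 1 ∧
      ZMod.castHom (dvd_refl q) (𝓞 N ⧸ Q) k' = k := by
    have h1 : (k - 1) * (k + 1) = 0 := by linear_combination hk
    rcases mul_eq_zero.1 h1 with h2 | h2
    · exact ⟨1, one_pow _, by rw [map_one]; exact (sub_eq_zero.1 h2).symm⟩
    · exact ⟨-1, by ring, by rw [map_neg, map_one]; exact (eq_neg_of_add_eq_zero_left h2).symm⟩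
  refine ⟨k', hk', ?_⟩
  apply Polynomial.map_injective (ZMod.castHom (dvd_refl q) (𝓞 N ⧸ Q)) (RingHom.injective _)
  have e3 : ∀ g : ℤ[X], (g.map (Int.castRingHom (ZMod q))).map
      (ZMod.castHom (dvd_refl q) (𝓞 N ⧸ Q)) = g.map (Int.castRingHom (𝓞 N ⧸ Q)) := by
    intro g
    rw [Polynomial.map_map]
    congr 1
    exact RingHom.ext_int _ _
  rw [Polynomial.map_mul, Polynomial.map_mul, Polynomial.map_mul, Polynomial.map_pow,
    Polynomial.map_pow, Polynomial.map_X, Polynomial.map_C, e3, e3, hkk]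
  exact key

/-- the norm of `x + z y` is prime to `q` -/
theorem copq {p q : ℕ} [Fact p.Prime] [Fact q.Prime] (hp2 : p ≠ 2) (hqp : q ≠ p) {E : Type}
    [Field E] [NumberField E] (c : Cyc p E) (i : E →+* N) {x y z : 𝓞 K}
    (hxyz : LocQ q x y z) (hsol : x ^ p + y ^ p + z ^ p = 0) (f : ℤ[X])
    (hf : f.map (Int.castRingHom (𝓞 N)) = nrmP K N x y) (P : Ideal (𝓞 E)) (hP : P.IsPrime)
    (hPq : ((q : ℕ) : 𝓞 E) ∈ P) (w : 𝓞 E) (hw : (w : E) = aeval c.z f) : w ∉ P := by
  classical
  intro hwP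
  have hpp : p.Prime := Fact.out
  have hqq : q.Prime := Fact.out
  set j : 𝓞 E →+* 𝓞 N := RingOfIntegers.mapRingHom i with hj
  have hjinj : Function.Injective j := by
    intro a b hab
    have h1 : ((j a : 𝓞 N) : N) = j b := congrArg _ hab
    rw [hj, RingOfIntegers.mapRingHom_apply, RingOfIntegers.mapRingHom_apply] at h1
    exact RingOfIntegers.ext (i.injective h1)
  obtain ⟨Q, hQ, hQP⟩ := Y67.WQ.exists_over j hjinj P
  have hmem : ∀ a : 𝓞 E, a ∈ P → j a ∈ Q := by
    intro a ha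
    rw [← hQP] at ha
    exact ha
  obtain ⟨u, hu, hup⟩ := exists_zint c
  have hzp : IsPrimitiveRoot (j u) p := hup.map_of_injective hjinj
  set v : 𝓞 N := j u with hv
  have hqQ : ((q : ℕ) : 𝓞 N) ∈ Q := by
    have := hmem _ hPq
    rwa [map_natCast] at this
  have hw' : w = aeval u f := by
    apply RingOfIntegers.ext
    rw [hw, ← hu]
    exact (Polynomial.aeval_algebraMap_apply E u f)
  have hjw : j w = ∏ τ : K →+* N, (RingOfIntegers.mapRingHom τ x +
      v * RingOfIntegers.mapRingHom τ y) := by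
    have h1 : j w = (f.map (Int.castRingHom (𝓞 N))).eval v := by
      rw [hw', Polynomial.aeval_def, Polynomial.hom_eval₂, Polynomial.eval_map,
        RingHom.ext_int (j.comp (algebraMap ℤ (𝓞 E))) (Int.castRingHom (𝓞 N))]
    rw [h1, hf, nrmP, Polynomial.eval_prod]
    refine Finset.prod_congr rfl fun τ _ => ?_
    rw [Polynomial.eval_add, Polynomial.eval_C, Polynomial.eval_mul, Polynomial.eval_X,
      Polynomial.eval_C]
  have hprod := hmem w hwP
  rw [hjw, hQ.prod_mem_iff] at hprod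
  obtain ⟨τ, -, hτ⟩ := hprod
  have hPτ : (Q.comap (RingOfIntegers.mapRingHom τ)).IsPrime := hQ.comap _
  have h2τ : ((q : ℕ) : 𝓞 K) ∈ Q.comap (RingOfIntegers.mapRingHom τ) := by
    rw [Ideal.mem_comap, map_natCast]
    exact hqQ
  obtain ⟨l1, l2⟩ := hxyz _ hPτ h2τ
  -- the residue field
  have hQ0 : Q ≠ ⊥ := by
    rintro rfl
    rw [Ideal.mem_bot, Nat.cast_eq_zero] at hqQ
    exact hqq.ne_zero hqQ
  have hQm : Q.IsMaximal := hQ.isMaximal hQ0
  let _ : Field (𝓞 N ⧸ Q) := Ideal.Quotient.field Q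
  have h0 : ∀ w : 𝓞 N, Ideal.Quotient.mk Q w = 0 ↔ w ∈ Q := fun w =>
    Ideal.Quotient.eq_zero_iff_mem
  set a : 𝓞 N ⧸ Q := Ideal.Quotient.mk Q (RingOfIntegers.mapRingHom τ x) with ha
  set b : 𝓞 N ⧸ Q := Ideal.Quotient.mk Q (RingOfIntegers.mapRingHom τ y) with hb
  set d : 𝓞 N ⧸ Q := Ideal.Quotient.mk Q (RingOfIntegers.mapRingHom τ z) with hd
  set e : 𝓞 N ⧸ Q := Ideal.Quotient.mk Q v with he
  have hep : e ^ p = 1 := by
    rw [he, ← map_pow, hzp.pow_eq_one, map_one]
  have he0 : e ≠ 0 := by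
    intro h
    rw [h, zero_pow hpp.ne_zero] at hep
    exact zero_ne_one hep
  have heq : a + e * b = 0 := by
    rw [ha, hb, he, ← map_mul, ← map_add, h0]
    exact hτ
  have hsum : a ^ p + b ^ p + d ^ p = 0 := by
    have h1 := congrArg (fun w => Ideal.Quotient.mk Q (RingOfIntegers.mapRingHom τ w)) hsol
    simp only [map_add, map_pow, map_zero] at h1
    exact h1
  have hap : a ^ p + b ^ p = 0 := by
    have h1 : a = -(e * b) := eq_neg_of_add_eq_zero_left heq
    rw [h1, (hpp.odd_of_ne_two hp2).neg_pow, mul_pow, hep, one_mul, neg_add_cancel]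
  have hd0 : d = 0 := by
    rw [hap, zero_add] at hsum
    exact (pow_eq_zero_iff hpp.ne_zero).1 hsum
  have hz : z ∈ Q.comap (RingOfIntegers.mapRingHom τ) := (h0 _).1 hd0
  have hb0 : b ≠ 0 := by
    intro h
    have ha0 : a = 0 := by
      rw [h, mul_zero, add_zero] at heq
      exact heq
    exact l1 ⟨(h0 _).1 ha0, (h0 _).1 h⟩
  have ha0 : a ≠ 0 := by
    intro h
    rw [h, zero_add] at heq
    rcases mul_eq_zero.1 heq with h' | h'
    · exact he0 h'
    · exact hb0 h'
  have hxy : x + y ∈ Q.comap (RingOfIntegers.mapRingHom τ) := by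
    rcases l2 with h | h | h | h
    · exact absurd ((h0 _).2 h) ha0
    · exact absurd ((h0 _).2 h) hb0
    · exact h
    · exact absurd hz h.1
  have hab : a + b = 0 := by
    rw [Ideal.mem_comap, ← h0, map_add, map_add] at hxy
    exact hxy
  have he1 : e = 1 := by
    have h1 : (e - 1) * b = 0 := by linear_combination heq - hab
    exact sub_eq_zero.1 ((mul_eq_zero.1 h1).resolve_right hb0)
  have h6 : 1 - v ∈ Q := by
    rw [← h0, map_sub, map_one, ← he, he1, sub_self]
  have h7 := p_mem_of_one_sub_mem v hzp Q h6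
  have h8 := int_notMem Q hQ q hqq hqQ (p : ℤ) (by
    intro h
    have h9 : q ∣ p := by exact_mod_cast h
    exact hqp ((Nat.prime_dvd_prime_iff_eq hqq hpp).1 h9))
  exact h8 (by exact_mod_cast h7)

end

end Pool.Agent.H50.FW
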