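import Pool.Agent.Y546.WQ.Stm3

/-!
# Furtwängler's theorem over number fields: the Stickelberger relation modulo a prime above `q`
-/

set_option autoImplicit false

namespace Pool.Agent.H50.FW

open NumberField IsDedekindDomain Polynomial
open Pool.Agent.Y546.WQ

/-- a maximal ideal above a prime number -/
theorem exists_Mq (q : ℕ) [Fact q.Prime] (C : Type) [Field C] [NumberField C] :
    ∃ M : Ideal (𝓞 C), M.IsMaximal ∧ ((q : ℕ) : 𝓞 C) ∈ M := by
  have hq : q.Prime := Fact.out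
  have h1 : (Ideal.span {(q : ℤ)}).IsMaximal :=
    PrincipalIdealRing.isMaximal_of_irreducible (Nat.prime_iff_prime_int.1 hq).irreducible
  obtain ⟨M, hM, hMl⟩ := Ideal.exists_maximal_ideal_liesOver_of_isIntegral (S := 𝓞 C)
    (Ideal.span {(q : ℤ)})
  refine ⟨M, hM, ?_⟩
  have h2 : (q : ℤ) ∈ M.under ℤ := by
    rw [← hMl.over]
    exact Ideal.mem_span_singleton_self _
  rw [Ideal.under_def, Ideal.mem_comap] at h2
  simpa using h2

/-- the value of the polynomial and its reflection in characteristic `q` -/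
theorem refl_valq {q : ℕ} {F : Type} [Field F] [CharP F q] (f : Polynomial ℤ) (m a b : ℕ)
    (e : ZMod q) (hf : f.natDegree ≤ m)
    (h : X ^ b * f.map (Int.castRingHom (ZMod q)) =
      Polynomial.C e * X ^ a * (f.reflect m).map (Int.castRingHom (ZMod q))) (y : F)
    (hy : y ≠ 0) :
    y ^ b * f.eval₂ (Int.castRingHom F) y =
      ZMod.castHom (dvd_refl q) F e * (y ^ (a + m) * f.eval₂ (Int.castRingHom F) y⁻¹) := by
  set ι : ZMod q →+* F := ZMod.castHom (dvd_refl q) F with hι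
  have h1 : ∀ g : Polynomial ℤ, (g.map (Int.castRingHom (ZMod q))).eval₂ ι y =
      g.eval₂ (Int.castRingHom F) y := by
    intro g
    rw [Polynomial.eval₂_map]
    congr 1
    exact RingHom.ext_int _ _
  have h3 := congrArg (Polynomial.eval₂ ι y) h
  rw [Polynomial.eval₂_mul, Polynomial.eval₂_mul, Polynomial.eval₂_mul, Polynomial.eval₂_C,
    Polynomial.eval₂_X_pow, Polynomial.eval₂_X_pow, h1, h1] at h3
  rw [h3]
  let _ : Invertible y⁻¹ := invertibleOfNonzero (inv_ne_zero hy)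
  have h4 := Polynomial.eval₂_reflect_mul_pow (Int.castRingHom F) y⁻¹ m f hf
  rw [invOf_eq_inv, inv_inv] at h4
  rw [← h4, pow_add, inv_pow]
  have h5 : y ^ m ≠ 0 := pow_ne_zero _ hy
  field_simp

/-- the relation in a quotient field of characteristic `q` -/
theorem rel_q {p q : ℕ} [Fact p.Prime] [Fact q.Prime] {E : Type} [Field E] [NumberField E]
    (c : Cyc p E) (a : ℕ) (f : Polynomial ℤ) (n : ℤ) (hn : ¬ (q : ℤ) ∣ n)
    (hP : ∀ P : Ideal (𝓞 E), P.IsPrime → ((q : ℕ) : 𝓞 E) ∈ P →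
      ∀ w : 𝓞 E, (w : E) = aeval c.z f → w ∉ P)
    (g : E) (i : ℕ) (hrel : tha c a (aeval c.z f / (n : E)) = c.z ^ i * g ^ p)
    (zO : 𝓞 E) (hz : (zO : E) = c.z) {F : Type} [Field F] [CharP F q] (ψ : 𝓞 E →+* F) :
    ∃ d : F, d ≠ 0 ∧ ∏ t ∈ hf p a, f.eval₂ (Int.castRingHom F)
      (ψ zO ^ ((t⁻¹ : (ZMod p)ˣ) : ZMod p).val) =
        ((n : ℤ) : F) ^ (hf p a).card * (ψ zO ^ i * d ^ p) := by
  have hpp : p.Prime := Fact.out
  have hp0 : p ≠ 0 := hpp.ne_zero
  have hqF : ((q : ℕ) : F) = 0 := CharP.cast_eq_zero F q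
  have hzp : zO ^ p = 1 := by
    apply RingOfIntegers.coe_injective
    show (algebraMap (𝓞 E) E) _ = (algebraMap (𝓞 E) E) _
    have e2 : (algebraMap (𝓞 E) E) zO = c.z := hz
    rw [map_pow, map_one, e2, c.prim.pow_eq_one]
  have hw0 : ψ zO ≠ 0 := by
    intro h
    have h1 := congrArg ψ hzp
    rw [map_pow, h, zero_pow hp0, map_one] at h1
    exact zero_ne_one h1
  have h2k : ((q : ℕ) : 𝓞 E) ∈ RingHom.ker ψ := by
    rw [RingHom.mem_ker, map_natCast]
    exact hqF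
  have hkb : RingHom.ker ψ ≠ ⊥ := by
    intro h
    rw [h, Ideal.mem_bot] at h2k
    exact (Nat.cast_ne_zero.2 (Fact.out : q.Prime).ne_zero) h2k
  let v : HeightOneSpectrum (𝓞 E) := ⟨RingHom.ker ψ, RingHom.ker_isPrime ψ, hkb⟩
  have hab : ∃ al be : 𝓞 E, ¬ (ψ al = 0 ∧ ψ be = 0) ∧ g * (be : E) = (al : E) := by
    obtain ⟨x, d, h | h⟩ := v.exists_primeCompl_mul_eq_or_mul_eq g
    · refine ⟨x, d, fun hh => ?_, h⟩
      exact d.2 hh.2
    · refine ⟨d, x, fun hh => ?_, h⟩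
      exact d.2 hh.1
  obtain ⟨al, be, h0, hgab⟩ := hab
  have hn0 : (n : E) ≠ 0 := by
    intro h
    have h1 : n = 0 := by exact_mod_cast h
    rw [h1] at hn
    exact hn (dvd_zero _)
  have hnF : ((n : ℤ) : F) ≠ 0 := by
    intro h
    exact hn ((CharP.intCast_eq_zero_iff F q n).1 h)
  have hae : ∀ k : ℕ, algebraMap (𝓞 E) E (aeval (zO ^ k) f) = aeval (c.z ^ k) f := by
    intro k
    rw [← Polynomial.aeval_algebraMap_apply, map_pow]
    rw [show algebraMap (𝓞 E) E zO = c.z from hz]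
  have hsig : ∀ t : (ZMod p)ˣ, c.σ t (aeval c.z f) = aeval (c.z ^ (t : ZMod p).val) f := by
    intro t
    have e1 := Polynomial.map_aeval_eq_aeval_map (φ := Int.castRingHom ℤ)
      (ψ := ((c.σ t : E ≃ₐ[ℚ] E) : E →+* E)) (RingHom.ext_int _ _) f c.z
    rw [show (Int.castRingHom ℤ) = RingHom.id ℤ from rfl, Polynomial.map_id] at e1
    rw [← c.σ_z t]
    exact e1
  have hR : (∏ t ∈ hf p a, aeval (zO ^ ((t⁻¹ : (ZMod p)ˣ) : ZMod p).val) f) * be ^ p =
      (n : 𝓞 E) ^ (hf p a).card * (zO ^ i * al ^ p) := by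
    apply RingOfIntegers.coe_injective
    have e1 : tha c a (aeval c.z f / (n : E)) =
        (∏ t ∈ hf p a, aeval (c.z ^ ((t⁻¹ : (ZMod p)ˣ) : ZMod p).val) f) /
          (n : E) ^ (hf p a).card := by
      unfold tha
      rw [← Finset.prod_const, ← Finset.prod_div_distrib]
      refine Finset.prod_congr rfl fun t _ => ?_
      rw [map_div₀, map_intCast, hsig]
    rw [e1, div_eq_iff (pow_ne_zero _ hn0)] at hrel
    show (algebraMap (𝓞 E) E) _ = (algebraMap (𝓞 E) E) _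
    have e2 : (algebraMap (𝓞 E) E) zO = c.z := hz
    simp only [map_mul, map_pow, map_prod, map_intCast, e2, hae]
    rw [hrel]
    have e3 : (algebraMap (𝓞 E) E) al = g * (algebraMap (𝓞 E) E) be := hgab.symm
    rw [e3, mul_pow]
    ring
  have hRF := congrArg ψ hR
  have hψ : ∀ x : 𝓞 E, ψ (aeval x f) = f.eval₂ (Int.castRingHom F) (ψ x) := by
    intro x
    rw [Polynomial.aeval_def, Polynomial.hom_eval₂]
    congr 1
    exact RingHom.ext_int _ _
  simp only [map_mul, map_pow, map_prod, map_intCast, hψ] at hRF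
  -- the product is not zero
  have hne : ∏ t ∈ hf p a, f.eval₂ (Int.castRingHom F)
      (ψ zO ^ ((t⁻¹ : (ZMod p)ˣ) : ZMod p).val) ≠ 0 := by
    refine Finset.prod_ne_zero_iff.2 fun t _ hh => ?_
    have e1 : rs c t⁻¹ (aeval zO f) = aeval (zO ^ ((t⁻¹ : (ZMod p)ˣ) : ZMod p).val) f := by
      apply RingOfIntegers.coe_injective
      have e2 : ((rs c t⁻¹ (aeval zO f) : 𝓞 E) : E) = c.σ t⁻¹ ((aeval zO f : 𝓞 E) : E) := rfl
      refine e2.trans ?_
      have e3 := hae 1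
      rw [pow_one, pow_one] at e3
      have e4 : ((aeval zO f : 𝓞 E) : E) = aeval c.z f := e3
      rw [e4, hsig]
      exact (hae _).symm
    have e5 : ψ (rs c t⁻¹ (aeval zO f)) = 0 := by
      rw [e1, hψ, map_pow]
      exact hh
    refine hP (RingHom.ker (ψ.comp (rs c t⁻¹ : 𝓞 E →+* 𝓞 E))) (RingHom.ker_isPrime _) ?_
      (aeval zO f) ?_ ?_
    · rw [RingHom.mem_ker, map_natCast]
      exact hqF
    · have e3 := hae 1
      rw [pow_one, pow_one] at e3
      exact e3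
    · rw [RingHom.mem_ker]
      exact e5
  have hbe : ψ be ≠ 0 := by
    intro h
    rw [h, zero_pow hp0, mul_zero] at hRF
    have h1 : ψ al ^ p = 0 := (mul_eq_zero.1 ((mul_eq_zero.1 hRF.symm).resolve_left
      (pow_ne_zero _ hnF))).resolve_left (pow_ne_zero _ hw0)
    exact h0 ⟨pow_eq_zero_iff hp0 |>.1 h1, h⟩
  have hal : ψ al ≠ 0 := by
    intro h
    rw [h, zero_pow hp0, mul_zero, mul_zero] at hRF
    have h1 : ψ be ^ p = 0 := (mul_eq_zero.1 hRF).resolve_left hne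
    exact h0 ⟨h, pow_eq_zero_iff hp0 |>.1 h1⟩
  refine ⟨ψ al / ψ be, div_ne_zero hal hbe, ?_⟩
  rw [div_pow, ← mul_div_assoc, ← mul_div_assoc, eq_div_iff (pow_ne_zero _ hbe)]
  exact hRF

/-- powers of an element of order `p` -/
theorem pow_eq_mod {F : Type} [Field F] {p : ℕ} [Fact p.Prime] {w : F} (hw : w ^ p = 1)
    (hw1 : w ≠ 1) (A B : ℕ) (h : w ^ A = w ^ B) : (A : ZMod p) = B := by
  have hpp : p.Prime := Fact.out
  have h1 : w ^ (A + (p - 1) * B) = 1 := by
    rw [pow_add, h, ← pow_add]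
    have : B + (p - 1) * B = p * B := by
      obtain ⟨k, hk⟩ := Nat.exists_eq_succ_of_ne_zero hpp.ne_zero
      rw [hk, Nat.succ_sub_one, Nat.succ_mul]
      ring
    rw [this, pow_mul, hw, one_pow]
  have h2 := orderOf_dvd_of_pow_eq_one h1
  rw [orderOf_eq_prime hw hw1] at h2
  have h3 := (ZMod.natCast_eq_zero_iff _ _).2 h2
  rw [Nat.cast_add, Nat.cast_mul, Nat.cast_sub hpp.one_lt.le, ZMod.natCast_self] at h3
  push_cast at h3
  linear_combination h3

/-- **The relation at `q`**: the exponent of the Stickelberger relation of a polynomial which is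
palindromic modulo `q` -/
theorem mainQ (p q : ℕ) [Fact p.Prime] [Fact q.Prime] (hp2 : p ≠ 2) (hqp : q ≠ p) (a : ℕ)
    (E : Type) [Field E] [NumberField E] (c : Cyc p E) (f : Polynomial ℤ) (n : ℤ)
    (hn : ¬ (q : ℤ) ∣ n) (m α β : ℕ) (e : ZMod q) (he : e ^ 2 = 1) (hf : f.natDegree ≤ m)
    (hab : X ^ β * f.map (Int.castRingHom (ZMod q)) =
      Polynomial.C e * X ^ α * (f.reflect m).map (Int.castRingHom (ZMod q)))
    (hP : ∀ P : Ideal (𝓞 E), P.IsPrime → ((q : ℕ) : 𝓞 E) ∈ P →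
      ∀ w : 𝓞 E, (w : E) = aeval c.z f → w ∉ P)
    (g : E) (i : ℕ) (hrel : tha c a (aeval c.z f / (n : E)) = c.z ^ i * g ^ p) :
    2 * (i : ZMod p) = ((m : ZMod p) + α - β) * hsa p a 1 ∨ p ^ 2 ∣ q ^ (p - 1) - 1 := by
  classical
  have hpp : p.Prime := Fact.out
  have hqq : q.Prime := Fact.out
  have hp1 := hpp.one_lt
  obtain ⟨M, hM, h2M⟩ := exists_Mq q E
  let _ : Field (𝓞 E ⧸ M) := Ideal.Quotient.field M
  let φ : 𝓞 E →+* (𝓞 E ⧸ M) := Ideal.Quotient.mk M
  have h2F : ((q : ℕ) : 𝓞 E ⧸ M) = 0 := by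
    have : φ ((q : ℕ) : 𝓞 E) = 0 := Ideal.Quotient.eq_zero_iff_mem.2 h2M
    rwa [map_natCast] at this
  have hchar : CharP (𝓞 E ⧸ M) q := (CharP.charP_iff_prime_eq_zero hqq).2 h2F
  -- the root of unity as an integer
  let zO : 𝓞 E := ⟨c.z, c.prim.isIntegral hpp.pos⟩
  have hzO : (zO : E) = c.z := rfl
  have hzprim : IsPrimitiveRoot zO p :=
    IsPrimitiveRoot.of_map_of_injective (f := algebraMap (𝓞 E) E) c.prim
      (RingOfIntegers.coe_injective)
  set w : 𝓞 E ⧸ M := φ zO with hwdef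
  have hw : w ^ p = 1 := by rw [hwdef, ← map_pow, hzprim.pow_eq_one, map_one]
  have hw0 : w ≠ 0 := by
    intro h
    rw [h, zero_pow hpp.ne_zero] at hw
    exact zero_ne_one hw
  have hpF : ((p : ℕ) : 𝓞 E ⧸ M) ≠ 0 := by
    intro h
    have h1 := (CharP.cast_eq_zero_iff (𝓞 E ⧸ M) q p).1 h
    exact hqp ((Nat.prime_dvd_prime_iff_eq hqq hpp).1 h1)
  have hw1 : w ≠ 1 := by
    intro h
    have h1 := hzprim.geom_sum_eq_zero hpp.one_lt
    have h3 := congrArg φ h1
    rw [map_sum, map_zero] at h3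
    have h4 : ∀ j ∈ Finset.range p, φ (zO ^ j) = 1 := by
      intro j _
      rw [map_pow, ← hwdef, h, one_pow]
    rw [Finset.sum_congr rfl h4, Finset.sum_const, Finset.card_range, nsmul_one] at h3
    exact hpF h3
  -- the Frobenius
  have hF : ∀ x : 𝓞 E ⧸ M, x ^ q ^ (p - 1) = x := by
    intro x
    obtain ⟨y, rfl⟩ := Ideal.Quotient.mk_surjective x
    obtain ⟨f, hf⟩ := c.gen (y : E) y.2
    have h1 : y = Polynomial.aeval zO f := by
      apply RingOfIntegers.coe_injective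
      have := Polynomial.aeval_algebraMap_apply E zO f
      exact hf.trans this
    have h3 : ∀ ψ : 𝓞 E →+* (𝓞 E ⧸ M), ψ (Polynomial.aeval zO f) =
        Polynomial.eval₂ (Int.castRingHom _) (ψ zO) f := by
      intro ψ
      rw [Polynomial.aeval_def, Polynomial.hom_eval₂]
      congr 1
      exact RingHom.ext_int _ _
    have h4 := h3 φ
    have h5 := h3 ((iterateFrobenius (𝓞 E ⧸ M) q (p - 1)).comp φ)
    rw [RingHom.comp_apply, RingHom.comp_apply, iterateFrobenius_def, iterateFrobenius_def] at h5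
    have h6 : (φ zO) ^ q ^ (p - 1) = φ zO := by
      have e1 : q ^ (p - 1) % p = 1 := by
        have e2 : ((q ^ (p - 1) : ℕ) : ZMod p) = ((1 : ℕ) : ZMod p) := by
          push_cast
          refine ZMod.pow_card_sub_one_eq_one ?_
          rw [Ne, ZMod.natCast_eq_zero_iff]
          intro hd
          exact hqp ((Nat.prime_dvd_prime_iff_eq hpp hqq).1 hd).symm
        rw [ZMod.natCast_eq_natCast_iff] at e2
        have e3 : q ^ (p - 1) % p = 1 % p := e2
        rw [e3, Nat.mod_eq_of_lt hpp.one_lt]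
      rw [pow_eq_pow_mod _ hw, e1, pow_one]
    rw [h6, ← h4] at h5
    have h7 : Ideal.Quotient.mk M y = φ (Polynomial.aeval zO f) := by rw [← h1]
    rw [h7]
    exact h5
  -- the two relations
  obtain ⟨d1, hd1, hr1⟩ := rel_q c a f n hn hP g i hrel zO hzO φ
  obtain ⟨d2, hd2, hr2⟩ := rel_q c a f n hn hP g i hrel zO hzO
    (φ.comp (rs c (-1) : 𝓞 E →+* 𝓞 E))
  have hw' : (φ.comp (rs c (-1) : 𝓞 E →+* 𝓞 E)) zO = w⁻¹ := by
    have e1 : rs c (-1) zO = zO ^ ((-1 : (ZMod p)ˣ) : ZMod p).val := by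
      apply RingOfIntegers.coe_injective
      have e2 : ((rs c (-1) zO : 𝓞 E) : E) = c.σ (-1) ((zO : 𝓞 E) : E) := rfl
      refine e2.trans ?_
      rw [hzO, c.σ_z]
      rfl
    have e3 : (φ.comp (rs c (-1) : 𝓞 E →+* 𝓞 E)) zO = φ (rs c (-1) zO) := rfl
    rw [e3, e1, map_pow, Units.val_neg, Units.val_one]
    apply eq_inv_of_mul_eq_one_left
    rw [← hwdef, ← pow_succ]
    have e4 : (-1 : ZMod p).val + 1 = p := by
      rw [ZMod.neg_val, if_neg one_ne_zero]
      have : Fact (1 < p) := ⟨hp1⟩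
      rw [ZMod.val_one]
      omega
    rw [e4, hw]
  rw [hw'] at hr2
  rw [← hwdef] at hr1
  set h := (Pool.Agent.Y546.WQ.hf p a).card with hh
  set ι : ZMod q →+* (𝓞 E ⧸ M) := ZMod.castHom (dvd_refl q) (𝓞 E ⧸ M) with hι
  set H : ℕ := ∑ t ∈ Pool.Agent.Y546.WQ.hf p a, ((t⁻¹ : (ZMod p)ˣ) : ZMod p).val with hH
  have hHc : ((H : ℕ) : ZMod p) = hsa p a 1 := by
    rw [hH, Nat.cast_sum]
    unfold hsa
    refine Finset.sum_congr rfl fun t _ => ?_
    rw [ZMod.natCast_zmod_val, pow_one]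
  have hprod : (w ^ H) ^ β * (((n : ℤ) : 𝓞 E ⧸ M) ^ h * (w ^ i * d1 ^ p)) =
      ι e ^ h * ((w ^ H) ^ (α + m) * (((n : ℤ) : 𝓞 E ⧸ M) ^ h * ((w⁻¹) ^ i * d2 ^ p))) := by
    rw [← hr1, ← hr2, hH, ← Finset.prod_pow_eq_pow_sum, ← Finset.prod_pow, ← Finset.prod_pow,
      ← Finset.prod_mul_distrib, ← Finset.prod_mul_distrib, hh, ← Finset.prod_const,
      ← Finset.prod_mul_distrib]
    refine Finset.prod_congr rfl fun t _ => ?_
    have := refl_valq f m α β e hf hab (w ^ ((t⁻¹ : (ZMod p)ˣ) : ZMod p).val)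
      (pow_ne_zero _ hw0)
    rw [inv_pow]
    exact this
  have hnF : ((n : ℤ) : 𝓞 E ⧸ M) ≠ 0 := by
    intro h
    exact hn ((CharP.intCast_eq_zero_iff (𝓞 E ⧸ M) q n).1 h)
  set v : 𝓞 E ⧸ M := d1 / d2 with hv
  have hv0 : v ≠ 0 := div_ne_zero hd1 hd2
  have hkey : w ^ (2 * i + H * β) * v ^ p = ι e ^ h * w ^ (H * (α + m)) := by
    have e2 : w ^ i ≠ 0 := pow_ne_zero _ hw0
    have e3 : d2 ^ p ≠ 0 := pow_ne_zero _ hd2
    have e4 : ((n : ℤ) : 𝓞 E ⧸ M) ^ h ≠ 0 := pow_ne_zero _ hnF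
    rw [hv, div_pow, pow_add, mul_comm 2 i, pow_mul w i 2, pow_two (w ^ i), pow_mul, pow_mul]
    rw [inv_pow] at hprod
    field_simp at hprod ⊢
    linear_combination hprod
  -- the exponent
  obtain ⟨Nq, hNq⟩ : p ∣ q ^ (p - 1) - 1 := by
    have e2 : ((q ^ (p - 1) : ℕ) : ZMod p) = ((1 : ℕ) : ZMod p) := by
      push_cast
      refine ZMod.pow_card_sub_one_eq_one ?_
      rw [Ne, ZMod.natCast_eq_zero_iff]
      intro hd
      exact hqp ((Nat.prime_dvd_prime_iff_eq hpp hqq).1 hd).symm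
    rw [ZMod.natCast_eq_natCast_iff] at e2
    exact (Nat.modEq_iff_dvd' (Nat.one_le_pow _ _ hqq.pos)).1 e2.symm
  have hqpos : 1 ≤ q ^ (p - 1) := Nat.one_le_pow _ _ hqq.pos
  have hvN : (v ^ p) ^ Nq = 1 := by
    rw [← pow_mul, ← hNq]
    have e1 := hF v
    have e2 : v ^ (q ^ (p - 1) - 1 + 1) = v := by
      rw [Nat.sub_add_cancel hqpos]
      exact e1
    rw [pow_succ] at e2
    exact (mul_eq_right₀ hv0).1 e2
  have heN : (ι e ^ h) ^ Nq = 1 := by
    rw [← pow_mul, ← map_pow]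
    have e0 : e ^ (h * Nq) = 1 := by
      by_cases hq2 : q = 2
      · have e1 : e ^ q = e := ZMod.pow_card e
        have e3 : e ^ q = e ^ 2 := congrArg (fun k : ℕ => e ^ k) hq2
        have e2 : e = 1 := by rw [← e1, e3, he]
        rw [e2, one_pow]
      · have hNe : Even Nq := by
          have h1 : Even (q ^ (p - 1) - 1) := by
            rw [Nat.even_sub hqpos]
            have h2 : Odd (q ^ (p - 1)) := (hqq.odd_of_ne_two hq2).pow
            constructor
            · intro h3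
              exact absurd h3 (Nat.not_even_iff_odd.2 h2)
            · intro h3
              exact absurd h3 (by decide)
          rw [hNq, Nat.even_mul] at h1
          exact h1.resolve_left (Nat.not_even_iff_odd.2 (hpp.odd_of_ne_two hp2))
        obtain ⟨k, hk⟩ := hNe
        rw [hk, show h * (k + k) = 2 * (h * k) by ring, pow_mul, he, one_pow]
    rw [e0, map_one]
  have hfin : w ^ ((2 * i + H * β) * Nq) = w ^ (H * (α + m) * Nq) := by
    have e1 := congrArg (fun x => x ^ Nq) hkey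
    simp only [mul_pow] at e1
    rw [hvN, heN, mul_one, one_mul, ← pow_mul, ← pow_mul] at e1
    exact e1
  have hfin' := pow_eq_mod hw hw1 _ _ hfin
  push_cast at hfin'
  rw [hHc] at hfin'
  by_cases hN0 : ((Nq : ℕ) : ZMod p) = 0
  · right
    obtain ⟨k, hk⟩ := (ZMod.natCast_eq_zero_iff _ _).1 hN0
    refine ⟨k, ?_⟩
    rw [hNq, hk]
    ring
  · left
    have e1 := mul_right_cancel₀ hN0 hfin'
    linear_combination e1

end Pool.Agent.H50.FW
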