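import Pool.Agent.H50.FW.Har
import Pool.Agent.H50.FW.Rel
import Pool.Agent.H50.FW.Loc

/-!
# Furtwängler's theorem over number fields: the logarithmic derivative
-/

set_option autoImplicit false

namespace Pool.Agent.H50.FW

open NumberField IsDedekindDomain Polynomial
open Pool.Agent.Y546.WQ Pool.Agent.W71.FS

/-- the part of an integer which is prime to `q` -/
theorem exists_free_part (q : ℕ) (hq : q.Prime) (u : ℤ) (hu : u ≠ 0) :
    ∃ (r : ℕ) (n : ℤ), ¬ (q : ℤ) ∣ n ∧ u = (q : ℤ) ^ r * n := by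
  obtain ⟨r, k, hk, h⟩ := Nat.exists_eq_pow_mul_and_not_dvd (n := u.natAbs)
    (Int.natAbs_ne_zero.2 hu) q hq.ne_one
  have hk' : ¬ (q : ℤ) ∣ (k : ℤ) := fun h => hk (by exact_mod_cast h)
  rcases Int.natAbs_eq u with h1 | h1
  · refine ⟨r, k, hk', ?_⟩
    rw [h1, h]
    push_cast
    rfl
  · refine ⟨r, -k, fun h2 => hk' ((dvd_neg).1 h2), ?_⟩
    rw [h1, h]
    push_cast
    ring

section

variable {p : ℕ} [Fact p.Prime] {E : Type} [Field E] [NumberField E]
  {K N : Type} [Field K] [NumberField K] [Field N] [NumberField N]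

/-- **The logarithmic derivative at one** -/
theorem logder (c : Cyc p E) (i : E →+* N) (hD : Dn p E N i)
    (hcard : Nat.card (K →+* N) = Module.finrank ℚ K) (hp2 : p ≠ 2) (q : ℕ) [Fact q.Prime]
    (hqp : q ≠ p) (hW : ¬ p ^ 2 ∣ q ^ (p - 1) - 1) (Q : Ideal (𝓞 N)) (hQ : Q.IsPrime)
    (hqQ : ((q : ℕ) : 𝓞 N) ∈ Q) {X Y Z : 𝓞 K} (hs : Sol p K X Y Z) (hl : LocQ q X Y Z)
    (f : ℤ[X]) (hdeg : f.natDegree ≤ Module.finrank ℚ K)
    (hc0 : f.coeff 0 = Algebra.norm ℤ X) (hcm : f.coeff (Module.finrank ℚ K) = Algebra.norm ℤ Y)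
    (hev : ∀ t : ℤ, f.eval t = Algebra.norm ℤ (X + (t : 𝓞 K) * Y))
    (hf : f.map (Int.castRingHom (𝓞 N)) = nrmP K N X Y) :
    2 * (derivative (f.map (Int.castRingHom (ZMod p)))).eval 1 =
      ((Module.finrank ℚ K : ZMod p) +
        (Nat.card {τ : K →+* N // RingOfIntegers.mapRingHom τ X ∈ Q} : ℕ) -
        (Nat.card {τ : K →+* N // RingOfIntegers.mapRingHom τ Y ∈ Q} : ℕ)) *
      (f.map (Int.castRingHom (ZMod p))).eval 1 := by
  classical
  have hpp : p.Prime := Fact.out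
  have hqq : q.Prime := Fact.out
  obtain ⟨a, ha, hap, hne⟩ := exists_hsa p hp2
  obtain ⟨b1, b2, b3, b4, b5⟩ := base Y290.WQ.mainNORM hcard hs f hdeg hc0 hcm hev
  obtain ⟨h1, h2, h3⟩ := fldG Y261.WQ.main hp2 c i hD X Y Z hs.X0 hs.Y0 hs.Z0 hs.eq
    (fun P hP hpP => (hs.cp P hP hpP).2.2) f hf
  obtain ⟨e, he, q3⟩ := locq hcard q Q hQ hqQ hl f hf
  have q4 : ∀ P : Ideal (𝓞 E), P.IsPrime → ((q : ℕ) : 𝓞 E) ∈ P → ∀ w : 𝓞 E,
      (w : E) = aeval c.z f → w ∉ P := fun P hP h2P w hw =>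
    copq hp2 hqp c i hl hs.eq f hf P hP h2P w hw
  obtain ⟨s, n, hn, hsn⟩ := exists_free_part q hqq (f.eval 1) h2
  have hpn : ¬ (p : ℤ) ∣ n := fun h => b5 (hsn ▸ dvd_mul_of_dvd_right h _)
  obtain ⟨w, hwz, hw⟩ := exists_zint c
  have hΛ : algebraMap (𝓞 E) E (aeval w f) = aeval c.z f := by
    have hwz' : algebraMap (𝓞 E) E w = c.z := hwz
    rw [← hwz']
    exact (aeval_algebraMap_apply E w f).symm
  obtain ⟨g, hg, k, hk⟩ := relGA aUNITA hp2 a ha hap c f n hpn b5 h1 (by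
    intro P
    by_cases h2P : ((q : ℕ) : 𝓞 E) ∈ P.asIdeal
    · refine ⟨0, ?_⟩
      have hn1 : P.valuation E ((n : ℤ) : E) = 1 := by
        have := val_one P ((n : ℤ) : 𝓞 E) (int_notMem P.asIdeal P.isPrime q hqq h2P n hn)
        simpa using this
      rw [hn1, mul_zero, WithZero.exp_zero, mul_one, ← hΛ]
      exact val_one P _ (q4 P.asIdeal P.isPrime h2P _ hΛ)
    · obtain ⟨m, hm⟩ := h3 P
      refine ⟨m, ?_⟩
      rw [hm, hsn]
      congr 1
      push_cast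
      rw [map_mul, map_pow]
      have h3 : P.valuation E ((q : ℕ) : E) = 1 := by
        have h10 : (((q : ℕ) : 𝓞 E) : E) = ((q : ℕ) : E) := map_natCast (algebraMap (𝓞 E) E) q
        have := val_one P ((q : ℕ) : 𝓞 E) h2P
        rwa [h10] at this
      rw [h3, one_pow, one_mul])
  obtain ⟨r, hr, hdv⟩ := Y919.WQ.mainLAMA p hp2 a ha hap E c f n hpn b5 g hg k hk
  have q5 := (mainQ p q hp2 hqp a E c f n hn (Module.finrank ℚ K) _ _ e he hdeg q3
    (fun P hP h2P w hw => q4 P hP h2P w hw) g k hk).resolve_right hW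
  have q6 := der_one hp2 a k _ r hr hdv
  apply mul_left_cancel₀ hne
  linear_combination -2 * q6 + (eval 1 (f.map (Int.castRingHom (ZMod p)))) * q5

/-- the trace is the sum of the conjugates -/
theorem trace_emb (hcard : Nat.card (K →+* N) = Module.finrank ℚ K) (w : K) :
    ((Algebra.trace ℚ K w : ℚ) : N) = ∑ τ : K →+* N, τ w := by
  classical
  let φ : N →+* ℂ := Classical.arbitrary (N →+* ℂ)
  apply φ.injective
  rw [map_ratCast, map_sum]
  have h1 := trace_eq_sum_embeddings (K := ℚ) (L := K) ℂ (x := w)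
  have h2 : algebraMap ℚ ℂ (Algebra.trace ℚ K w) = ((Algebra.trace ℚ K w : ℚ) : ℂ) := rfl
  rw [← h2, h1]
  have hbij : Function.Bijective (fun τ : K →+* N => φ.comp τ) := by
    rw [Fintype.bijective_iff_injective_and_card]
    constructor
    · intro τ τ' h
      ext x
      exact φ.injective (RingHom.congr_fun h x)
    · rw [NumberField.Embeddings.card K ℂ, ← hcard, Nat.card_eq_fintype_card]
  have h3 : ∑ τ : K →+* N, φ (τ w) = ∑ σ : K →+* ℂ, σ w :=
    hbij.sum_comp (fun σ : K →+* ℂ => σ w)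
  rw [h3]
  exact (Fintype.sum_equiv (RingHom.equivRatAlgHom K ℂ) (fun σ : K →+* ℂ => σ w)
    (fun σ : K →ₐ[ℚ] ℂ => σ w) fun σ => rfl).symm

theorem trace_int (hcard : Nat.card (K →+* N) = Module.finrank ℚ K) (w : 𝓞 K) :
    ((Algebra.trace ℤ (𝓞 K) w : ℤ) : 𝓞 N) = ∑ τ : K →+* N, RingOfIntegers.mapRingHom τ w := by
  apply RingOfIntegers.coe_injective
  have h1 := trace_emb hcard (w : K)
  rw [← Algebra.coe_trace_int] at h1
  rw [map_intCast, map_sum]
  rw [Rat.cast_intCast] at h1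
  rw [h1]
  rfl

/-- an integer in a prime above `p` is divisible by `p` -/
theorem dvd_of_mem (Q : Ideal (𝓞 N)) (hQ : Q.IsPrime) (hpQ : ((p : ℕ) : 𝓞 N) ∈ Q) (u : ℤ)
    (h : ((u : ℤ) : 𝓞 N) ∈ Q) : (p : ℤ) ∣ u := by
  by_contra hcon
  exact int_notMem Q hQ p Fact.out hpQ u hcon h

open Classical in
/-- the value and the derivative of the norm polynomial at one -/
theorem val_der (f : ℤ[X]) {X Y : 𝓞 K} (hf : f.map (Int.castRingHom (𝓞 N)) = nrmP K N X Y) :
    (((f.eval 1 : ℤ) : 𝓞 N) = ∏ τ : K →+* N, (RingOfIntegers.mapRingHom τ X +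
      RingOfIntegers.mapRingHom τ Y)) ∧
    ((((derivative f).eval 1 : ℤ) : 𝓞 N) = ∑ τ : K →+* N,
      (∏ σ ∈ Finset.univ.erase τ, (RingOfIntegers.mapRingHom σ X +
        RingOfIntegers.mapRingHom σ Y)) * RingOfIntegers.mapRingHom τ Y) := by
  have e : ∀ g : ℤ[X], ((g.eval 1 : ℤ) : 𝓞 N) = (g.map (Int.castRingHom (𝓞 N))).eval 1 := by
    intro g
    rw [eval_map, ← map_one (Int.castRingHom (𝓞 N)), eval₂_hom]
    rfl
  constructor
  · rw [e, hf, nrmP, eval_prod]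
    refine Finset.prod_congr rfl fun τ _ => ?_
    rw [eval_add, eval_mul, eval_C, eval_C, eval_X, one_mul]
  · rw [e, ← derivative_map, hf, nrmP, derivative_prod_finset, eval_finsetSum]
    refine Finset.sum_congr rfl fun τ _ => ?_
    rw [eval_mul, eval_prod]
    congr 1
    · refine Finset.prod_congr rfl fun σ _ => ?_
      rw [eval_add, eval_mul, eval_C, eval_C, eval_X, one_mul]
    · simp

/-- the derivative and the trace -/
theorem trace_rel (hcard : Nat.card (K →+* N) = Module.finrank ℚ K) {X Y Z : 𝓞 K}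
    (hs : Sol p K X Y Z) (f : ℤ[X]) (hf : f.map (Int.castRingHom (𝓞 N)) = nrmP K N X Y)
    (d : ℤ) (Z' : 𝓞 K) (hZ : Z * Z' = (d : 𝓞 K)) :
    (p : ℤ) ∣ d * (derivative f).eval 1 + Algebra.trace ℤ (𝓞 K) (Y * Z') * f.eval 1 := by
  classical
  have hpp : p.Prime := Fact.out
  obtain ⟨Q, hQ, hpQ⟩ := exists_above (K := N) p hpp
  apply dvd_of_mem Q hQ hpQ
  obtain ⟨v1, v2⟩ := val_der (K := K) (N := N) f hf
  have h1 := trace_int hcard (Y * Z')
  rw [Int.cast_add, Int.cast_mul, Int.cast_mul, v1, v2, h1, Finset.mul_sum, Finset.sum_mul,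
    ← Finset.sum_add_distrib]
  refine Q.sum_mem fun τ _ => ?_
  rw [← Finset.mul_prod_erase Finset.univ (fun σ : K →+* N => RingOfIntegers.mapRingHom σ X +
    RingOfIntegers.mapRingHom σ Y) (Finset.mem_univ τ)]
  have hd : ((d : ℤ) : 𝓞 N) = RingOfIntegers.mapRingHom τ Z * RingOfIntegers.mapRingHom τ Z' := by
    rw [← map_mul, hZ, map_intCast]
  have hlin : RingOfIntegers.mapRingHom τ X + RingOfIntegers.mapRingHom τ Y +
      RingOfIntegers.mapRingHom τ Z ∈ Q := by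
    rw [← map_add, ← map_add]
    exact lin_p hpp (Q.comap (RingOfIntegers.mapRingHom τ)) (hQ.comap _)
      (by rw [Ideal.mem_comap, map_natCast]; exact hpQ) hs.eq
  rw [hd, map_mul]
  have e : RingOfIntegers.mapRingHom τ Z * RingOfIntegers.mapRingHom τ Z' *
      ((∏ σ ∈ Finset.univ.erase τ, (RingOfIntegers.mapRingHom σ X +
        RingOfIntegers.mapRingHom σ Y)) * RingOfIntegers.mapRingHom τ Y) +
      RingOfIntegers.mapRingHom τ Y * RingOfIntegers.mapRingHom τ Z' *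
        ((RingOfIntegers.mapRingHom τ X + RingOfIntegers.mapRingHom τ Y) *
          ∏ σ ∈ Finset.univ.erase τ, (RingOfIntegers.mapRingHom σ X +
        RingOfIntegers.mapRingHom σ Y)) =
      (RingOfIntegers.mapRingHom τ Y * RingOfIntegers.mapRingHom τ Z' *
        ∏ σ ∈ Finset.univ.erase τ, (RingOfIntegers.mapRingHom σ X +
        RingOfIntegers.mapRingHom σ Y)) *
      (RingOfIntegers.mapRingHom τ X + RingOfIntegers.mapRingHom τ Y +
        RingOfIntegers.mapRingHom τ Z) := by ring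
  rw [e]
  exact Q.mul_mem_left _ hlin

/-- **The trace**: the congruence modulo `p` for the trace of `Y / Z` -/
theorem trace_cong (c : Cyc p E) (i : E →+* N) (hD : Dn p E N i)
    (hcard : Nat.card (K →+* N) = Module.finrank ℚ K) (hp2 : p ≠ 2) (q : ℕ) [Fact q.Prime]
    (hqp : q ≠ p) (hW : ¬ p ^ 2 ∣ q ^ (p - 1) - 1) (Q : Ideal (𝓞 N)) (hQ : Q.IsPrime)
    (hqQ : ((q : ℕ) : 𝓞 N) ∈ Q) {X Y Z : 𝓞 K} (hs : Sol p K X Y Z) (hl : LocQ q X Y Z) :
    padicNorm p (2 * Algebra.trace ℚ K ((Y : K) / (Z : K)) + (Module.finrank ℚ K : ℕ) +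
      (Nat.card {τ : K →+* N // RingOfIntegers.mapRingHom τ X ∈ Q} : ℕ) -
      (Nat.card {τ : K →+* N // RingOfIntegers.mapRingHom τ Y ∈ Q} : ℕ)) < 1 := by
  classical
  have hpp : p.Prime := Fact.out
  obtain ⟨f, hdeg, hc0, hcm, hev, hf'⟩ := Y290.WQ.mainNORM K X Y
  have hf := hf' N hcard
  obtain ⟨b1, b2, b3, b4, b5⟩ := base Y290.WQ.mainNORM hcard hs f hdeg hc0 hcm hev
  have k1 := logder c i hD hcard hp2 q hqp hW Q hQ hqQ hs hl f hdeg hc0 hcm hev hf
  -- the norm of `Z`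
  set d : ℕ := Ideal.absNorm (Ideal.span {Z}) with hd
  have hpd : ¬ (p : ℤ) ∣ (d : ℤ) := by
    rw [hd, Ideal.absNorm_span_singleton, Int.dvd_natAbs]
    exact norm_coprime hcard Y290.WQ.mainNORM p hpp Z fun P hP hpP => (hs.cp P hP hpP).2.2
  obtain ⟨Z', hZ'⟩ := Ideal.mem_span_singleton.1 (Ideal.absNorm_mem (Ideal.span {Z}))
  have hZd : Z * Z' = ((d : ℤ) : 𝓞 K) := by
    rw [← hZ', hd]
    push_cast
    rfl
  have k2 := trace_rel hcard hs f hf d Z' hZd
  set T : ℤ := Algebra.trace ℤ (𝓞 K) (Y * Z') with hT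
  set α := Nat.card {τ : K →+* N // RingOfIntegers.mapRingHom τ X ∈ Q}
  set β := Nat.card {τ : K →+* N // RingOfIntegers.mapRingHom τ Y ∈ Q}
  -- the congruence
  have hW1 : (p : ℤ) ∣ 2 * T + d * ((Module.finrank ℚ K : ℤ) + α - β) := by
    have e1 : (derivative (f.map (Int.castRingHom (ZMod p)))).eval 1 =
        (((derivative f).eval 1 : ℤ) : ZMod p) := by
      rw [derivative_map, eval_map, ← map_one (Int.castRingHom (ZMod p)), eval₂_hom]
      rfl
    have e2 : (f.map (Int.castRingHom (ZMod p))).eval 1 = ((f.eval 1 : ℤ) : ZMod p) := by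
      rw [eval_map, ← map_one (Int.castRingHom (ZMod p)), eval₂_hom]
      rfl
    rw [e1, e2] at k1
    rw [← ZMod.intCast_zmod_eq_zero_iff_dvd] at k2 ⊢
    push_cast at k2 ⊢
    have e3 : ((f.eval 1 : ℤ) : ZMod p) ≠ 0 := fun h =>
      b5 ((ZMod.intCast_zmod_eq_zero_iff_dvd _ p).1 h)
    apply (mul_eq_zero.1 (?_ : _ * ((f.eval 1 : ℤ) : ZMod p) = 0)).resolve_right e3
    linear_combination 2 * k2 - (d : ZMod p) * k1
  have hZ0 : (Z : K) ≠ 0 := by
    intro h
    exact hs.Z0 (RingOfIntegers.coe_injective (by rw [map_zero]; exact h))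
  have hTq : (d : ℚ) * Algebra.trace ℚ K ((Y : K) / (Z : K)) = (T : ℚ) := by
    rw [hT, Algebra.coe_trace_int, ← smul_eq_mul, ← map_smul]
    congr 1
    have e1 : (Z : K) * (Z' : K) = (d : K) := by
      have := congrArg (algebraMap (𝓞 K) K) hZd
      simpa using this
    rw [Algebra.smul_def]
    have e2 : algebraMap ℚ K (d : ℚ) = (d : K) := map_natCast _ _
    have e3 : ((Y * Z' : 𝓞 K) : K) = (Y : K) * (Z' : K) := map_mul _ _ _
    rw [e2, e3, ← e1]
    field_simp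
  have h1 : padicNorm p (d : ℚ) = 1 := by
    have := (padicNorm.int_eq_one_iff (p := p) (d : ℤ)).2 hpd
    simpa using this
  have h2 := (padicNorm.int_lt_one_iff (p := p) _).2 hW1
  have h3 : (((2 * T + d * ((Module.finrank ℚ K : ℤ) + α - β) : ℤ)) : ℚ) =
      (d : ℚ) * (2 * Algebra.trace ℚ K ((Y : K) / (Z : K)) + (Module.finrank ℚ K : ℕ) +
        (α : ℕ) - (β : ℕ)) := by
    push_cast
    linear_combination -2 * hTq
  rw [h3, padicNorm.mul, h1, one_mul] at h2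
  exact h2

end

end Pool.Agent.H50.FW
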