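import Pool.Agent.H50.FW.Fin

/-!
# Furtwängler's theorem over number fields: at most two residues above `p`
-/

set_option autoImplicit false

namespace Pool.Agent.H50.FW

open NumberField IsDedekindDomain Polynomial
open Pool.Agent.Y546.WQ Pool.Agent.W71.FS

/-- the algebra for at most two values -/
theorem two_vals {ι L : Type} [Fintype ι] [Field L] {p : ℕ} [CharP L p]
    (hc0 : 0 < Fintype.card ι) (hcp : Fintype.card ι < p) (t : ι → L) (ht : ∀ i, t i ≠ 0)
    (ht1 : ∀ i, 1 + t i ≠ 0) (c0 c1 c2 : L) (hc : ¬ (c0 = 0 ∧ c1 = 0 ∧ c2 = 0))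
    (hroot : ∀ i, c2 * t i ^ 2 + c1 * t i + c0 = 0) (h1 : ∑ i, t i = 0)
    (h2 : ∑ i, t i / (1 + t i) = 0) : False := by
  classical
  have hm : ((Fintype.card ι : ℕ) : L) ≠ 0 := by
    intro h
    have := Nat.le_of_dvd hc0 ((CharP.cast_eq_zero_iff L p _).1 h)
    omega
  obtain ⟨i1⟩ : Nonempty ι := Fintype.card_pos_iff.1 hc0
  by_cases hall : ∀ i, t i = t i1
  · rw [Finset.sum_congr rfl fun i _ => hall i, Finset.sum_const, Finset.card_univ,
      nsmul_eq_mul] at h1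
    exact mul_ne_zero hm (ht i1) h1
  · push Not at hall
    obtain ⟨i2, hi2⟩ := hall
    have r1 := hroot i1
    have r2 := hroot i2
    set a := t i1 with ha
    set b := t i2 with hb
    have hba : b - a ≠ 0 := sub_ne_zero.2 hi2
    have e1 : c1 = -c2 * (a + b) := by
      apply mul_left_cancel₀ hba
      linear_combination r2 - r1
    have e0 : c0 = c2 * (a * b) := by
      rw [e1] at r1
      linear_combination r1
    have hc2 : c2 ≠ 0 := by
      intro h
      apply hc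
      rw [e0, e1, h]
      simp
    have hval : ∀ i, t i = a ∨ t i = b := by
      intro i
      have r := hroot i
      rw [e0, e1] at r
      have h3 : c2 * ((t i - a) * (t i - b)) = 0 := by linear_combination r
      rcases mul_eq_zero.1 ((mul_eq_zero.1 h3).resolve_left hc2) with h | h
      · exact Or.inl (sub_eq_zero.1 h)
      · exact Or.inr (sub_eq_zero.1 h)
    have key : ∀ g : L → L, ∑ i, g (t i) =
        ((Finset.univ.filter fun i => t i = a).card : L) * g a +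
          ((Finset.univ.filter fun i => ¬ t i = a).card : L) * g b := by
      intro g
      rw [← Finset.sum_filter_add_sum_filter_not Finset.univ (fun i => t i = a)]
      congr 1
      · rw [Finset.sum_congr rfl (g := fun _ => g a), Finset.sum_const, nsmul_eq_mul]
        intro i hi
        rw [Finset.mem_filter] at hi
        rw [hi.2]
      · rw [Finset.sum_congr rfl (g := fun _ => g b), Finset.sum_const, nsmul_eq_mul]
        intro i hi
        rw [Finset.mem_filter] at hi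
        rw [(hval i).resolve_left hi.2]
    have hcard := Finset.card_filter_add_card_filter_not (s := (Finset.univ : Finset ι))
      (fun i => t i = a)
    rw [Finset.card_univ] at hcard
    have hcard' : (((Finset.univ.filter fun i => t i = a).card : ℕ) : L) +
        (((Finset.univ.filter fun i => ¬ t i = a).card : ℕ) : L) =
        ((Fintype.card ι : ℕ) : L) := by
      rw [← Nat.cast_add, hcard]
    have k1 := key (fun u => u)
    have k2 := key (fun u => u / (1 + u))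
    rw [h1] at k1
    rw [h2] at k2
    have hA1 := ht1 i1
    have hB1 := ht1 i2
    rw [← ha] at hA1
    rw [← hb] at hB1
    field_simp at k2
    have k3 : ((Fintype.card ι : ℕ) : L) * (a * b) = 0 := by
      rw [← hcard']
      linear_combination k1 - k2
    exact mul_ne_zero hm (mul_ne_zero (ht i1) (ht i2)) k3

/-- a quadratic relation modulo an ideal with at most `p ^ 2` residue classes -/
theorem exists_dep {K : Type} [Field K] [NumberField K] {p : ℕ} (hp : p.Prime)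
    (I : Ideal (𝓞 K)) (hpI : ((p : ℕ) : 𝓞 K) ∈ I) (hI : Nat.card (𝓞 K ⧸ I) ≤ p ^ 2)
    (X Y : 𝓞 K) : ∃ c0 c1 c2 : ℤ, ¬ ((p : ℤ) ∣ c0 ∧ (p : ℤ) ∣ c1 ∧ (p : ℤ) ∣ c2) ∧
      ((c2 : ℤ) : 𝓞 K) * X ^ 2 + ((c1 : ℤ) : 𝓞 K) * (X * Y) + ((c0 : ℤ) : 𝓞 K) * Y ^ 2 ∈ I := by
  classical
  have hfp : Fact p.Prime := ⟨hp⟩
  have hI0 : I ≠ ⊥ := by
    rintro rfl
    rw [Ideal.mem_bot, Nat.cast_eq_zero] at hpI
    exact hp.ne_zero hpI
  have hfin : Finite (𝓞 K ⧸ I) := Ideal.finiteQuotientOfFreeOfNeBot I hI0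
  have hft : Fintype (𝓞 K ⧸ I) := Fintype.ofFinite _
  let φ : (Fin 3 → ZMod p) → (𝓞 K ⧸ I) := fun c => Ideal.Quotient.mk I
    (((c 2).val : 𝓞 K) * X ^ 2 + ((c 1).val : 𝓞 K) * (X * Y) + ((c 0).val : 𝓞 K) * Y ^ 2)
  have hlt : Fintype.card (𝓞 K ⧸ I) < Fintype.card (Fin 3 → ZMod p) := by
    rw [← Nat.card_eq_fintype_card, Fintype.card_fun, ZMod.card, Fintype.card_fin]
    calc Nat.card (𝓞 K ⧸ I) ≤ p ^ 2 := hI
      _ < p ^ 3 := Nat.pow_lt_pow_right hp.one_lt (by norm_num)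
  obtain ⟨c, d, hcd, h⟩ := Fintype.exists_ne_map_eq_of_card_lt φ hlt
  refine ⟨((c 0).val : ℤ) - ((d 0).val : ℤ), ((c 1).val : ℤ) - ((d 1).val : ℤ),
    ((c 2).val : ℤ) - ((d 2).val : ℤ), ?_, ?_⟩
  · rintro ⟨h0, h1, h2⟩
    apply hcd
    have key : ∀ i, (p : ℤ) ∣ ((c i).val : ℤ) - ((d i).val : ℤ) → c i = d i := by
      intro i hi
      have h3 := (ZMod.intCast_zmod_eq_zero_iff_dvd _ p).2 hi
      push_cast at h3
      rw [ZMod.natCast_zmod_val, ZMod.natCast_zmod_val] at h3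
      exact sub_eq_zero.1 h3
    funext i
    fin_cases i
    · exact key 0 h0
    · exact key 1 h1
    · exact key 2 h2
  · have h3 := (Ideal.Quotient.eq (I := I)).1 h
    have e : (((((c 2).val : ℤ) - ((d 2).val : ℤ) : ℤ)) : 𝓞 K) * X ^ 2 +
        (((((c 1).val : ℤ) - ((d 1).val : ℤ) : ℤ)) : 𝓞 K) * (X * Y) +
        (((((c 0).val : ℤ) - ((d 0).val : ℤ) : ℤ)) : 𝓞 K) * Y ^ 2 =
        (((c 2).val : 𝓞 K) * X ^ 2 + ((c 1).val : 𝓞 K) * (X * Y) + ((c 0).val : 𝓞 K) * Y ^ 2) -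
        (((d 2).val : 𝓞 K) * X ^ 2 + ((d 1).val : 𝓞 K) * (X * Y) +
          ((d 0).val : 𝓞 K) * Y ^ 2) := by
      push_cast
      ring
    rw [e]
    exact h3

/-- the residue ring modulo the radical of `p` in degree at most two -/
theorem card_rad {K : Type} [Field K] [NumberField K] {p : ℕ} (hp : p.Prime)
    (hm : Module.finrank ℚ K ≤ 2) :
    Nat.card (𝓞 K ⧸ (Ideal.span {((p : ℕ) : 𝓞 K)}).radical) ≤ p ^ 2 := by
  have h0 : Ideal.span {((p : ℕ) : 𝓞 K)} ≠ ⊥ := by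
    rw [Ne, Ideal.span_singleton_eq_bot, Nat.cast_eq_zero]
    exact hp.ne_zero
  have hfin : Finite (𝓞 K ⧸ Ideal.span {((p : ℕ) : 𝓞 K)}) :=
    Ideal.finiteQuotientOfFreeOfNeBot _ h0
  have h1 : Nat.card (𝓞 K ⧸ (Ideal.span {((p : ℕ) : 𝓞 K)}).radical) ≤
      Nat.card (𝓞 K ⧸ Ideal.span {((p : ℕ) : 𝓞 K)}) :=
    Nat.card_le_card_of_surjective (Ideal.Quotient.factor Ideal.le_radical)
      (Ideal.Quotient.factor_surjective Ideal.le_radical)
  have h2 : Nat.card (𝓞 K ⧸ Ideal.span {((p : ℕ) : 𝓞 K)}) = p ^ Module.finrank ℚ K := by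
    have h3 : Ideal.absNorm (Ideal.span {((p : ℕ) : 𝓞 K)}) = p ^ Module.finrank ℚ K := by
      rw [Ideal.absNorm_span_singleton, Algebra.norm_natCast, RingOfIntegers.rank K,
        Int.natAbs_pow, Int.natAbs_natCast]
    rw [← h3]
    rfl
  rw [h2] at h1
  exact h1.trans (Nat.pow_le_pow_right hp.pos hm)

section

variable {p : ℕ} [Fact p.Prime] {E : Type} [Field E] [NumberField E]
  {K N : Type} [Field K] [NumberField K] [Field N] [NumberField N]

/-- the logarithmic derivative as a sum over the embeddings, modulo a prime above `p` -/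
theorem sum_res (c : Cyc p E) (i : E →+* N) (hD : Dn p E N i)
    (hcard : Nat.card (K →+* N) = Module.finrank ℚ K) (hp2 : p ≠ 2) (q : ℕ) [Fact q.Prime]
    (hqp : q ≠ p) (hW : ¬ p ^ 2 ∣ q ^ (p - 1) - 1) (Q : Ideal (𝓞 N)) (hQ : Q.IsPrime)
    (hqQ : ((q : ℕ) : 𝓞 N) ∈ Q) {X Y Z : 𝓞 K} (hs : Sol p K X Y Z) (hl : LocQ q X Y Z)
    {L : Type} [Field L] [CharP L p] (ψ : 𝓞 N →+* L)
    (hne : ∀ τ : K →+* N, ψ (RingOfIntegers.mapRingHom τ X) +
      ψ (RingOfIntegers.mapRingHom τ Y) ≠ 0) :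
    2 * ∑ τ : K →+* N, ψ (RingOfIntegers.mapRingHom τ Y) /
      (ψ (RingOfIntegers.mapRingHom τ X) + ψ (RingOfIntegers.mapRingHom τ Y)) =
      (Module.finrank ℚ K : L) +
        (Nat.card {τ : K →+* N // RingOfIntegers.mapRingHom τ X ∈ Q} : ℕ) -
        (Nat.card {τ : K →+* N // RingOfIntegers.mapRingHom τ Y ∈ Q} : ℕ) := by
  classical
  have hpp : p.Prime := Fact.out
  obtain ⟨f, hdeg, hc0, hcm, hev, hf'⟩ := Y290.WQ.mainNORM K X Y
  have hf := hf' N hcard
  have k1 := logder c i hD hcard hp2 q hqp hW Q hQ hqQ hs hl f hdeg hc0 hcm hev hf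
  obtain ⟨v1, v2⟩ := val_der (K := K) (N := N) f hf
  have w1 := congrArg ψ v1
  have w2 := congrArg ψ v2
  rw [map_intCast, map_prod] at w1
  rw [map_intCast, map_sum] at w2
  simp only [map_mul, map_prod, map_add] at w1 w2
  have e1 : (derivative (f.map (Int.castRingHom (ZMod p)))).eval 1 =
      (((derivative f).eval 1 : ℤ) : ZMod p) := by
    rw [derivative_map, eval_map, ← map_one (Int.castRingHom (ZMod p)), eval₂_hom]
    rfl
  have e2 : (f.map (Int.castRingHom (ZMod p))).eval 1 = ((f.eval 1 : ℤ) : ZMod p) := by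
    rw [eval_map, ← map_one (Int.castRingHom (ZMod p)), eval₂_hom]
    rfl
  rw [e1, e2] at k1
  have k2 := congrArg (ZMod.castHom (dvd_refl p) L) k1
  rw [map_mul, map_mul, map_intCast, map_intCast, map_ofNat, map_sub, map_add, map_natCast,
    map_natCast, map_natCast, w1, w2] at k2
  have hP : ∏ τ : K →+* N, (ψ (RingOfIntegers.mapRingHom τ X) +
      ψ (RingOfIntegers.mapRingHom τ Y)) ≠ 0 := Finset.prod_ne_zero_iff.2 fun τ _ => hne τ
  apply mul_right_cancel₀ hP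
  rw [← k2, mul_assoc, Finset.sum_mul]
  congr 1
  refine Finset.sum_congr rfl fun τ _ => ?_
  rw [← Finset.mul_prod_erase Finset.univ (fun σ : K →+* N =>
    ψ (RingOfIntegers.mapRingHom σ X) + ψ (RingOfIntegers.mapRingHom σ Y)) (Finset.mem_univ τ)]
  have h1 := hne τ
  field_simp

/-- **At most two residues**: it is impossible that all primes above `q` divide `X` -/
theorem mainRad (c : Cyc p E) (i : E →+* N) (hD : Dn p E N i)
    (hcard : Nat.card (K →+* N) = Module.finrank ℚ K) (hmp : Module.finrank ℚ K < p)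
    (hp2 : p ≠ 2) (q : ℕ) [Fact q.Prime]
    (hqp : q ≠ p) (hW : ¬ p ^ 2 ∣ q ^ (p - 1) - 1) (Q : Ideal (𝓞 N)) (hQ : Q.IsPrime)
    (hqQ : ((q : ℕ) : 𝓞 N) ∈ Q) {X Y Z : 𝓞 K} (hs : Sol p K X Y Z) (hs' : Sol p K X Z Y)
    (hl : LocQ q X Y Z) (hl' : LocQ q X Z Y)
    (hX : Nat.card {τ : K →+* N // RingOfIntegers.mapRingHom τ X ∈ Q} = Module.finrank ℚ K)
    (hY : Nat.card {τ : K →+* N // RingOfIntegers.mapRingHom τ Y ∈ Q} = 0)
    (hZ : Nat.card {τ : K →+* N // RingOfIntegers.mapRingHom τ Z ∈ Q} = 0)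
    (hR : Nat.card (𝓞 K ⧸ (Ideal.span {((p : ℕ) : 𝓞 K)}).radical) ≤ p ^ 2) : False := by
  classical
  have hpp : p.Prime := Fact.out
  obtain ⟨R, hRp, hpR⟩ := exists_above (K := N) p hpp
  have hR0 : R ≠ ⊥ := by
    rintro rfl
    rw [Ideal.mem_bot, Nat.cast_eq_zero] at hpR
    exact hpp.ne_zero hpR
  have hRm : R.IsMaximal := hRp.isMaximal hR0
  let _ : Field (𝓞 N ⧸ R) := Ideal.Quotient.field R
  have hch : CharP (𝓞 N ⧸ R) p := charP_quot R hRp p hpp hpR
  set ψ : 𝓞 N →+* (𝓞 N ⧸ R) := Ideal.Quotient.mk R with hψ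
  have h0 : ∀ w : 𝓞 N, ψ w = 0 ↔ w ∈ R := fun w => Ideal.Quotient.eq_zero_iff_mem
  have hPτ : ∀ τ : K →+* N, (R.comap (RingOfIntegers.mapRingHom τ)).IsPrime :=
    fun τ => hRp.comap _
  have hpτ : ∀ τ : K →+* N, ((p : ℕ) : 𝓞 K) ∈ R.comap (RingOfIntegers.mapRingHom τ) := by
    intro τ
    rw [Ideal.mem_comap, map_natCast]
    exact hpR
  have hlin : ∀ τ : K →+* N, ψ (RingOfIntegers.mapRingHom τ X) +
      ψ (RingOfIntegers.mapRingHom τ Y) + ψ (RingOfIntegers.mapRingHom τ Z) = 0 := by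
    intro τ
    rw [← map_add, ← map_add, ← map_add, ← map_add, h0]
    exact lin_p hpp _ (hPτ τ) (hpτ τ) hs.eq
  have hXn : ∀ τ : K →+* N, ψ (RingOfIntegers.mapRingHom τ X) ≠ 0 := fun τ h =>
    (hs.cp _ (hPτ τ) (hpτ τ)).1 ((h0 _).1 h)
  have hYn : ∀ τ : K →+* N, ψ (RingOfIntegers.mapRingHom τ Y) ≠ 0 := fun τ h =>
    (hs.cp _ (hPτ τ) (hpτ τ)).2.1 ((h0 _).1 h)
  have hZn : ∀ τ : K →+* N, ψ (RingOfIntegers.mapRingHom τ Z) ≠ 0 := fun τ h =>
    (hs.cp _ (hPτ τ) (hpτ τ)).2.2 ((h0 _).1 h)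
  have hXY : ∀ τ : K →+* N, ψ (RingOfIntegers.mapRingHom τ X) +
      ψ (RingOfIntegers.mapRingHom τ Y) ≠ 0 := by
    intro τ h
    apply hZn τ
    linear_combination hlin τ - h
  have hXZ : ∀ τ : K →+* N, ψ (RingOfIntegers.mapRingHom τ X) +
      ψ (RingOfIntegers.mapRingHom τ Z) ≠ 0 := by
    intro τ h
    apply hYn τ
    linear_combination hlin τ - h
  have s1 := sum_res c i hD hcard hp2 q hqp hW Q hQ hqQ hs hl ψ hXY
  have s2 := sum_res c i hD hcard hp2 q hqp hW Q hQ hqQ hs' hl' ψ hXZ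
  rw [hX, hY, Nat.cast_zero, sub_zero] at s1
  rw [hX, hZ, Nat.cast_zero, sub_zero] at s2
  have h2 : (2 : 𝓞 N ⧸ R) ≠ 0 := by
    intro h
    have h3 : ((2 : ℕ) : 𝓞 N ⧸ R) = 0 := by exact_mod_cast h
    have h4 := (CharP.cast_eq_zero_iff (𝓞 N ⧸ R) p 2).1 h3
    exact hp2 ((Nat.prime_dvd_prime_iff_eq hpp Nat.prime_two).1 h4)
  have hone : ∑ τ : K →+* N, (1 : 𝓞 N ⧸ R) = (Module.finrank ℚ K : 𝓞 N ⧸ R) := by
    rw [Finset.sum_const, Finset.card_univ, nsmul_one, ← Nat.card_eq_fintype_card, hcard]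
  obtain ⟨c0, c1, c2, hc, hcI⟩ := exists_dep hpp _ (Ideal.le_radical
    (Ideal.mem_span_singleton_self ((p : ℕ) : 𝓞 K))) hR X Y
  have hcard' : Fintype.card (K →+* N) = Module.finrank ℚ K := by
    rw [← hcard, Nat.card_eq_fintype_card]
  have hz : ∀ u : ℤ, ((u : ℤ) : 𝓞 N ⧸ R) = 0 → (p : ℤ) ∣ u := fun u hu =>
    (CharP.intCast_eq_zero_iff (𝓞 N ⧸ R) p u).1 hu
  refine two_vals (p := p) (ι := K →+* N) (L := 𝓞 N ⧸ R)
    (by rw [hcard']; exact Module.finrank_pos) (by rw [hcard']; exact hmp)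
    (fun τ => ψ (RingOfIntegers.mapRingHom τ X) / ψ (RingOfIntegers.mapRingHom τ Y))
    (fun τ => div_ne_zero (hXn τ) (hYn τ)) (fun τ h => ?_) ((c0 : ℤ) : 𝓞 N ⧸ R)
    ((c1 : ℤ) : 𝓞 N ⧸ R) ((c2 : ℤ) : 𝓞 N ⧸ R)
    (fun h => hc ⟨hz _ h.1, hz _ h.2.1, hz _ h.2.2⟩) (fun τ => ?_) ?_ ?_
  · apply hXY τ
    have := hYn τ
    field_simp at h
    linear_combination h
  · have h3 : (Ideal.span {((p : ℕ) : 𝓞 K)}).radical ≤ R.comap (RingOfIntegers.mapRingHom τ) := by
      rw [(hPτ τ).radical_le_iff, Ideal.span_singleton_le_iff_mem]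
      exact hpτ τ
    have h4 := h3 hcI
    rw [Ideal.mem_comap, ← h0] at h4
    simp only [map_add, map_mul, map_pow, map_intCast] at h4
    have := hYn τ
    field_simp
    linear_combination h4
  · -- the pair `X, Z`
    have e : ∑ τ : K →+* N, ψ (RingOfIntegers.mapRingHom τ X) / ψ (RingOfIntegers.mapRingHom τ Y) =
        ∑ τ : K →+* N, ψ (RingOfIntegers.mapRingHom τ Z) /
          (ψ (RingOfIntegers.mapRingHom τ X) + ψ (RingOfIntegers.mapRingHom τ Z)) -
        ∑ τ : K →+* N, (1 : 𝓞 N ⧸ R) := by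
      rw [← Finset.sum_sub_distrib]
      refine Finset.sum_congr rfl fun τ _ => ?_
      have e1 : ψ (RingOfIntegers.mapRingHom τ X) + ψ (RingOfIntegers.mapRingHom τ Z) =
          -ψ (RingOfIntegers.mapRingHom τ Y) := by linear_combination hlin τ
      have e2 : ψ (RingOfIntegers.mapRingHom τ Z) = -ψ (RingOfIntegers.mapRingHom τ X) -
          ψ (RingOfIntegers.mapRingHom τ Y) := by linear_combination hlin τ
      rw [e1, e2]
      have := hYn τ
      field_simp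
      ring
    rw [e, hone]
    apply mul_left_cancel₀ h2
    linear_combination s2
  · have e : ∑ τ : K →+* N, ψ (RingOfIntegers.mapRingHom τ X) /
        ψ (RingOfIntegers.mapRingHom τ Y) / (1 + ψ (RingOfIntegers.mapRingHom τ X) /
        ψ (RingOfIntegers.mapRingHom τ Y)) =
        ∑ τ : K →+* N, (1 : 𝓞 N ⧸ R) - ∑ τ : K →+* N, ψ (RingOfIntegers.mapRingHom τ Y) /
          (ψ (RingOfIntegers.mapRingHom τ X) + ψ (RingOfIntegers.mapRingHom τ Y)) := by
      rw [← Finset.sum_sub_distrib]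
      refine Finset.sum_congr rfl fun τ _ => ?_
      have h5 := hYn τ
      have h6 := hXY τ
      have h7 : 1 + ψ (RingOfIntegers.mapRingHom τ X) / ψ (RingOfIntegers.mapRingHom τ Y) =
          (ψ (RingOfIntegers.mapRingHom τ X) + ψ (RingOfIntegers.mapRingHom τ Y)) /
            ψ (RingOfIntegers.mapRingHom τ Y) := by
        field_simp
        ring
      rw [h7, div_div_div_cancel_right₀ h5]
      field_simp
      ring
    show ∑ τ : K →+* N, ψ (RingOfIntegers.mapRingHom τ X) /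
        ψ (RingOfIntegers.mapRingHom τ Y) / (1 + ψ (RingOfIntegers.mapRingHom τ X) /
        ψ (RingOfIntegers.mapRingHom τ Y)) = 0
    rw [e, hone]
    apply mul_left_cancel₀ h2
    linear_combination -s1

end

end Pool.Agent.H50.FW
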