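import Pool.Agent.H50.FW.Rad

/-!
# Furtwängler's theorem over number fields: at most two residues above `p`, and equal degrees
-/

set_option autoImplicit false

namespace Pool.Agent.H50.FW

open NumberField IsDedekindDomain Polynomial
open Pool.Agent.Y546.WQ Pool.Agent.W71.FS

/-- the algebra for at most two values, second form -/
theorem two_vals2 {ι L : Type} [Fintype ι] [Field L] {p : ℕ} [CharP L p] (hp : p.Prime)
    (hp2 : p ≠ 2) (hp3 : p ≠ 3)
    (hc0 : 0 < Fintype.card ι) (hcp : Fintype.card ι < p) (t : ι → L) (ht : ∀ i, t i ≠ 0)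
    (ht1 : ∀ i, 1 + t i ≠ 0) (c0 c1 c2 : L) (hc : ¬ (c0 = 0 ∧ c1 = 0 ∧ c2 = 0))
    (hroot : ∀ i, c2 * t i ^ 2 + c1 * t i + c0 = 0)
    (h1 : 2 * ∑ i, t i = -((Fintype.card ι : ℕ) : L))
    (h2 : 2 * ∑ i, 1 / (1 + t i) = ((Fintype.card ι : ℕ) : L))
    (h3 : 2 * ∑ i, 1 / t i = -((Fintype.card ι : ℕ) : L)) :
    Even (Fintype.card ι) ∧ (∀ i, t i ^ 2 + t i + 1 = 0) ∧ ∃ i j, t i ≠ t j := by
  classical
  have hm : ((Fintype.card ι : ℕ) : L) ≠ 0 := by
    intro h
    have := Nat.le_of_dvd hc0 ((CharP.cast_eq_zero_iff L p _).1 h)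
    omega
  have hn3 : (3 : L) ≠ 0 := by
    intro h
    have h4 : ((3 : ℕ) : L) = 0 := by exact_mod_cast h
    exact hp3 ((Nat.prime_dvd_prime_iff_eq hp Nat.prime_three).1
      ((CharP.cast_eq_zero_iff L p 3).1 h4))
  have hn2 : (2 : L) ≠ 0 := by
    intro h
    have h4 : ((2 : ℕ) : L) = 0 := by exact_mod_cast h
    exact hp2 ((Nat.prime_dvd_prime_iff_eq hp Nat.prime_two).1
      ((CharP.cast_eq_zero_iff L p 2).1 h4))
  obtain ⟨i1⟩ : Nonempty ι := Fintype.card_pos_iff.1 hc0
  by_cases hall : ∀ i, t i = t i1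
  · exfalso
    rw [Finset.sum_congr rfl fun i _ => hall i, Finset.sum_const, Finset.card_univ,
      nsmul_eq_mul] at h1
    rw [Finset.sum_congr rfl (g := fun _ => 1 / t i1) fun i _ => by rw [hall i],
      Finset.sum_const, Finset.card_univ, nsmul_eq_mul] at h3
    have h4 : 2 * t i1 = -1 := by
      apply mul_left_cancel₀ hm
      linear_combination h1
    have h5 : 2 = -t i1 := by
      have h6 := ht i1
      field_simp at h3
      exact h3
    apply hn3
    linear_combination 2 * h5 - h4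
  · push Not at hall
    obtain ⟨i2, hi2⟩ := hall
    have r1 := hroot i1
    have r2 := hroot i2
    have hex : ∃ i j, t i ≠ t j := ⟨i2, i1, hi2⟩
    set a := t i1 with ha
    set b := t i2 with hb
    have hba : b - a ≠ 0 := sub_ne_zero.2 hi2
    have e1 : c1 = -c2 * (a + b) := by
      apply mul_left_cancel₀ hba
      linear_combination r2 - r1
    have e0 : c0 = c2 * (a * b) := by
      rw [e1] at r1
      linear_combination r1
    have hc2 : c2 ≠ 0 := by
      intro h
      apply hc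
      rw [e0, e1, h]
      simp
    have hval : ∀ i, t i = a ∨ t i = b := by
      intro i
      have r := hroot i
      rw [e0, e1] at r
      have h3 : c2 * ((t i - a) * (t i - b)) = 0 := by linear_combination r
      rcases mul_eq_zero.1 ((mul_eq_zero.1 h3).resolve_left hc2) with h | h
      · exact Or.inl (sub_eq_zero.1 h)
      · exact Or.inr (sub_eq_zero.1 h)
    have key : ∀ g : L → L, ∑ i, g (t i) =
        ((Finset.univ.filter fun i => t i = a).card : L) * g a +
          ((Finset.univ.filter fun i => ¬ t i = a).card : L) * g b := by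
      intro g
      rw [← Finset.sum_filter_add_sum_filter_not Finset.univ (fun i => t i = a)]
      congr 1
      · rw [Finset.sum_congr rfl (g := fun _ => g a), Finset.sum_const, nsmul_eq_mul]
        intro i hi
        rw [Finset.mem_filter] at hi
        rw [hi.2]
      · rw [Finset.sum_congr rfl (g := fun _ => g b), Finset.sum_const, nsmul_eq_mul]
        intro i hi
        rw [Finset.mem_filter] at hi
        rw [(hval i).resolve_left hi.2]
    have hcard := Finset.card_filter_add_card_filter_not (s := (Finset.univ : Finset ι))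
      (fun i => t i = a)
    rw [Finset.card_univ] at hcard
    set A := (Finset.univ.filter fun i => t i = a).card with hA
    set B := (Finset.univ.filter fun i => ¬ t i = a).card with hB
    have hcard' : ((A : ℕ) : L) + ((B : ℕ) : L) = ((Fintype.card ι : ℕ) : L) := by
      rw [← Nat.cast_add, hcard]
    have k1 := key (fun u => u)
    have k2 := key (fun u => 1 / (1 + u))
    have k3 := key (fun u => 1 / u)
    rw [k1, ← hcard'] at h1
    rw [k2, ← hcard'] at h2
    rw [k3, ← hcard'] at h3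
    have hA0 := ht i1
    have hB0 := ht i2
    have hA1 := ht1 i1
    have hB1 := ht1 i2
    rw [← ha] at hA1 hA0
    rw [← hb] at hB1 hB0
    field_simp at h2 h3
    have k4 : (3 * (b - a)) * ((A : L) - (B : L)) = 0 := by
      linear_combination h3 + h2 - h1
    have hAB : (A : L) = B :=
      sub_eq_zero.1 ((mul_eq_zero.1 k4).resolve_left (mul_ne_zero hn3 hba))
    have hABn : A = B := by
      have hmod : A ≡ B [MOD p] := (CharP.natCast_eq_natCast L p).1 hAB
      exact Nat.ModEq.eq_of_lt_of_lt hmod (by omega) (by omega)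
    have hAne : (A : L) ≠ 0 := by
      intro h
      apply hm
      rw [← hcard', ← hAB, h, add_zero]
    have hsum : a + b = -1 := by
      apply mul_left_cancel₀ (mul_ne_zero hn2 hAne)
      rw [← hAB] at h1
      linear_combination h1
    have hprod : a * b = 1 := by
      apply mul_left_cancel₀ (mul_ne_zero hn2 hAne)
      rw [← hAB] at h3
      linear_combination h3 - 2 * A * hsum
    refine ⟨⟨A, by omega⟩, fun i => ?_, hex⟩
    rcases hval i with h | h
    · rw [h]
      linear_combination a * hsum - hprod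
    · rw [h]
      linear_combination b * hsum - hprod

section

variable {p : ℕ} [Fact p.Prime] {E : Type} [Field E] [NumberField E]
  {K N : Type} [Field K] [NumberField K] [Field N] [NumberField N]

/-- a cube root of unity modulo `p` -/
theorem exists_cube (h : p % 3 = 1) : ∃ g : ZMod p, g ^ 2 + g + 1 = 0 := by
  have hpp : p.Prime := Fact.out
  have h3 : Fact (Nat.Prime 3) := ⟨Nat.prime_three⟩
  have hd : 3 ∣ Nat.card (ZMod p)ˣ := by
    rw [Nat.card_eq_fintype_card, ZMod.card_units]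
    have := hpp.one_lt
    omega
  obtain ⟨g, hg⟩ := exists_prime_orderOf_dvd_card' 3 hd
  refine ⟨(g : ZMod p), ?_⟩
  have h1 : g ^ 3 = 1 := by rw [← hg]; exact pow_orderOf_eq_one g
  have h2 : g ≠ 1 := by
    rintro rfl
    rw [orderOf_one] at hg
    norm_num at hg
  have h4 : ((g : ZMod p) - 1) * ((g : ZMod p) ^ 2 + g + 1) = 0 := by
    have h5 : (g : ZMod p) ^ 3 = 1 := by
      rw [← Units.val_pow_eq_pow_val, h1, Units.val_one]
    linear_combination h5
  refine (mul_eq_zero.1 h4).resolve_left fun h5 => h2 (Units.ext ?_)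
  rw [Units.val_one]
  exact sub_eq_zero.1 h5

/-- **At most two residues above `p`, one prime above `q`**: cube roots of unity -/
theorem mainRad2 (c : Cyc p E) (i : E →+* N) (hD : Dn p E N i)
    (hcard : Nat.card (K →+* N) = Module.finrank ℚ K) (hmp : Module.finrank ℚ K < p)
    (hp2 : p ≠ 2) (hp3 : p ≠ 3) (q : ℕ) [Fact q.Prime]
    (hqp : q ≠ p) (hW : ¬ p ^ 2 ∣ q ^ (p - 1) - 1) (Q : Ideal (𝓞 N)) (hQ : Q.IsPrime)
    (hqQ : ((q : ℕ) : 𝓞 N) ∈ Q) {X Y Z : 𝓞 K} (hs : Sol p K X Y Z) (hs' : Sol p K X Z Y)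
    (hs'' : Sol p K Y Z X)
    (hl : LocQ q X Y Z) (hl' : LocQ q X Z Y) (hl'' : LocQ q Y Z X)
    (hXY' : Nat.card {τ : K →+* N // RingOfIntegers.mapRingHom τ X ∈ Q} =
      Nat.card {τ : K →+* N // RingOfIntegers.mapRingHom τ Y ∈ Q})
    (hXZ' : Nat.card {τ : K →+* N // RingOfIntegers.mapRingHom τ X ∈ Q} =
      Nat.card {τ : K →+* N // RingOfIntegers.mapRingHom τ Z ∈ Q})
    (hR : Nat.card (𝓞 K ⧸ (Ideal.span {((p : ℕ) : 𝓞 K)}).radical) ≤ p ^ 2) :
    Even (Module.finrank ℚ K) ∧ (∀ P ∈ above p K, X ^ 2 + X * Y + Y ^ 2 ∈ P) ∧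
    (p % 3 = 1 → ∃ P ∈ above p K, ∃ P' ∈ above p K, P ≠ P') ∧
    (p % 3 = 2 → ∀ P ∈ above p K, Nat.card (𝓞 K ⧸ P) ≠ p) := by
  classical
  have hpp : p.Prime := Fact.out
  obtain ⟨R, hRp, hpR⟩ := exists_above (K := N) p hpp
  have hR0 : R ≠ ⊥ := by
    rintro rfl
    rw [Ideal.mem_bot, Nat.cast_eq_zero] at hpR
    exact hpp.ne_zero hpR
  have hRm : R.IsMaximal := hRp.isMaximal hR0
  let _ : Field (𝓞 N ⧸ R) := Ideal.Quotient.field R
  have hch : CharP (𝓞 N ⧸ R) p := charP_quot R hRp p hpp hpR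
  set ψ : 𝓞 N →+* (𝓞 N ⧸ R) := Ideal.Quotient.mk R with hψ
  have h0 : ∀ w : 𝓞 N, ψ w = 0 ↔ w ∈ R := fun w => Ideal.Quotient.eq_zero_iff_mem
  have hPτ : ∀ τ : K →+* N, (R.comap (RingOfIntegers.mapRingHom τ)).IsPrime :=
    fun τ => hRp.comap _
  have hpτ : ∀ τ : K →+* N, ((p : ℕ) : 𝓞 K) ∈ R.comap (RingOfIntegers.mapRingHom τ) := by
    intro τ
    rw [Ideal.mem_comap, map_natCast]
    exact hpR
  have hlin : ∀ τ : K →+* N, ψ (RingOfIntegers.mapRingHom τ X) +
      ψ (RingOfIntegers.mapRingHom τ Y) + ψ (RingOfIntegers.mapRingHom τ Z) = 0 := by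
    intro τ
    rw [← map_add, ← map_add, ← map_add, ← map_add, h0]
    exact lin_p hpp _ (hPτ τ) (hpτ τ) hs.eq
  have hXn : ∀ τ : K →+* N, ψ (RingOfIntegers.mapRingHom τ X) ≠ 0 := fun τ h =>
    (hs.cp _ (hPτ τ) (hpτ τ)).1 ((h0 _).1 h)
  have hYn : ∀ τ : K →+* N, ψ (RingOfIntegers.mapRingHom τ Y) ≠ 0 := fun τ h =>
    (hs.cp _ (hPτ τ) (hpτ τ)).2.1 ((h0 _).1 h)
  have hZn : ∀ τ : K →+* N, ψ (RingOfIntegers.mapRingHom τ Z) ≠ 0 := fun τ h =>
    (hs.cp _ (hPτ τ) (hpτ τ)).2.2 ((h0 _).1 h)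
  have hXY : ∀ τ : K →+* N, ψ (RingOfIntegers.mapRingHom τ X) +
      ψ (RingOfIntegers.mapRingHom τ Y) ≠ 0 := by
    intro τ h
    apply hZn τ
    linear_combination hlin τ - h
  have hXZ : ∀ τ : K →+* N, ψ (RingOfIntegers.mapRingHom τ X) +
      ψ (RingOfIntegers.mapRingHom τ Z) ≠ 0 := by
    intro τ h
    apply hYn τ
    linear_combination hlin τ - h
  have hYZ : ∀ τ : K →+* N, ψ (RingOfIntegers.mapRingHom τ Y) +
      ψ (RingOfIntegers.mapRingHom τ Z) ≠ 0 := by
    intro τ h
    apply hXn τ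
    linear_combination hlin τ - h
  have s1 := sum_res c i hD hcard hp2 q hqp hW Q hQ hqQ hs hl ψ hXY
  have s2 := sum_res c i hD hcard hp2 q hqp hW Q hQ hqQ hs' hl' ψ hXZ
  have s3 := sum_res c i hD hcard hp2 q hqp hW Q hQ hqQ hs'' hl'' ψ hYZ
  rw [← hXY', add_sub_cancel_right] at s1
  rw [← hXZ', add_sub_cancel_right] at s2
  rw [← hXY', ← hXZ', add_sub_cancel_right] at s3
  have hcard' : Fintype.card (K →+* N) = Module.finrank ℚ K := by
    rw [← hcard, Nat.card_eq_fintype_card]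
  have hone : ∑ τ : K →+* N, (1 : 𝓞 N ⧸ R) = (Module.finrank ℚ K : 𝓞 N ⧸ R) := by
    rw [Finset.sum_const, Finset.card_univ, nsmul_one, hcard']
  obtain ⟨c0, c1, c2, hc, hcI⟩ := exists_dep hpp _ (Ideal.le_radical
    (Ideal.mem_span_singleton_self ((p : ℕ) : 𝓞 K))) hR X Y
  have hz : ∀ u : ℤ, ((u : ℤ) : 𝓞 N ⧸ R) = 0 → (p : ℤ) ∣ u := fun u hu =>
    (CharP.intCast_eq_zero_iff (𝓞 N ⧸ R) p u).1 hu
  set t : (K →+* N) → 𝓞 N ⧸ R := fun τ => ψ (RingOfIntegers.mapRingHom τ X) /
    ψ (RingOfIntegers.mapRingHom τ Y) with ht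
  have htv : ∀ τ, t τ = ψ (RingOfIntegers.mapRingHom τ X) /
    ψ (RingOfIntegers.mapRingHom τ Y) := fun τ => rfl
  obtain ⟨k1, k2, k3⟩ := two_vals2 (p := p) hpp hp2 hp3 (ι := K →+* N) (L := 𝓞 N ⧸ R)
    (by rw [hcard']; exact Module.finrank_pos) (by rw [hcard']; exact hmp)
    t (fun τ => div_ne_zero (hXn τ) (hYn τ)) (fun τ h => by
      apply hXY τ
      have := hYn τ
      rw [htv] at h
      field_simp at h
      linear_combination h) ((c0 : ℤ) : 𝓞 N ⧸ R)
    ((c1 : ℤ) : 𝓞 N ⧸ R) ((c2 : ℤ) : 𝓞 N ⧸ R)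
    (fun h => hc ⟨hz _ h.1, hz _ h.2.1, hz _ h.2.2⟩) (fun τ => by
      have h3 : (Ideal.span {((p : ℕ) : 𝓞 K)}).radical ≤
          R.comap (RingOfIntegers.mapRingHom τ) := by
        rw [(hPτ τ).radical_le_iff, Ideal.span_singleton_le_iff_mem]
        exact hpτ τ
      have h4 := h3 hcI
      rw [Ideal.mem_comap, ← h0] at h4
      simp only [map_add, map_mul, map_pow, map_intCast] at h4
      have := hYn τ
      rw [htv]
      field_simp
      linear_combination h4) (by
      have e : ∑ τ : K →+* N, t τ =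
          ∑ τ : K →+* N, ψ (RingOfIntegers.mapRingHom τ Z) /
            (ψ (RingOfIntegers.mapRingHom τ X) + ψ (RingOfIntegers.mapRingHom τ Z)) -
          ∑ τ : K →+* N, (1 : 𝓞 N ⧸ R) := by
        rw [← Finset.sum_sub_distrib]
        refine Finset.sum_congr rfl fun τ _ => ?_
        have e1 : ψ (RingOfIntegers.mapRingHom τ X) + ψ (RingOfIntegers.mapRingHom τ Z) =
            -ψ (RingOfIntegers.mapRingHom τ Y) := by linear_combination hlin τ
        have e2 : ψ (RingOfIntegers.mapRingHom τ Z) = -ψ (RingOfIntegers.mapRingHom τ X) -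
            ψ (RingOfIntegers.mapRingHom τ Y) := by linear_combination hlin τ
        rw [e1, e2, htv]
        have := hYn τ
        field_simp
        ring
      rw [e, hone, hcard']
      linear_combination s2) (by
      have e : ∑ τ : K →+* N, 1 / (1 + t τ) =
          ∑ τ : K →+* N, ψ (RingOfIntegers.mapRingHom τ Y) /
            (ψ (RingOfIntegers.mapRingHom τ X) + ψ (RingOfIntegers.mapRingHom τ Y)) := by
        refine Finset.sum_congr rfl fun τ _ => ?_
        have h5 := hYn τ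
        have h6 := hXY τ
        have h7 : 1 + t τ =
            (ψ (RingOfIntegers.mapRingHom τ X) + ψ (RingOfIntegers.mapRingHom τ Y)) /
              ψ (RingOfIntegers.mapRingHom τ Y) := by
          rw [htv]
          field_simp
          ring
        rw [h7, one_div_div]
      rw [e, s1, hcard']) (by
      have e : ∑ τ : K →+* N, 1 / t τ =
          ∑ τ : K →+* N, ψ (RingOfIntegers.mapRingHom τ Z) /
            (ψ (RingOfIntegers.mapRingHom τ Y) + ψ (RingOfIntegers.mapRingHom τ Z)) -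
          ∑ τ : K →+* N, (1 : 𝓞 N ⧸ R) := by
        rw [← Finset.sum_sub_distrib]
        refine Finset.sum_congr rfl fun τ _ => ?_
        have e1 : ψ (RingOfIntegers.mapRingHom τ Y) + ψ (RingOfIntegers.mapRingHom τ Z) =
            -ψ (RingOfIntegers.mapRingHom τ X) := by linear_combination hlin τ
        have e2 : ψ (RingOfIntegers.mapRingHom τ Z) = -ψ (RingOfIntegers.mapRingHom τ X) -
            ψ (RingOfIntegers.mapRingHom τ Y) := by linear_combination hlin τ
        rw [e1, e2, htv]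
        have := hYn τ
        have := hXn τ
        field_simp
        ring
      rw [e, hone, hcard']
      linear_combination s3)
  rw [hcard'] at k1
  have hsq : ∀ τ : K →+* N, ψ (RingOfIntegers.mapRingHom τ X) ^ 2 +
      ψ (RingOfIntegers.mapRingHom τ X) * ψ (RingOfIntegers.mapRingHom τ Y) +
      ψ (RingOfIntegers.mapRingHom τ Y) ^ 2 = 0 := by
    intro τ
    have h5 := k2 τ
    have h6 := hYn τ
    rw [htv] at h5
    field_simp at h5
    linear_combination h5
  have hmemP : ∀ P ∈ above p K, X ^ 2 + X * Y + Y ^ 2 ∈ P := by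
    intro P hP
    have h5 := card_emb hcard hpp R hRp hpR P hP.1 hP.2
    have h6 : 0 < ldeg P := by
      have hP0 : P ≠ ⊥ := by
        rintro rfl
        have := hP.2
        rw [Ideal.mem_bot, Nat.cast_eq_zero] at this
        exact hpp.ne_zero this
      exact ldeg_pos hpp (v := ⟨P, hP.1, hP0⟩) hP.2
    rw [← h5] at h6
    obtain ⟨⟨τ, hτ⟩⟩ := (Nat.card_pos_iff.1 h6).1
    rw [← hτ, Ideal.mem_comap, ← h0]
    simp only [map_add, map_mul, map_pow]
    exact hsq τ
  refine ⟨k1, hmemP, ?_, ?_⟩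
  · intro h1
    by_contra hcon
    push Not at hcon
    obtain ⟨τ1, τ2, hne⟩ := k3
    obtain ⟨g, hg⟩ := exists_cube (p := p) h1
    have hP1 : R.comap (RingOfIntegers.mapRingHom τ1) ∈ above p K := ⟨hPτ τ1, hpτ τ1⟩
    have hP2 : R.comap (RingOfIntegers.mapRingHom τ2) ∈ above p K := ⟨hPτ τ2, hpτ τ2⟩
    have heq := hcon _ hP1 _ hP2
    -- the value of the ratio
    have hgz : ((g.val : ℤ) : ZMod p) = g := by
      rw [Int.cast_natCast, ZMod.natCast_zmod_val]
    have hgp : ∀ u : ℤ, ((u : ℤ) : ZMod p) = 0 →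
        ((u : ℤ) : 𝓞 K) ∈ R.comap (RingOfIntegers.mapRingHom τ1) := by
      intro u hu
      obtain ⟨w, rfl⟩ := (ZMod.intCast_zmod_eq_zero_iff_dvd _ p).1 hu
      push_cast
      exact Ideal.mul_mem_right _ _ (hpτ τ1)
    have h5 : (X - (((g.val : ℤ)) : 𝓞 K) * Y) * (X + (1 + (((g.val : ℤ)) : 𝓞 K)) * Y) ∈
        R.comap (RingOfIntegers.mapRingHom τ1) := by
      have e : (X - (((g.val : ℤ)) : 𝓞 K) * Y) * (X + (1 + (((g.val : ℤ)) : 𝓞 K)) * Y) =
          (X ^ 2 + X * Y + Y ^ 2) -
            (((g.val : ℤ) ^ 2 + (g.val : ℤ) + 1 : ℤ) : 𝓞 K) * Y ^ 2 := by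
        push_cast
        ring
      rw [e]
      refine Ideal.sub_mem _ (hmemP _ hP1) (Ideal.mul_mem_right _ _ (hgp _ ?_))
      push_cast
      push_cast at hgz
      rw [hgz]
      exact hg
    have hval : ∃ u : ℤ, X - ((u : ℤ) : 𝓞 K) * Y ∈
        R.comap (RingOfIntegers.mapRingHom τ1) := by
      rcases (hPτ τ1).mem_or_mem h5 with h6 | h6
      · exact ⟨_, h6⟩
      · refine ⟨-(1 + (g.val : ℤ)), ?_⟩
        have e : X - ((-(1 + (g.val : ℤ)) : ℤ) : 𝓞 K) * Y =
            X + (1 + (((g.val : ℤ)) : 𝓞 K)) * Y := by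
          push_cast
          ring
        rw [e]
        exact h6
    obtain ⟨u, hu⟩ := hval
    have hu2 : X - ((u : ℤ) : 𝓞 K) * Y ∈ R.comap (RingOfIntegers.mapRingHom τ2) := by
      rw [← heq]
      exact hu
    have hcalc : ∀ τ : K →+* N, X - ((u : ℤ) : 𝓞 K) * Y ∈
        R.comap (RingOfIntegers.mapRingHom τ) → t τ = ((u : ℤ) : 𝓞 N ⧸ R) := by
      intro τ hτ
      rw [Ideal.mem_comap, ← h0] at hτ
      simp only [map_sub, map_mul, map_intCast] at hτ
      rw [htv, div_eq_iff (hYn τ)]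
      linear_combination hτ
    exact hne ((hcalc τ1 hu).trans (hcalc τ2 hu2).symm)
  · intro h1 P hP hcP
    have hP0 : P ≠ ⊥ := by
      rintro rfl
      have := hP.2
      rw [Ideal.mem_bot, Nat.cast_eq_zero] at this
      exact hpp.ne_zero this
    have hPp := hP.1
    have hPm : P.IsMaximal := hPp.isMaximal hP0
    let _ : Field (𝓞 K ⧸ P) := Ideal.Quotient.field P
    have hfin : Finite (𝓞 K ⧸ P) := Ideal.finiteQuotientOfFreeOfNeBot P hP0
    have hft : Fintype (𝓞 K ⧸ P) := Fintype.ofFinite _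
    have hchK : CharP (𝓞 K ⧸ P) p := charP_quot P hPp p hpp hP.2
    have hYP : Ideal.Quotient.mk P Y ≠ 0 := fun h =>
      (hs.cp P hPp hP.2).2.1 (Ideal.Quotient.eq_zero_iff_mem.1 h)
    have h5 := Ideal.Quotient.eq_zero_iff_mem.2 (hmemP P hP)
    simp only [map_add, map_mul, map_pow] at h5
    set r := Ideal.Quotient.mk P X / Ideal.Quotient.mk P Y with hr
    have h6 : r ^ 2 + r + 1 = 0 := by
      rw [hr]
      field_simp
      linear_combination h5
    have h7 : r ^ 3 = 1 := by linear_combination (r - 1) * h6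
    have h8 : r ≠ 1 := by
      intro h
      rw [h] at h6
      have h9 : ((3 : ℕ) : 𝓞 K ⧸ P) = 0 := by
        push_cast
        linear_combination h6
      exact hp3 ((Nat.prime_dvd_prime_iff_eq hpp Nat.prime_three).1
        ((CharP.cast_eq_zero_iff (𝓞 K ⧸ P) p 3).1 h9))
    have h3 : Fact (Nat.Prime 3) := ⟨Nat.prime_three⟩
    have h9 := orderOf_eq_prime h7 h8
    have h10 : r ≠ 0 := by
      intro h
      rw [h] at h7
      norm_num at h7
    have h11 := FiniteField.pow_card_sub_one_eq_one r h10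
    rw [← Nat.card_eq_fintype_card, hcP] at h11
    have h12 := orderOf_dvd_of_pow_eq_one h11
    rw [h9] at h12
    have := hpp.one_lt
    omega

end

end Pool.Agent.H50.FW
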